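import Pool.Agent.Lib.MP_a325a5_ag.GM.Defs
import Pool.Agent.Lib.MP_a325a5_ag.UM.Pts

/-! Restriction and extension of points, the smallest special subset, the rank. -/

set_option autoImplicit false

namespace Pool.Agent.Lib.MP_a325a5_ag.GM

open MvPolynomial UM

/-- Forget coordinates. -/
def rst {L : Type} [Field L] {α β β' : Type} (f : β → β') (P : Pt L α β') : Pt L α β :=
  (P.1, P.2 ∘ f)

/-- Add a coordinate. -/
def ext {L : Type} [Field L] {α β : Type} (P : Pt L α β) (x : Lˣ) : Pt L α (Option β) :=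
  (P.1, fun o => o.elim x P.2)

/-- The inverse image of `T` under the map that forgets coordinates. -/
def pull {k : Type} [Field k] {α β β' : Type} (f : β → β') (T : Set (Pt k α β)) :
    Set (Pt k α β') := {p | (p.1, p.2 ∘ f) ∈ T}

/-- An affine point as a point without torus coordinates. -/
def aff {L : Type} [Field L] {α : Type} (s : α → L) : Pt L α Empty := (s, fun e => e.elim)

/-- The dimension of a nonempty closed subset. -/
noncomputable def dm {k : Type} [Field k] {α β : Type} (T : Set (Pt k α β)) : ℕ :=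
  ((ringKrullDim (MvPolynomial (α ⊕ β) k ⧸ vanIdeal T)).unbotD 0).toNat

/-- `T` is the smallest special subset containing the point `P`. -/
def Least {k : Type} [Field k] {α β : Type} (𝓕 : (β : Type) → Set (Set (Pt k α β)))
    {L : Type} [Field L] [Algebra k L] (T : Set (Pt k α β)) (P : Pt L α β) : Prop :=
  T ∈ 𝓕 β ∧ vanIdeal T ≤ aloc k (co P) ∧ ∀ T' ∈ 𝓕 β, vanIdeal T' ≤ aloc k (co P) → T ⊆ T'

open Classical in
/-- The rank of a point: the dimension of the smallest special subset containing it. -/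
noncomputable def rho {k : Type} [Field k] {α β : Type} (𝓕 : (β : Type) → Set (Set (Pt k α β)))
    {L : Type} [Field L] [Algebra k L] (P : Pt L α β) : ℕ :=
  if h : ∃ T, Least 𝓕 T P then dm h.choose else 0

section
variable {k : Type} [Field k] {α β β' : Type} {𝓕 : (β : Type) → Set (Set (Pt k α β))}
  {L L' : Type} [Field L] [Algebra k L] [Field L'] [Algebra k L']

/-- The smallest special subset shrinks under specialisation. -/
theorem Least.subset {T T' : Set (Pt k α β)} {P : Pt L α β} {P' : Pt L' α β}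
    (hT : Least 𝓕 T P) (hT' : Least 𝓕 T' P') (h : aloc k (co P') ≤ aloc k (co P)) : T ⊆ T' :=
  hT.2.2 T' hT'.1 (hT'.2.1.trans h)

theorem Least.unique {T T' : Set (Pt k α β)} {P : Pt L α β} (hT : Least 𝓕 T P)
    (hT' : Least 𝓕 T' P) : T = T' :=
  Set.Subset.antisymm (hT.subset hT' le_rfl) (hT'.subset hT le_rfl)

theorem rho_eq {T : Set (Pt k α β)} {P : Pt L α β} (hT : Least 𝓕 T P) : rho 𝓕 P = dm T := by
  have h : ∃ T, Least 𝓕 T P := ⟨T, hT⟩
  rw [rho, dif_pos h, h.choose_spec.unique hT]

theorem Least.congr {T : Set (Pt k α β)} {P : Pt L α β} {P' : Pt L' α β}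
    (h : aloc k (co P') = aloc k (co P)) (hT : Least 𝓕 T P) : Least 𝓕 T P' :=
  ⟨hT.1, by rw [h]; exact hT.2.1, fun T' h1 h2 => hT.2.2 T' h1 (by rw [← h]; exact h2)⟩

theorem rho_congr {P : Pt L α β} {P' : Pt L' α β} (h : aloc k (co P') = aloc k (co P)) :
    rho 𝓕 P' = rho 𝓕 P := by
  classical
  by_cases h1 : ∃ T, Least 𝓕 T P
  · obtain ⟨T, hT⟩ := h1
    rw [rho_eq hT, rho_eq (hT.congr h)]
  · have h2 : ¬ ∃ T, Least 𝓕 T P' := fun ⟨T, hT⟩ => h1 ⟨T, hT.congr h.symm⟩
    rw [rho, rho, dif_neg h1, dif_neg h2]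

@[simp] theorem rst_fst (f : β → β') (P : Pt L α β') : (rst f P).1 = P.1 := rfl

@[simp] theorem rst_snd (f : β → β') (P : Pt L α β') (b : β) : (rst f P).2 b = P.2 (f b) := rfl

@[simp] theorem ext_fst (P : Pt L α β) (x : Lˣ) : (ext P x).1 = P.1 := rfl

@[simp] theorem ext_none (P : Pt L α β) (x : Lˣ) : (ext P x).2 none = x := rfl

@[simp] theorem ext_some (P : Pt L α β) (x : Lˣ) (b : β) : (ext P x).2 (some b) = P.2 b := rfl

theorem rst_some_ext (P : Pt L α β) (x : Lˣ) : rst some (ext P x) = P := rfl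

theorem mem_pull {f : β → β'} {T : Set (Pt k α β)} {p : Pt k α β'} :
    p ∈ pull f T ↔ rst f p ∈ T := Iff.rfl

/-- Restriction is compatible with specialisation. -/
theorem aloc_rst_le (f : β → β') (P : Pt L α β') (P' : Pt L' α β')
    (h : aloc k (co P') ≤ aloc k (co P)) : aloc k (co (rst f P')) ≤ aloc k (co (rst f P)) := by
  have key : ∀ (M : Type) [Field M] [Algebra k M] (Q : Pt M α β') (g : MvPolynomial (α ⊕ β) k),
      aeval (co Q) (rename (Sum.map id f) g) = aeval (co (rst f Q)) g := by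
    intro M _ _ Q g
    rw [aeval_rename]
    congr 2
    funext i
    rcases i with i | i
    · rfl
    · rfl
  intro g hg
  have h1 : rename (Sum.map id f) g ∈ aloc k (co P') := by
    rw [mem_aloc, key]
    exact mem_aloc.mp hg
  have h2 := mem_aloc.mp (h h1)
  rw [key] at h2
  exact mem_aloc.mpr h2

end

end Pool.Agent.Lib.MP_a325a5_ag.GM
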