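import Pool.Agent.Lib.MP_a325a5_ag.GM.HullG
import Pool.Agent.Lib.MP_a325a5_ag.UM.Dec

/-! Components of `X ∩ ⟨W⟩`, atypical special subvarieties and defects. -/

set_option autoImplicit false

namespace Pool.Agent.Lib.MP_a325a5_ag.GM

open MvPolynomial UM

variable {k : Type} [Field k] [IsAlgClosed k] {K : Type} [Field K] [IsAlgClosed K] [CharZero K]
  [Algebra k K] {α β : Type} [Fintype α] [Fintype β] {S : Set (α → k)}
  {𝓕 : (β : Type) → Set (Set (Pt k α β))}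

omit [IsAlgClosed k] [IsAlgClosed K] [CharZero K] [Fintype α] [Fintype β] in
theorem subset_hull (Z : Set (Pt K α β)) : Z ⊆ hull 𝓕 Z :=
  Set.subset_sInter fun _ hH => hH.2

omit [IsAlgClosed K] [CharZero K] in
/-- The smallest special subvariety, with a generic point. -/
private theorem CompG_hull (hF : Family S 𝓕) (W : Set (Pt K α β)) (hW : IrrClosed W)
    (hS : ∀ p ∈ W, p.1 ∈ bc K S) : ∃ T ∈ 𝓕 β, hull 𝓕 W = bcP K T := by
  obtain ⟨L, _, _, γ, h⟩ := exists_generic W hW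
  letI : Algebra k L := ((algebraMap K L).comp (algebraMap k K)).toAlgebra
  haveI : IsScalarTower k K L := IsScalarTower.of_algebraMap_eq' rfl
  obtain ⟨T, hT⟩ := exists_least hF γ (gen_fst_le W γ h S hS)
  refine ⟨T, hT.1, ?_⟩
  apply Set.Subset.antisymm
  · apply Set.sInter_subset_of_mem
    refine ⟨⟨T, hT.1, rfl⟩, ?_⟩
    intro z hz f hf
    have h1 : aloc K (co γ) ≤ aloc K (co z) := by
      rw [h]
      exact (mem_iff_le_aloc hW z).mp hz
    exact mem_aloc.mp (aloc_restrict_le k (co z) (co γ) h1 (hT.2.1 hf))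
  · apply Set.subset_sInter
    rintro H ⟨⟨T', hT', rfl⟩, hZH⟩ x hx f hf
    have h1 : T ⊆ T' := hT.2.2 T' hT' (gen_le W γ h T' hZH)
    exact hx f (vanIdeal_anti h1 hf)

theorem exists_component (hF : Family S 𝓕) (X W : Set (Pt K α β)) (hX : IrrClosed X)
    (hS : ∀ p ∈ X, p.1 ∈ bc K S) (hW : IrrClosed W) (hWX : W ⊆ X) :
    ∃ Z, IrrClosed Z ∧ W ⊆ Z ∧ Z ⊆ X ∧ hull 𝓕 Z = hull 𝓕 W ∧
      ∀ Z', IrrClosed Z' → Z ⊆ Z' → Z' ⊆ X ∩ hull 𝓕 Z → Z' = Z := by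
  obtain ⟨𝒲, hfin, h𝒲, hcov⟩ := exists_decomposition
    {Z : Set (Pt K α β) | IrrClosed Z ∧ Z ⊆ X ∩ hull 𝓕 W} (fun Z hZ => hZ.1)
  obtain ⟨T, hT, hhull⟩ := CompG_hull hF W hW (fun p hp => hS p (hWX hp))
  have hspec : IsSpecial 𝓕 (hull 𝓕 W) := ⟨T, hT, hhull⟩
  have hirr : IrrClosed (hull 𝓕 W) := by
    rw [hhull]
    exact bcP_irr T (hF.irr β T hT)
  have hsub : ∀ V ∈ 𝒲, V ⊆ X ∩ hull 𝓕 W := by
    intro V hV
    obtain ⟨-, hd⟩ := h𝒲 V hV
    refine Set.subset_inter ?_ ?_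
    · rw [subset_iff hX, ← hd]
      refine vanIdeal_anti (Set.sUnion_subset fun Z hZ => ?_)
      exact hZ.1.2.trans Set.inter_subset_left
    · rw [subset_iff hirr, ← hd]
      refine vanIdeal_anti (Set.sUnion_subset fun Z hZ => ?_)
      exact hZ.1.2.trans Set.inter_subset_right
  obtain ⟨V₀, hV₀, hWV₀⟩ := hcov W ⟨hW, Set.subset_inter hWX (subset_hull W)⟩
  obtain ⟨Z, hZmax⟩ := (hfin.subset (Set.sep_subset 𝒲 (fun V => W ⊆ V))).exists_maximal
    ⟨V₀, hV₀, hWV₀⟩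
  have hZ𝒲 : Z ∈ 𝒲 := hZmax.prop.1
  have hWZ : W ⊆ Z := hZmax.prop.2
  have hZB := hsub Z hZ𝒲
  have hh : hull 𝓕 Z = hull 𝓕 W := by
    apply Set.Subset.antisymm
    · exact Set.sInter_subset_of_mem ⟨hspec, hZB.trans Set.inter_subset_right⟩
    · exact Set.subset_sInter fun H hH =>
        Set.sInter_subset_of_mem ⟨hH.1, hWZ.trans hH.2⟩
  refine ⟨Z, (h𝒲 Z hZ𝒲).1, hWZ, hZB.trans Set.inter_subset_left, hh, ?_⟩
  intro Z' hZ' hZZ' hZ'B
  rw [hh] at hZ'B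
  obtain ⟨V, hV, hZ'V⟩ := hcov Z' ⟨hZ', hZ'B⟩
  have h1 : V ⊆ Z := hZmax.le_of_ge ⟨hV, (hWZ.trans hZZ').trans hZ'V⟩ (hZZ'.trans hZ'V)
  exact Set.Subset.antisymm (hZ'V.trans h1) hZZ'

/-- The dimension of the smallest special subvariety is the rank. -/
theorem zdim_hull (hF : Family S 𝓕) (Z : Set (Pt K α β)) (hZ : IrrClosed Z)
    (hS : ∀ p ∈ Z, p.1 ∈ bc K S) {L : Type}
    [Field L] [Algebra K L] [Algebra k L] [IsScalarTower k K L] (γ : Pt L α β)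
    (h : aloc K (co γ) = vanIdeal Z) : zdim (hull 𝓕 Z) = (rho 𝓕 γ : WithBot ℕ∞) := by
  obtain ⟨T, hT⟩ := exists_least hF γ (gen_fst_le Z γ h S hS)
  rw [hull_eq hF Z hZ γ h T hT, zdim_bcP T (hF.irr β T hT.1), rho_eq hT]

theorem atypical_lt (hF : Family S 𝓕) (X Z : Set (Pt K α β)) (hX : IrrClosed X)
    (hS : ∀ p ∈ X, p.1 ∈ bc K S) (hZ : Atypical 𝓕 X Z) {L L' : Type} [Field L] [Algebra K L]
    [Algebra k L] [IsScalarTower k K L] [Field L'] [Algebra K L'] [Algebra k L']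
    [IsScalarTower k K L'] (γX : Pt L α β) (γZ : Pt L' α β)
    (hγX : aloc K (co γX) = vanIdeal X) (hγZ : aloc K (co γZ) = vanIdeal Z) :
    rho 𝓕 γZ + atd K (co γX) < rho 𝓕 γX + atd K (co γZ) := by
  have h := hZ.2
  rw [zdim_eq X γX hγX, zdim_eq Z γZ hγZ, zdim_hull hF X hX hS γX hγX,
    zdim_hull hF Z hZ.1.1 (fun p hp => hS p (hZ.1.2.1 hp)) γZ hγZ] at h
  have h1 : atd K (co γX) + rho 𝓕 γZ < rho 𝓕 γX + atd K (co γZ) := by
    exact_mod_cast h
  omega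

theorem exists_atypical (hF : Family S 𝓕) (X : Set (Pt K α β)) (hX : IrrClosed X)
    (hS : ∀ p ∈ X, p.1 ∈ bc K S) {L L' : Type} [Field L] [Algebra K L] [Algebra k L]
    [IsScalarTower k K L] [Field L'] [Algebra K L'] [Algebra k L'] [IsScalarTower k K L']
    (γX : Pt L α β) (hγX : aloc K (co γX) = vanIdeal X) (p : Pt L' α β)
    (hp : vanIdeal X ≤ aloc K (co p))
    (h : rho 𝓕 p + atd K (co γX) < rho 𝓕 γX + atd K (co p)) :
    ∃ Z, Atypical 𝓕 X Z ∧ vanIdeal Z ≤ aloc K (co p) := by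
  obtain ⟨W, hW, hWp⟩ := exists_irrClosed (K := K) p
  have hWX : W ⊆ X := (subset_iff hX).mpr (by rw [hWp]; exact hp)
  obtain ⟨Z, hZ, hWZ, hZX, hh, hc⟩ := exists_component hF X W hX hS hW hWX
  obtain ⟨L₂, _, _, γZ, hγZ⟩ := exists_generic Z hZ
  have hle : aloc K (co γZ) ≤ aloc K (co p) := by
    rw [hγZ, ← hWp]
    exact vanIdeal_anti hWZ
  have h2 := atd_mono (co p) (co γZ) hle
  have e1 := zdim_eq X γX hγX
  have e2 := zdim_eq Z γZ hγZ
  have e3 := zdim_hull hF X hX hS γX hγX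
  have e4 := zdim_hull hF W hW (fun q hq => hS q (hWX hq)) p hWp.symm
  have hlt : zdim X + zdim (hull 𝓕 Z) < zdim (hull 𝓕 X) + zdim Z := by
    rw [hh, e1, e2, e3, e4]
    have h3 : atd K (co γX) + rho 𝓕 p < rho 𝓕 γX + atd K (co γZ) := by
      omega
    exact_mod_cast h3
  refine ⟨Z, ⟨⟨hZ, hZX, hc, ?_⟩, hlt⟩, ?_⟩
  · intro hh2
    have hXZ : X = Z := hc X hX hZX (fun x hx => ⟨hx, by rw [hh2]; exact subset_hull X hx⟩)
    rw [hh2, ← hXZ, add_comm] at hlt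
    exact lt_irrefl _ hlt
  · rw [← hγZ]
    exact hle

private theorem CompG_atd_le {K : Type} [Field K] {ι : Type} [Fintype ι] {L : Type} [Field L]
    [Algebra K L] (q : ι → L) : atd K q ≤ Fintype.card ι := by
  obtain ⟨J, -, hJ, -⟩ := atd_spec (K := K) q
  rw [← hJ]
  exact Finset.card_le_univ J

omit [IsAlgClosed k] [IsAlgClosed K] [CharZero K] in
theorem exists_maxAtypical (X Z : Set (Pt K α β)) (hZ : Atypical 𝓕 X Z) :
    ∃ W ∈ MaxAtypical 𝓕 X, Z ⊆ W := by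
  have key : ∀ n : ℕ, ∀ Z : Set (Pt K α β), Atypical 𝓕 X Z →
      (∀ (L : Type) [Field L] [Algebra K L] (γ : Pt L α β), aloc K (co γ) = vanIdeal Z →
        Fintype.card (α ⊕ β) ≤ atd K (co γ) + n) → ∃ W ∈ MaxAtypical 𝓕 X, Z ⊆ W := by
    intro n
    induction n with
    | zero =>
      intro Z hZ hn
      refine ⟨Z, ⟨hZ, ?_⟩, subset_rfl⟩
      intro W hW hZW
      obtain ⟨L, _, _, γ, hγ⟩ := exists_generic Z hZ.1.1
      obtain ⟨L', _, _, γ', hγ'⟩ := exists_generic W hW.1.1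
      have h1 := hn L γ hγ
      have h2 := CompG_atd_le (K := K) (co γ')
      have hle : aloc K (co γ') ≤ aloc K (co γ) := by
        rw [hγ, hγ']
        exact vanIdeal_anti hZW
      have h4 := aloc_eq_of_atd_le (co γ) (co γ') hle (by omega)
      exact IrrClosed.ext hW.1.1 hZ.1.1 (by rw [← hγ', ← hγ, h4])
    | succ n ih =>
      intro Z hZ hn
      by_cases hmax : Z ∈ MaxAtypical 𝓕 X
      · exact ⟨Z, hmax, subset_rfl⟩
      · have : ∃ W, Atypical 𝓕 X W ∧ Z ⊆ W ∧ W ≠ Z := by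
          by_contra hcon
          push Not at hcon
          exact hmax ⟨hZ, fun W hW hZW => hcon W hW hZW⟩
        obtain ⟨W, hW, hZW, hne⟩ := this
        obtain ⟨L, _, _, γ, hγ⟩ := exists_generic Z hZ.1.1
        obtain ⟨V, hV, hWV⟩ := ih W hW (by
          intro L' _ _ γ' hγ'
          have hle : aloc K (co γ') ≤ aloc K (co γ) := by
            rw [hγ, hγ']
            exact vanIdeal_anti hZW
          have h1 := hn L γ hγ
          by_contra hcon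
          have h4 := aloc_eq_of_atd_le (co γ) (co γ') hle (by omega)
          exact hne (IrrClosed.ext hW.1.1 hZ.1.1 (by rw [← hγ', ← hγ, h4])))
        exact ⟨V, hV, hZW.trans hWV⟩
  exact key (Fintype.card (α ⊕ β)) Z hZ (fun L _ _ γ _ => Nat.le_add_left _ _)

end Pool.Agent.Lib.MP_a325a5_ag.GM
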