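import Pool.Agent.Lib.MP_a325a5_ag.GM.Base
import Pool.Agent.Lib.MP_a325a5_ag.UM.KD
import Pool.Agent.Lib.MP_a325a5_ag.UM.LocSet
import Pool.Agent.Lib.MP_a325a5_ag.UM.RatTd

/-! Inverse images under the maps that forget torus coordinates. -/

set_option autoImplicit false

namespace Pool.Agent.Lib.MP_a325a5_ag.GM

open MvPolynomial UM
open UL (rcst rvar RatFun)

section
variable {k : Type} [Field k] {α β β' : Type}

/-- The other coordinates. -/
private abbrev Pu (f : β → β') : Type := {j : β' // ∀ b, f b ≠ j}

open Classical in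
/-- The point with the coordinates of `t` and the other coordinates `z`. -/
private noncomputable def puPt {L : Type} [Field L] (f : β → β') (t : Pt L α β)
    (z : Pu f → Lˣ) : Pt L α β' :=
  (t.1, fun j => if h : ∃ b, f b = j then t.2 h.choose else z ⟨j, fun b hb => h ⟨b, hb⟩⟩)

private theorem puPt_rst {L : Type} [Field L] (f : β → β') (hf : Function.Injective f)
    (t : Pt L α β) (z : Pu f → Lˣ) : rst f (puPt f t z) = t := by
  classical
  refine Prod.ext rfl (funext fun b => ?_)
  have h : ∃ b', f b' = f b := ⟨b, rfl⟩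
  change (if h : ∃ b', f b' = f b then t.2 h.choose else _) = t.2 b
  rw [dif_pos h]
  exact congrArg t.2 (hf h.choose_spec)

private theorem puPt_snd {L : Type} [Field L] (f : β → β') (t : Pt L α β) (z : Pu f → Lˣ)
    (j : Pu f) : (puPt f t z).2 j = z j := by
  classical
  have h : ¬ ∃ b', f b' = (j : β') := fun ⟨b, hb⟩ => j.2 b hb
  change (if h : ∃ b', f b' = (j : β') then t.2 h.choose else _) = z j
  rw [dif_neg h]

private theorem puPt_eq {L : Type} [Field L] (f : β → β')
    (P : Pt L α β') : P = puPt f (rst f P) (fun j => P.2 j) := by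
  classical
  refine Prod.ext rfl (funext fun j => ?_)
  by_cases h : ∃ b, f b = j
  · change _ = (if h : ∃ b', f b' = j then (rst f P).2 h.choose else _)
    rw [dif_pos h]
    exact congrArg P.2 h.choose_spec.symm
  · change _ = (if h : ∃ b', f b' = j then (rst f P).2 h.choose else _)
    rw [dif_neg h]

open Classical in
/-- The polynomial as a polynomial in the other coordinates. -/
private noncomputable def puF (k : Type) [Field k] (α : Type) {β β' : Type} (f : β → β') :
    MvPolynomial (α ⊕ β') k →ₐ[k] MvPolynomial (Pu f) (MvPolynomial (α ⊕ β) k) :=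
  aeval (Sum.elim (fun i => C (X (Sum.inl i))) fun j =>
    if h : ∃ b, f b = j then C (X (Sum.inr h.choose)) else X ⟨j, fun b hb => h ⟨b, hb⟩⟩)

private theorem puF_eval (f : β → β') (F : MvPolynomial (α ⊕ β') k) {L : Type} [Field L]
    [Algebra k L] (t : Pt L α β) (z : Pu f → Lˣ) :
    eval (fun j => (z j : L)) (map (aeval (co t) : MvPolynomial (α ⊕ β) k →ₐ[k] L).toRingHom
      (puF k α f F)) = aeval (co (puPt f t z)) F := by
  classical
  have h : ((eval (fun j => (z j : L))).comp ((map (aeval (co t) :
      MvPolynomial (α ⊕ β) k →ₐ[k] L).toRingHom).comp (puF k α f).toRingHom)) =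
      (aeval (co (puPt f t z)) : MvPolynomial (α ⊕ β') k →ₐ[k] L).toRingHom := by
    apply MvPolynomial.ringHom_ext
    · intro c
      simp [puF, algebraMap_eq]
    · intro i
      rcases i with i | j
      · simp [puF, puPt]
      · by_cases h : ∃ b, f b = j
        · simp [puF, puPt, h]
        · simp [puF, puPt, h]
  exact congrArg (fun g : MvPolynomial (α ⊕ β') k →+* L => g F) h

/-- `F` vanishes on the inverse image of `T` iff its coefficients vanish on `T`. -/
private theorem puF_mem [Infinite k] (f : β → β') (hf : Function.Injective f)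
    (T : Set (Pt k α β)) (F : MvPolynomial (α ⊕ β') k) :
    F ∈ vanIdeal (pull f T) ↔ ∀ m, coeff m (puF k α f F) ∈ vanIdeal T := by
  constructor
  · intro hF m t ht
    have h1 : map (aeval (co t) : MvPolynomial (α ⊕ β) k →ₐ[k] k).toRingHom (puF k α f F) = 0 := by
      apply MvPolynomial.funext_set (fun _ => {c : k | c ≠ 0})
      · intro i
        exact (Set.finite_singleton (0 : k)).infinite_compl
      · intro z hz
        rw [map_zero]
        have h2 := puF_eval f F t (fun j => Units.mk0 (z j) (hz j (Set.mem_univ j)))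
        have h3 : aeval (co (puPt f t (fun j => Units.mk0 (z j) (hz j (Set.mem_univ j))))) F
            = 0 := by
          have h4 := hF (puPt f t (fun j => Units.mk0 (z j) (hz j (Set.mem_univ j)))) (by
            rw [mem_pull, puPt_rst f hf]
            exact ht)
          rw [← MvPolynomial.coe_aeval_eq_eval] at h4
          exact h4
        rw [h3] at h2
        exact h2
    have h5 := congrArg (coeff m) h1
    rw [coeff_map, coeff_zero] at h5
    rw [← MvPolynomial.coe_aeval_eq_eval]
    exact h5
  · intro h p hp
    rw [← MvPolynomial.coe_aeval_eq_eval]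
    change aeval (co p) F = 0
    rw [puPt_eq f p, ← puF_eval]
    have h1 : map (aeval (co (rst f p)) : MvPolynomial (α ⊕ β) k →ₐ[k] k).toRingHom
        (puF k α f F) = 0 := by
      ext m
      rw [coeff_map, coeff_zero]
      have h2 := h m (rst f p) hp
      rw [← MvPolynomial.coe_aeval_eq_eval] at h2
      exact h2
    rw [h1, map_zero]

/-- The polynomials vanishing on `T × 𝔾_m^(β' - β)`: their coefficients vanish on `T`. -/
theorem pull_le_iff [IsAlgClosed k] (f : β → β') (hf : Function.Injective f)
    (T : Set (Pt k α β)) {L : Type} [Field L] [Algebra k L] (P : Pt L α β') :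
    vanIdeal (pull f T) ≤ aloc k (co P) ↔ vanIdeal T ≤ aloc k (co (rst f P)) := by
  have : Infinite k := IsAlgClosed.instInfinite
  have key : ∀ (M : Type) [Field M] [Algebra k M] (Q : Pt M α β') (g : MvPolynomial (α ⊕ β) k),
      aeval (co Q) (rename (Sum.map id f) g) = aeval (co (rst f Q)) g := by
    intro M _ _ Q g
    rw [aeval_rename]
    congr 2
    funext i
    rcases i with i | i
    · rfl
    · rfl
  constructor
  · intro h g hg
    rw [mem_aloc, ← key]
    apply mem_aloc.mp
    apply h
    intro p hp
    rw [← MvPolynomial.coe_aeval_eq_eval]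
    change aeval (co p) (rename (Sum.map id f) g) = 0
    rw [key]
    have h2 := hg (rst f p) hp
    rw [← MvPolynomial.coe_aeval_eq_eval] at h2
    exact h2
  · intro h F hF
    rw [puF_mem f hf] at hF
    rw [mem_aloc, puPt_eq f P, ← puF_eval]
    have h1 : map (aeval (co (rst f P)) : MvPolynomial (α ⊕ β) k →ₐ[k] L).toRingHom
        (puF k α f F) = 0 := by
      ext m
      rw [coeff_map, coeff_zero]
      exact mem_aloc.mp (h (hF m))
    rw [h1, map_zero]

private theorem pu_dm_eq [Fintype α] [Fintype β] {L : Type} [Field L] [Algebra k L]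
    (T : Set (Pt k α β)) (q : Pt L α β) (h : aloc k (co q) = vanIdeal T) :
    dm T = atd k (co q) := by
  have h1 := krullDim_aloc (K := k) (co q)
  rw [h] at h1
  unfold dm
  rw [h1]
  rfl

theorem dm_pull [IsAlgClosed k] [Fintype α] [Fintype β] [Fintype β'] (f : β → β')
    (hf : Function.Injective f) (T : Set (Pt k α β)) (hT : IrrClosed T) :
    dm (pull f T) + Fintype.card β = dm T + Fintype.card β' := by
  classical
  have : Infinite k := IsAlgClosed.instInfinite
  obtain ⟨L, iL, iA, γ, hγ⟩ := exists_generic T hT
  have hx : ∀ u : Pu f, (rvar L u : RatFun (Pu f) L) ≠ 0 := by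
    intro u hu
    have h1 : (X u : MvPolynomial (Pu f) L) = 0 :=
      IsFractionRing.injective (MvPolynomial (Pu f) L) (RatFun (Pu f) L) (hu.trans (map_zero _).symm)
    exact X_ne_zero u h1
  have hinj : Function.Injective (rcst (Pu f) : L → RatFun (Pu f) L) := by
    intro a b h
    exact (algebraMap L (RatFun (Pu f) L)).injective h
  let γ' : Pt (RatFun (Pu f) L) α β :=
    (fun i => rcst (Pu f) (γ.1 i), fun b => Units.mk0 (rcst (Pu f) (γ.2 b : L)) (by
      intro h
      exact (γ.2 b).ne_zero (hinj (h.trans (map_zero (algebraMap L (RatFun (Pu f) L))).symm))))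
  let P : Pt (RatFun (Pu f) L) α β' := puPt f γ' (fun u => Units.mk0 (rvar L u) (hx u))
  have hco : co γ' = fun i => rcst (Pu f) (co γ i) := by
    funext i
    rcases i with i | i
    · rfl
    · rfl
  have hrP : rst f P = γ' := puPt_rst f hf _ _
  have hγ' : ∀ g : MvPolynomial (α ⊕ β) k, aeval (co γ') g =
      algebraMap L (RatFun (Pu f) L) (aeval (co γ) g) := by
    intro g
    rw [hco]
    exact (aeval_algebraMap_apply (RatFun (Pu f) L) (co γ) g)
  have hloc : aloc k (co P) = vanIdeal (pull f T) := by
    apply le_antisymm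
    · intro F hF
      rw [puF_mem f hf]
      intro m
      have h1 := mem_aloc.mp hF
      rw [← puF_eval] at h1
      have h2 : map (aeval (co γ') : MvPolynomial (α ⊕ β) k →ₐ[k] RatFun (Pu f) L).toRingHom
          (puF k α f F) = map (algebraMap L (RatFun (Pu f) L))
            (map (aeval (co γ) : MvPolynomial (α ⊕ β) k →ₐ[k] L).toRingHom (puF k α f F)) := by
        rw [map_map]
        congr 1
        congr 1
        apply RingHom.ext
        intro g
        exact hγ' g
      rw [h2] at h1
      have h3 : ∀ G : MvPolynomial (Pu f) L,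
          eval (fun j => (Units.mk0 (rvar L j) (hx j) : (RatFun (Pu f) L)ˣ).val)
            (map (algebraMap L (RatFun (Pu f) L)) G) =
          algebraMap (MvPolynomial (Pu f) L) (RatFun (Pu f) L) G := by
        intro G
        rw [eval_map]
        have h4 : (eval₂Hom (algebraMap L (RatFun (Pu f) L))
            (fun j => (Units.mk0 (rvar L j) (hx j) : (RatFun (Pu f) L)ˣ).val)) =
            algebraMap (MvPolynomial (Pu f) L) (RatFun (Pu f) L) := by
          apply MvPolynomial.ringHom_ext
          · intro c
            rw [eval₂Hom_C]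
            rfl
          · intro i
            rw [eval₂Hom_X']
            rfl
        exact congrArg (fun g : MvPolynomial (Pu f) L →+* RatFun (Pu f) L => g G) h4
      rw [h3] at h1
      have h5 : map (aeval (co γ) : MvPolynomial (α ⊕ β) k →ₐ[k] L).toRingHom (puF k α f F) = 0 :=
        IsFractionRing.injective (MvPolynomial (Pu f) L) (RatFun (Pu f) L)
          (h1.trans (map_zero _).symm)
      rw [← hγ, mem_aloc]
      have h6 := congrArg (coeff m) h5
      rw [coeff_map, coeff_zero] at h6
      exact h6
    · rw [pull_le_iff f hf, hrP, ← hγ]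
      intro g hg
      rw [mem_aloc, hγ', mem_aloc.mp hg, map_zero]
  have htd : atd k (co P) = atd k (co γ) + Fintype.card (Pu f) := by
    rw [← atd_ratFun (U := Pu f) (co γ)]
    apply le_antisymm
    · apply atd_le_of_algebraic
      intro i
      apply isAlgebraic_algebraMap (⟨_, Algebra.subset_adjoin ?_⟩ : Algebra.adjoin k _)
      rcases i with i | j
      · exact ⟨Sum.inl (Sum.inl i), rfl⟩
      · by_cases h : ∃ b, f b = j
        · obtain ⟨b, rfl⟩ := h
          refine ⟨Sum.inl (Sum.inr b), ?_⟩
          have h7 := congrArg (fun Q : Pt (RatFun (Pu f) L) α β => (Q.2 b : RatFun (Pu f) L)) hrP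
          exact h7.symm
        · refine ⟨Sum.inr ⟨j, fun b hb => h ⟨b, hb⟩⟩, ?_⟩
          have h8 := congrArg (fun x : (RatFun (Pu f) L)ˣ => (x : RatFun (Pu f) L))
            (puPt_snd f γ' (fun u => Units.mk0 (rvar L u) (hx u)) ⟨j, fun b hb => h ⟨b, hb⟩⟩)
          exact h8.symm
    · apply atd_le_of_algebraic
      intro i
      apply isAlgebraic_algebraMap (⟨_, Algebra.subset_adjoin ?_⟩ : Algebra.adjoin k _)
      rcases i with (i | b) | u
      · exact ⟨Sum.inl i, rfl⟩
      · refine ⟨Sum.inr (f b), ?_⟩
        exact congrArg (fun Q : Pt (RatFun (Pu f) L) α β => (Q.2 b : RatFun (Pu f) L)) hrP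
      · refine ⟨Sum.inr u.1, ?_⟩
        exact congrArg (fun x : (RatFun (Pu f) L)ˣ => (x : RatFun (Pu f) L))
            (puPt_snd f γ' (fun u => Units.mk0 (rvar L u) (hx u)) u)
  have hcard : Fintype.card β' = Fintype.card β + Fintype.card (Pu f) := by
    have e1 : β' ≃ {j : β' // ∃ b, f b = j} ⊕ {j : β' // ¬ ∃ b, f b = j} :=
      (Equiv.sumCompl _).symm
    have e2 : {j : β' // ¬ ∃ b, f b = j} ≃ Pu f :=
      Equiv.subtypeEquivRight fun j => not_exists
    have e3 : β ≃ {j : β' // ∃ b, f b = j} := Equiv.ofInjective f hf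
    rw [← Fintype.card_sum]
    exact Fintype.card_congr (e1.trans (Equiv.sumCongr e3.symm e2))
  rw [pu_dm_eq T γ hγ, pu_dm_eq (pull f T) P hloc, htd, hcard]
  ring

end

end Pool.Agent.Lib.MP_a325a5_ag.GM
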