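import Pool.Agent.Lib.MP_a325a5_ag.GM.Base
import Pool.Agent.Lib.MP_a325a5_ag.UM.Least

/-! The smallest special subset containing a point, for families on all products `S × 𝔾_m^β`. -/

set_option autoImplicit false
set_option linter.unusedSectionVars false

namespace Pool.Agent.Lib.MP_a325a5_ag.GM

open MvPolynomial UM

section G1
variable {k : Type} [Field k] {α β : Type} [Fintype α] [Fintype β]

theorem dm_eq {L : Type} [Field L] [Algebra k L] (T : Set (Pt k α β)) (P : Pt L α β)
    (h : aloc k (co P) = vanIdeal T) : dm T = atd k (co P) := by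
  have h1 := krullDim_aloc (K := k) (co P)
  rw [h] at h1
  unfold dm
  rw [h1]
  rfl

theorem dm_mono {T T' : Set (Pt k α β)} (hT : IrrClosed T) (hT' : IrrClosed T') (h : T ⊆ T') :
    dm T ≤ dm T' ∧ (dm T' ≤ dm T → T = T') := by
  obtain ⟨L, iL, iA, q, hq⟩ := exists_generic T hT
  obtain ⟨L', iL', iA', q', hq'⟩ := exists_generic T' hT'
  have hle : aloc k (co q') ≤ aloc k (co q) := by
    rw [hq, hq']
    exact vanIdeal_anti h
  rw [dm_eq T q hq, dm_eq T' q' hq']
  refine ⟨atd_mono (co q) (co q') hle, fun h1 => IrrClosed.ext hT hT' ?_⟩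
  rw [← hq, ← hq']
  exact (aloc_eq_of_atd_le (co q) (co q') hle h1).symm

/-! ### Affine points -/

omit [Fintype α] in
/-- The polynomial in the affine coordinates. -/
private theorem g1_eval {L : Type} [Field L] [Algebra k L] (s : α → L)
    (g : MvPolynomial (α ⊕ Empty) k) :
    aeval (co (aff s)) g = aeval s (rename (Sum.elim id fun e : Empty => e.elim) g) := by
  rw [aeval_rename]
  congr 2
  funext i
  rcases i with i | i
  · rfl
  · exact i.elim

omit [Fintype α] in
private theorem g1_aff (p : Pt k α Empty) : aff p.1 = p := by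
  apply Prod.ext
  · rfl
  · funext e
    exact e.elim

omit [Fintype α] in
private theorem g1_eval' (p : Pt k α Empty) (g : MvPolynomial (α ⊕ Empty) k) :
    eval (co p) g = eval p.1 (rename (Sum.elim id fun e : Empty => e.elim) g) := by
  rw [eval_rename]
  congr 2
  funext i
  rcases i with i | i
  · rfl
  · exact i.elim

omit [Fintype α] in
/-- The ideal of an affine set. -/
private theorem g1_mem (T : Set (α → k)) (g : MvPolynomial (α ⊕ Empty) k) :
    g ∈ vanIdeal {p : Pt k α Empty | p.1 ∈ T} ↔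
      rename (Sum.elim id fun e : Empty => e.elim) g ∈ avan T := by
  rw [mem_vanIdeal, mem_avan]
  constructor
  · intro h x hx
    have h1 := h (aff x) hx
    rw [g1_eval'] at h1
    exact h1
  · intro h p hp
    rw [g1_eval']
    exact h p.1 hp

omit [Fintype α] in
private theorem g1_mem' (T : Set (α → k)) (f : MvPolynomial α k) :
    f ∈ avan T ↔ rename Sum.inl f ∈ vanIdeal {p : Pt k α Empty | p.1 ∈ T} := by
  rw [g1_mem, rename_rename]
  have h : (Sum.elim id fun e : Empty => e.elim) ∘ (Sum.inl : α → α ⊕ Empty) = id := rfl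
  rw [h, rename_id, AlgHom.id_apply]

omit [Fintype α] in
private theorem g1_le_iff (T : Set (α → k)) {L : Type} [Field L] [Algebra k L] (s : α → L) :
    vanIdeal {p : Pt k α Empty | p.1 ∈ T} ≤ aloc k (co (aff s)) ↔ avan T ≤ aloc k s := by
  constructor
  · intro h f hf
    have h1 := h ((g1_mem' T f).1 hf)
    rw [mem_aloc, g1_eval, rename_rename] at h1
    have h2 : (Sum.elim id fun e : Empty => e.elim) ∘ (Sum.inl : α → α ⊕ Empty) = id := rfl
    rw [h2, rename_id, AlgHom.id_apply] at h1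
    exact mem_aloc.mpr h1
  · intro h g hg
    rw [mem_aloc, g1_eval]
    exact mem_aloc.mp (h ((g1_mem T g).1 hg))

omit [Fintype α] in
private theorem g1_irr_iff (T : Set (α → k)) :
    AIrr T ↔ IrrClosed {p : Pt k α Empty | p.1 ∈ T} := by
  constructor
  · rintro ⟨h1, h2⟩
    refine ⟨?_, ?_⟩
    · have h3 : vanIdeal {p : Pt k α Empty | p.1 ∈ T} =
          (avan T).comap (rename (Sum.elim id fun e : Empty => e.elim)) := by
        ext g
        rw [g1_mem, Ideal.mem_comap]
      rw [h3]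
      exact Ideal.comap_isPrime _ _
    · intro p hp
      refine h2 p.1 fun f hf => ?_
      have h3 := hp _ ((g1_mem' T f).1 hf)
      rw [eval_rename] at h3
      exact h3
  · rintro ⟨h1, h2⟩
    refine ⟨?_, ?_⟩
    · have h3 : avan T = (vanIdeal {p : Pt k α Empty | p.1 ∈ T}).comap (rename Sum.inl) := by
        ext f
        rw [g1_mem', Ideal.mem_comap]
      rw [h3]
      exact Ideal.comap_isPrime _ _
    · intro x hx
      refine h2 (aff x) fun g hg => ?_
      rw [g1_eval']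
      exact hx _ ((g1_mem T g).1 hg)

omit [Fintype α] in
/-- Every set of points without torus coordinates is an affine set. -/
private theorem g1_set (T : Set (Pt k α Empty)) :
    {p : Pt k α Empty | p.1 ∈ {x : α → k | aff x ∈ T}} = T := by
  ext p
  change aff p.1 ∈ T ↔ p ∈ T
  rw [g1_aff]

omit [Fintype α] in
private theorem g1_base {𝓕 : (β : Type) → Set (Set (Pt k α β))} {T : Set (Pt k α Empty)}
    (hT : T ∈ 𝓕 Empty) : {x : α → k | aff x ∈ T} ∈ base 𝓕 := by
  change {p : Pt k α Empty | p.1 ∈ {x : α → k | aff x ∈ T}} ∈ 𝓕 Empty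
  rw [g1_set]
  exact hT

private theorem g1_univ : UL.IsSpecial (Set.univ : Set (Empty → kˣ)) := by
  refine ⟨⟨?_, fun _ _ => Set.mem_univ _⟩, ∅, fun e he => absurd he (Set.notMem_empty e), ?_⟩
  · have h : UL.vanIdeal (Set.univ : Set (Empty → kˣ)) =
        UL.locus k (fun e : Empty => (e.elim : kˣ)) := by
      ext f
      rw [UL.mem_vanIdeal, UL.mem_locus_self]
      constructor
      · intro h
        exact h _ (Set.mem_univ _)
      · intro h z _
        have : z = fun e : Empty => (e.elim : kˣ) := funext fun e => e.elim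
        rw [this]
        exact h
    rw [h]
    exact aloc_isPrime k _
  · ext x
    simp

omit [Fintype α] in
private theorem g1_top {S : Set (α → k)} {𝓕 : (β : Type) → Set (Set (Pt k α β))}
    (hF : Family S 𝓕) : {p : Pt k α Empty | p.1 ∈ S} ∈ 𝓕 Empty := by
  have h := hF.coset Empty Set.univ g1_univ
  have h1 : {p : Pt k α Empty | p.1 ∈ S ∧ p.2 ∈ (Set.univ : Set (Empty → kˣ))} =
      {p : Pt k α Empty | p.1 ∈ S} := by
    ext p
    simp
  rw [h1] at h
  exact h

variable [IsAlgClosed k] {S : Set (α → k)} {𝓕 : (β : Type) → Set (Set (Pt k α β))}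

omit [Fintype β] in
theorem base_family (hF : Family S 𝓕) : UM.Family S (base 𝓕) where
  irr T hT := (g1_irr_iff T).2 (hF.irr Empty _ hT)
  sub T hT x hx := hF.sub Empty _ hT (aff x) hx
  top := g1_top hF
  inter T₁ hT₁ T₂ hT₂ Z hZ hZT := by
    obtain ⟨T₃, hT₃, h1, h2⟩ := hF.inter Empty _ hT₁ _ hT₂ {p : Pt k α Empty | p.1 ∈ Z}
      ((g1_irr_iff Z).1 hZ) (fun p hp => hZT hp)
    refine ⟨{x : α → k | aff x ∈ T₃}, g1_base hT₃, fun x hx => h1 hx, fun x hx => ?_⟩
    exact h2 hx

theorem exists_least (hF : Family S 𝓕) {L : Type} [Field L] [Algebra k L] (P : Pt L α β)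
    (hP : avan S ≤ aloc k P.1) : ∃ T, Least 𝓕 T P := by
  obtain ⟨Z, hZ, hZq⟩ := exists_irrClosed (K := k) P
  have htop : pull (fun e : Empty => (e.elim : β)) {p : Pt k α Empty | p.1 ∈ S} ∈ 𝓕 β :=
    hF.pull Empty β _ (fun e => e.elim) _ (g1_top hF)
  have htop' : vanIdeal (pull (fun e : Empty => (e.elim : β)) {p : Pt k α Empty | p.1 ∈ S}) ≤
      aloc k (co P) := by
    rw [← hZq]
    refine vanIdeal_anti fun z hz => ?_
    refine ((base_family hF).irr S (base_family hF).top).2 z.1 fun f hf => ?_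
    have h1 : rename Sum.inl f ∈ vanIdeal Z := by
      rw [hZq, mem_aloc, aeval_rename]
      exact mem_aloc.mp (hP hf)
    have h2 := h1 z hz
    rw [eval_rename] at h2
    exact h2
  obtain ⟨T, ⟨hT, hTq⟩, hmin⟩ := (measure (fun T : Set (Pt k α β) => dm T)).wf.has_min
    {T | T ∈ 𝓕 β ∧ vanIdeal T ≤ aloc k (co P)} ⟨_, htop, htop'⟩
  refine ⟨T, hT, hTq, fun T' hT' hT'q => ?_⟩
  have h1 : Z ⊆ T := (subset_iff (hF.irr β T hT)).mpr (by rw [hZq]; exact hTq)
  have h2 : Z ⊆ T' := (subset_iff (hF.irr β T' hT')).mpr (by rw [hZq]; exact hT'q)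
  obtain ⟨T₃, hT₃, hZT₃, hT₃T⟩ := hF.inter β T hT T' hT' Z hZ (Set.subset_inter h1 h2)
  have h3 : vanIdeal T₃ ≤ aloc k (co P) := by
    rw [← hZq]
    exact vanIdeal_anti hZT₃
  have h4 : dm T ≤ dm T₃ := not_lt.mp (hmin T₃ ⟨hT₃, h3⟩)
  have h5 : T₃ = T := (dm_mono (hF.irr β T₃ hT₃) (hF.irr β T hT)
    (hT₃T.trans Set.inter_subset_left)).2 h4
  rw [← h5]
  exact hT₃T.trans Set.inter_subset_right

theorem rho_mono (hF : Family S 𝓕) {L L' : Type} [Field L] [Algebra k L] [Field L']
    [Algebra k L'] (P : Pt L α β) (P' : Pt L' α β) (hP : avan S ≤ aloc k P'.1)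
    (h : aloc k (co P') ≤ aloc k (co P)) : rho 𝓕 P ≤ rho 𝓕 P' := by
  obtain ⟨T', hT'⟩ := exists_least hF P' hP
  obtain ⟨T, hT⟩ := exists_least hF P (hP.trans (aloc_fst_le P P' h))
  rw [rho_eq hT, rho_eq hT']
  exact (dm_mono (hF.irr β T hT.1) (hF.irr β T' hT'.1) (hT.subset hT' h)).1

theorem Least.eq_of_rho_le (hF : Family S 𝓕) {L L' : Type} [Field L] [Algebra k L] [Field L']
    [Algebra k L'] {T T' : Set (Pt k α β)} {P : Pt L α β} {P' : Pt L' α β}
    (hT : Least 𝓕 T P) (hT' : Least 𝓕 T' P') (h : aloc k (co P') ≤ aloc k (co P))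
    (hr : rho 𝓕 P' ≤ rho 𝓕 P) : T = T' := by
  rw [rho_eq hT, rho_eq hT'] at hr
  exact (dm_mono (hF.irr β T hT.1) (hF.irr β T' hT'.1) (hT.subset hT' h)).2 hr

omit [Fintype β] in
/-- Affine points. -/
theorem least_aff (hF : Family S 𝓕) {L : Type} [Field L] [Algebra k L] (s : α → L)
    (T : Set (α → k)) (hT : UM.Least (base 𝓕) T s) :
    Least 𝓕 {p : Pt k α Empty | p.1 ∈ T} (aff s) ∧ rho 𝓕 (aff s) = UM.dm T := by
  have h1 : Least 𝓕 {p : Pt k α Empty | p.1 ∈ T} (aff s) := by
    refine ⟨hT.1, (g1_le_iff T s).2 hT.2.1, fun T' hT' hT's p hp => ?_⟩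
    have h2 := hT.2.2 {x : α → k | aff x ∈ T'} (g1_base hT') (by
      rw [← g1_le_iff, g1_set]
      exact hT's)
    have h3 : aff p.1 ∈ T' := h2 hp
    rw [g1_aff] at h3
    exact h3
  refine ⟨h1, ?_⟩
  rw [rho_eq h1]
  obtain ⟨M, iM, iA, q, hq⟩ := exists_ageneric T ((base_family hF).irr T hT.1)
  have h4 : aloc k (co (aff q)) = vanIdeal {p : Pt k α Empty | p.1 ∈ T} := by
    ext g
    rw [mem_aloc, g1_eval, g1_mem, ← hq, mem_aloc]
  rw [dm_eq _ (aff q) h4, UM.dm_eq T q hq]
  apply le_antisymm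
  · refine atd_le_of_algebraic _ _ fun i => ?_
    rcases i with i | i
    · exact isAlgebraic_algebraMap
        (⟨q i, Algebra.subset_adjoin ⟨i, rfl⟩⟩ : Algebra.adjoin k (Set.range fun j => q j))
    · exact i.elim
  · refine atd_le_of_algebraic _ _ fun i => ?_
    exact isAlgebraic_algebraMap
      (⟨q i, Algebra.subset_adjoin ⟨Sum.inl i, rfl⟩⟩ :
        Algebra.adjoin k (Set.range fun j => co (aff q) j))

end G1

end Pool.Agent.Lib.MP_a325a5_ag.GM
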