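import Pool.Agent.Lib.MP_a325a5_ag.GM.Pull

/-! Projections of special subsets, induction over the forgotten coordinates. -/

set_option autoImplicit false

namespace Pool.Agent.Lib.MP_a325a5_ag.GM

open MvPolynomial UM

/-- Induction over the number of coordinates outside the image of an injective map `f : β → β'`:
the property holds for bijections, and if it holds for `f` extended by `j` it holds for `f`. -/
theorem inj_induction {β' : Type} [Fintype β'] {C : (β : Type) → [Fintype β] → (β → β') → Prop}
    (hbij : ∀ (β : Type) [Fintype β] (f : β → β'), Function.Bijective f → C β f)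
    (hstep : ∀ (β : Type) [Fintype β] (f : β → β') (j : β'), Function.Injective f →
      (∀ b, f b ≠ j) → Function.Injective (fun o : Option β => o.elim j f) →
      C (Option β) (fun o => o.elim j f) → C β f)
    (β : Type) [Fintype β] (f : β → β') (hf : Function.Injective f) : C β f := by
  have key : ∀ (n : ℕ) (β : Type) [Fintype β] (f : β → β'), Function.Injective f →
      Fintype.card β' = n + Fintype.card β → C β f := by
    intro n
    induction n with
    | zero =>
      intro β _ f hf hc
      exact hbij β f ((Fintype.bijective_iff_injective_and_card f).mpr ⟨hf, by omega⟩)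
    | succ n ih =>
      intro β _ f hf hc
      have hns : ¬ Function.Surjective f := by
        intro hs
        have := Fintype.card_le_of_surjective f hs
        omega
      obtain ⟨j, hj⟩ := not_forall.mp hns
      have hj' : ∀ b, f b ≠ j := fun b hb => hj ⟨b, hb⟩
      have hinj : Function.Injective (fun o : Option β => o.elim j f) := by
        intro a b hab
        rcases a with _ | a <;> rcases b with _ | b
        · rfl
        · exact absurd hab.symm (hj' b)
        · exact absurd hab (hj' a)
        · exact congrArg some (hf hab)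
      apply hstep β f j hf hj' hinj
      apply ih (Option β) _ hinj
      rw [Fintype.card_option]
      omega
  have hc := Fintype.card_le_of_injective f hf
  exact key (Fintype.card β' - Fintype.card β) β f hf (by omega)

theorem rst_rst {L : Type} [Field L] {α β β' β'' : Type} (f : β → β') (g : β' → β'')
    (P : Pt L α β'') : rst f (rst g P) = rst (g ∘ f) P := rfl

theorem rst_elim {L : Type} [Field L] {α β β' : Type} (f : β → β') (j : β') (P : Pt L α β') :
    rst (fun o : Option β => o.elim j f) P = ext (rst f P) (P.2 j) := by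
  refine Prod.ext rfl (funext fun o => ?_)
  rcases o with _ | b
  · rfl
  · rfl

theorem rst_option_map {L : Type} [Field L] {α β β' : Type} (f : β → β') (P : Pt L α β')
    (x : Lˣ) : rst (Option.map f) (ext P x) = ext (rst f P) x := by
  refine Prod.ext rfl (funext fun o => ?_)
  rcases o with _ | b
  · rfl
  · rfl

section
variable {k : Type} [Field k] {α β β' : Type}

theorem aeval_rename_rst {L : Type} [Field L] [Algebra k L] (f : β → β') (P : Pt L α β')
    (g : MvPolynomial (α ⊕ β) k) :
    aeval (co P) (rename (Sum.map id f) g) = aeval (co (rst f P)) g := by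
  rw [aeval_rename]
  congr 2
  funext i
  rcases i with i | i
  · rfl
  · rfl

theorem mem_vanIdeal_image (f : β → β') (Z : Set (Pt k α β')) (g : MvPolynomial (α ⊕ β) k) :
    g ∈ vanIdeal (rst f '' Z) ↔ rename (Sum.map id f) g ∈ vanIdeal Z := by
  rw [mem_vanIdeal, mem_vanIdeal]
  have h : ∀ p : Pt k α β', eval (co p) (rename (Sum.map id f) g) = eval (co (rst f p)) g := by
    intro p
    rw [← MvPolynomial.coe_aeval_eq_eval, ← MvPolynomial.coe_aeval_eq_eval]
    exact aeval_rename_rst f p g
  constructor
  · intro h1 z hz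
    rw [h]
    exact h1 _ ⟨z, hz, rfl⟩
  · rintro h1 _ ⟨z, hz, rfl⟩
    rw [← h]
    exact h1 z hz

theorem vanIdeal_image_congr (f : β → β') {Z W : Set (Pt k α β')} (h : vanIdeal Z = vanIdeal W) :
    vanIdeal (rst f '' Z) = vanIdeal (rst f '' W) := by
  ext g
  rw [mem_vanIdeal_image, mem_vanIdeal_image, h]

/-- A point of `Z` projects to a point of the closure of the projection of `Z`. -/
theorem vanIdeal_image_le {L : Type} [Field L] [Algebra k L] (f : β → β') {Z : Set (Pt k α β')}
    {P : Pt L α β'} (h : vanIdeal Z ≤ aloc k (co P)) :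
    vanIdeal (rst f '' Z) ≤ aloc k (co (rst f P)) := by
  intro g hg
  rw [mem_aloc, ← aeval_rename_rst]
  exact mem_aloc.mp (h ((mem_vanIdeal_image f Z g).mp hg))

end

section
variable {k : Type} [Field k] {α : Type} {S : Set (α → k)}
  {𝓕 : (β : Type) → Set (Set (Pt k α β))}

/-- The closure of the projection of a special subset is special. -/
theorem exists_proj (hF : Family S 𝓕) {β β' : Type} [Fintype β] [Fintype β'] (f : β → β')
    (hf : Function.Injective f) (T' : Set (Pt k α β')) (hT' : T' ∈ 𝓕 β') :
    ∃ T ∈ 𝓕 β, vanIdeal T = vanIdeal (rst f '' T') := by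
  refine inj_induction (C := fun β _ f => ∃ T ∈ 𝓕 β, vanIdeal T = vanIdeal (rst f '' T'))
    ?_ ?_ β f hf
  · intro β _ f hf
    obtain ⟨g, hg1, hg2⟩ := Function.bijective_iff_has_inverse.mp hf
    refine ⟨pull g T', hF.pull β' β g hg2.injective T' hT', ?_⟩
    congr 1
    ext p
    constructor
    · intro hp
      refine ⟨rst g p, hp, ?_⟩
      rw [rst_rst]
      refine Prod.ext rfl (funext fun b => ?_)
      exact congrArg p.2 (hg1 b)
    · rintro ⟨q, hq, rfl⟩
      rw [mem_pull, rst_rst]
      have h1 : rst (f ∘ g) q = q := by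
        refine Prod.ext rfl (funext fun b => ?_)
        exact congrArg q.2 (hg2 b)
      rw [h1]
      exact hq
  · rintro β _ f j hf hj hinj ⟨T₁, hT₁, hT₁e⟩
    obtain ⟨T₂, hT₂, hT₂e, -⟩ := hF.fib β T₁ hT₁
    refine ⟨T₂, hT₂, hT₂e.trans ?_⟩
    change vanIdeal (rst some '' T₁) = _
    rw [vanIdeal_image_congr some hT₁e, Set.image_image]
    rfl

variable [IsAlgClosed k]

theorem least_rst {β β' : Type} [Fintype β] [Fintype β'] (hF : Family S 𝓕) (f : β → β')
    (hf : Function.Injective f) {L : Type} [Field L] [Algebra k L] (P : Pt L α β')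
    (T' : Set (Pt k α β')) (T : Set (Pt k α β)) (hT' : Least 𝓕 T' P) (hT : Least 𝓕 T (rst f P)) :
    vanIdeal T = vanIdeal (rst f '' T') := by
  obtain ⟨T'', hT'', he⟩ := exists_proj hF f hf T' hT'.1
  have h1 : T ⊆ T'' := hT.2.2 T'' hT'' (by rw [he]; exact vanIdeal_image_le f hT'.2.1)
  have h2 : T' ⊆ pull f T := hT'.2.2 _ (hF.pull β β' f hf T hT.1)
    ((pull_le_iff f hf T P).mpr hT.2.1)
  apply le_antisymm
  · apply vanIdeal_anti
    rintro _ ⟨p, hp, rfl⟩
    exact h2 hp
  · rw [← he]
    exact vanIdeal_anti h1

/-- A bijection of the coordinates. -/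
theorem least_pull_bij {β β' : Type} [Fintype β] [Fintype β'] (hF : Family S 𝓕) (f : β → β')
    (hf : Function.Bijective f) {L : Type} [Field L] [Algebra k L] (P : Pt L α β')
    (T : Set (Pt k α β)) (hT : Least 𝓕 T (rst f P)) : Least 𝓕 (pull f T) P := by
  obtain ⟨g, hg1, hg2⟩ := Function.bijective_iff_has_inverse.mp hf
  refine ⟨hF.pull β β' f hf.1 T hT.1, (pull_le_iff f hf.1 T P).mpr hT.2.1, fun T' hT' hT'P => ?_⟩
  have h1 : T ⊆ pull g T' := by
    apply hT.2.2 _ (hF.pull β' β g hg2.injective T' hT')
    change vanIdeal (pull g T') ≤ _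
    rw [pull_le_iff g hg2.injective, rst_rst]
    have h2 : rst (f ∘ g) P = P := by
      refine Prod.ext rfl (funext fun b => ?_)
      exact congrArg P.2 (hg2 b)
    rw [h2]
    exact hT'P
  intro p hp
  have h3 : rst g (rst f p) ∈ T' := h1 hp
  rw [rst_rst] at h3
  have h2 : rst (f ∘ g) p = p := by
    refine Prod.ext rfl (funext fun b => ?_)
    exact congrArg p.2 (hg2 b)
  rw [h2] at h3
  exact h3

/-- The rank is invariant under bijections of the coordinates. -/
theorem rho_rst_bij [Fintype α] {β β' : Type} [Fintype β] [Fintype β'] (hF : Family S 𝓕)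
    (f : β → β') (hf : Function.Bijective f) {L : Type} [Field L] [Algebra k L] (P : Pt L α β') :
    rho 𝓕 (rst f P) = rho 𝓕 P := by
  by_cases h : ∃ T, Least 𝓕 T (rst f P)
  · obtain ⟨T, hT⟩ := h
    rw [rho_eq hT, rho_eq (least_pull_bij hF f hf P T hT)]
    have h1 := dm_pull f hf.1 T (hF.irr β T hT.1)
    have h2 := Fintype.card_of_bijective hf
    omega
  · have h' : ¬ ∃ T, Least 𝓕 T P := by
      rintro ⟨T, hT⟩
      obtain ⟨g, hg1, hg2⟩ := Function.bijective_iff_has_inverse.mp hf
      have h2 : rst g (rst f P) = P := by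
        rw [rst_rst]
        refine Prod.ext rfl (funext fun b => ?_)
        exact congrArg P.2 (hg2 b)
      have h3 : Function.Bijective g :=
        Function.bijective_iff_has_inverse.mpr ⟨f, hg2, hg1⟩
      exact h ⟨_, least_pull_bij hF g h3 (rst f P) T (by rw [h2]; exact hT)⟩
    rw [rho, rho, dif_neg h, dif_neg h']

end

end Pool.Agent.Lib.MP_a325a5_ag.GM
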