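import Pool.Agent.Lib.MP_a325a5_ag.GM.FinAlg
import Pool.Agent.Lib.MP_a325a5_ag.GM.LeastG
import Pool.Agent.Lib.MP_a325a5_ag.GM.Pull
import Pool.Agent.Lib.MP_a325a5_ag.GM.RankA
import Pool.Agent.Lib.MP_a325a5_ag.UM.TDloc
import Pool.Agent.Lib.MP_a325a5_ag.UM.LocSet

/-! The rank of a point with one more torus coordinate: (R1), (R2). -/

set_option autoImplicit false

namespace Pool.Agent.Lib.MP_a325a5_ag.GM

open MvPolynomial UM

/-! ### Algebraic elements -/

private theorem ra2_of_zpow {R L : Type} [CommRing R] [IsDomain R] [Field L] [Algebra R L]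
    {x : L} {n : ℤ} (hn : n ≠ 0) (h : IsAlgebraic R (x ^ n)) : IsAlgebraic R x := by
  rcases Int.natAbs_eq n with e | e
  · rw [e, zpow_natCast] at h
    exact h.of_pow (Int.natAbs_pos.mpr hn)
  · rw [e, zpow_neg, zpow_natCast, IsAlgebraic.inv_iff] at h
    exact h.of_pow (Int.natAbs_pos.mpr hn)

private theorem ra2_zpow {R L : Type} [CommRing R] [IsDomain R] [Field L] [Algebra R L]
    {x : L} (h : IsAlgebraic R x) (n : ℤ) : IsAlgebraic R (x ^ n) := by
  rcases Int.natAbs_eq n with e | e
  · rw [e, zpow_natCast]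
    exact h.pow _
  · rw [e, zpow_neg, zpow_natCast, IsAlgebraic.inv_iff]
    exact h.pow _

private theorem ra2_key {R L : Type} [CommRing R] [IsDomain R] [Field L] [Algebra R L]
    {β : Type} [Fintype β] (x : Lˣ) (z : β → Lˣ) {n : ℤ} (hn : n ≠ 0) (a : β → ℤ)
    (hz : ∀ i, IsAlgebraic R (z i : L))
    (h : IsAlgebraic R ((x ^ n * ∏ i, z i ^ a i : Lˣ) : L)) : IsAlgebraic R (x : L) := by
  have h1 : IsAlgebraic R ((∏ i, z i ^ a i : Lˣ) : L) := by
    rw [Units.coe_prod]
    refine Finset.prod_induction _ (fun y => IsAlgebraic R y) (fun _ _ => IsAlgebraic.mul)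
      isAlgebraic_one (fun i _ => ?_)
    rw [Units.val_zpow_eq_zpow_val]
    exact ra2_zpow (hz i) _
  have h2 := h.mul h1.inv
  have h3 : ((x ^ n * ∏ i, z i ^ a i : Lˣ) : L) * ((∏ i, z i ^ a i : Lˣ) : L)⁻¹ =
      (x : L) ^ n := by
    rw [Units.val_mul, mul_assoc, mul_inv_cancel₀ (Units.ne_zero _), mul_one,
      Units.val_zpow_eq_zpow_val]
  rw [h3] at h2
  exact ra2_of_zpow hn h2

private theorem ra2_mem {k L : Type} [Field k] [Field L] [Algebra k L] {s : Set L} {y : L}
    (h : y ∈ s) : IsAlgebraic (Algebra.adjoin k s) y :=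
  isAlgebraic_algebraMap (⟨y, Algebra.subset_adjoin h⟩ : Algebra.adjoin k s)

/-- The other torus coordinates and the affine ones determine the last one up to finitely many
values. -/
private theorem ra2_last {k L : Type} [Field k] [Field L] [Algebra k L] {α β : Type}
    [Fintype β] (Q : Pt L α (Option β)) {n : ℤ} (hn : n ≠ 0) (a : β → ℤ)
    (h : IsAlgebraic (Algebra.adjoin k (Set.range Q.1))
      ((Q.2 none ^ n * ∏ i, Q.2 (some i) ^ a i : Lˣ) : L)) :
    IsAlgebraic (Algebra.adjoin k (Set.range (co (rst some Q)))) (Q.2 none : L) := by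
  refine ra2_key (Q.2 none) (fun i => Q.2 (some i)) hn a (fun i => ?_) ?_
  · exact ra2_mem ⟨Sum.inr i, rfl⟩
  · refine h.tower_top_of_subalgebra_le (Algebra.adjoin_mono ?_)
    rintro _ ⟨i, rfl⟩
    exact ⟨Sum.inl i, rfl⟩

private theorem ra2_exists_transc (k L : Type) [Field k] [Field L] [Algebra k L] :
    ∃ (M : Type) (_ : Field M) (_ : Algebra k M) (_ : Algebra L M) (_ : IsScalarTower k L M)
      (t : Mˣ), Transcendental L (t : M) := by
  refine ⟨FractionRing (Polynomial L), inferInstance, inferInstance, inferInstance,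
    inferInstance, Units.mk0 (algebraMap (Polynomial L) _ Polynomial.X) ?_, ?_⟩
  · rw [Ne, map_eq_zero_iff _ (IsFractionRing.injective (Polynomial L)
      (FractionRing (Polynomial L)))]
    exact Polynomial.X_ne_zero
  · rw [Units.val_mk0, transcendental_algebraMap_iff (IsFractionRing.injective (Polynomial L)
      (FractionRing (Polynomial L)))]
    exact Polynomial.transcendental_X L

private theorem ra2_aloc {k L M : Type} [Field k] [Field L] [Algebra k L] [Field M]
    [Algebra k M] [Algebra L M] [IsScalarTower k L M] {α β : Type} (P : Pt L α β) :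
    aloc k (co (cstP L M P)) = aloc k (co P) := by
  ext f
  have h : aeval (fun i => algebraMap L M (co P i)) f = algebraMap L M (aeval (co P) f) :=
    aeval_algebraMap_apply M (co P) f
  rw [mem_aloc, mem_aloc, co_cstP, h, map_eq_zero_iff _ (algebraMap L M).injective]

/-- A transcendental coordinate is not dependent. -/
private theorem ra2_absurd {k L M : Type} [Field k] [Field L] [Algebra k L] [Field M]
    [Algebra k M] [Algebra L M] [IsScalarTower k L M] {α β : Type} [Fintype β] (P : Pt L α β)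
    (t : Mˣ) (ht : Transcendental L (t : M)) {n : ℤ} (hn : n ≠ 0) (a : β → ℤ)
    (h : IsAlgebraic (Algebra.adjoin k (Set.range (ext (cstP L M P) t).1))
      (((ext (cstP L M P) t).2 none ^ n * ∏ i, (ext (cstP L M P) t).2 (some i) ^ a i : Mˣ) :
        M)) : False := by
  have h1 := ra2_last (ext (cstP L M P) t) hn a h
  rw [rst_some_ext, ext_none] at h1
  apply ht
  have hle : Algebra.adjoin k (Set.range (co (cstP L M P))) ≤
      (IsScalarTower.toAlgHom k L M).range := by
    rw [Algebra.adjoin_le_iff]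
    rintro _ ⟨i, rfl⟩
    rw [co_cstP]
    exact ⟨co P i, rfl⟩
  have h2 := h1.tower_top_of_subalgebra_le hle
  exact h2.of_ringHom_of_comp_eq (IsScalarTower.toAlgHom k L M).rangeRestrict (RingHom.id M)
    (IsScalarTower.toAlgHom k L M).rangeRestrict_surjective Function.injective_id rfl

/-- The ideal of the restriction of a generic point. -/
private theorem ra2_rst {k : Type} [Field k] {α β β' : Type} (f : β → β')
    (T : Set (Pt k α β')) {L : Type} [Field L] [Algebra k L] (Q : Pt L α β')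
    (hQ : aloc k (co Q) = vanIdeal T) : aloc k (co (rst f Q)) = vanIdeal (rst f '' T) := by
  have key : ∀ (M : Type) [Field M] [Algebra k M] (R : Pt M α β') (g : MvPolynomial (α ⊕ β) k),
      aeval (co R) (rename (Sum.map id f) g) = aeval (co (rst f R)) g := by
    intro M _ _ R g
    rw [aeval_rename]
    congr 2
    funext i
    rcases i with i | i
    · rfl
    · rfl
  ext g
  rw [mem_aloc, ← key, ← mem_aloc, hQ, mem_vanIdeal, mem_vanIdeal]
  constructor
  · rintro h _ ⟨z, hz, rfl⟩
    have h1 := h z hz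
    rw [← coe_aeval_eq_eval, RingHom.coe_coe, key] at h1
    rw [← coe_aeval_eq_eval, RingHom.coe_coe]
    exact h1
  · intro h z hz
    have h1 := h _ ⟨z, hz, rfl⟩
    rw [← coe_aeval_eq_eval, RingHom.coe_coe] at h1
    rw [← coe_aeval_eq_eval, RingHom.coe_coe, key]
    exact h1

variable {k : Type} [Field k] [IsAlgClosed k] [CharZero k] {α β : Type} [Fintype α] [Fintype β]
  {S : Set (α → k)} {𝓕 : (β : Type) → Set (Set (Pt k α β))}

/-- (R1) -/
theorem rank_ext (hF : Family S 𝓕) {L : Type} [Field L] [Algebra k L] (P : Pt L α β)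
    (hP : avan S ≤ aloc k P.1) (x : Lˣ) :
    (rho 𝓕 (ext P x) = rho 𝓕 P + 1 ∧ ∀ T, Least 𝓕 T P → Least 𝓕 (pull some T) (ext P x)) ∨
    (rho 𝓕 (ext P x) = rho 𝓕 P ∧ ∃ (n : ℤ) (a : β → ℤ), n ≠ 0 ∧ ∀ T, Least 𝓕 T (ext P x) →
      ∀ (L' : Type) [Field L'] [Algebra k L'] (Q : Pt L' α (Option β)),
        vanIdeal T ≤ aloc k (co Q) → IsAlgebraic (Algebra.adjoin k (Set.range Q.1))
          ((Q.2 none ^ n * ∏ i, Q.2 (some i) ^ a i : L'ˣ) : L')) := by
  obtain ⟨T, hT⟩ := exists_least hF P hP
  obtain ⟨T', hT'⟩ := exists_least hF (ext P x) hP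
  have hv : vanIdeal T = vanIdeal (rst some '' T') :=
    least_rst hF some (Option.some_injective β) (ext P x) T' T hT' hT
  obtain ⟨T₁, hT₁, hv₁, h⟩ := hF.fib β T' hT'.1
  have hTT : T₁ = T := IrrClosed.ext (hF.irr β T₁ hT₁) (hF.irr β T hT.1) (hv₁.trans hv.symm)
  subst hTT
  rcases h with h | ⟨n, a, hn, hfin⟩
  · left
    have hdm := dm_pull some (Option.some_injective β) T₁ (hF.irr β T₁ hT₁)
    rw [Fintype.card_option] at hdm
    have hT'eq : T' = pull some T₁ := h
    refine ⟨?_, ?_⟩
    · rw [rho_eq hT', rho_eq hT, hT'eq]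
      omega
    · intro T₂ hT₂
      rw [hT₂.unique hT, ← hT'eq]
      exact hT'
  · right
    have halg : ∀ T₂, Least 𝓕 T₂ (ext P x) → ∀ (L' : Type) [Field L'] [Algebra k L']
        (Q : Pt L' α (Option β)), vanIdeal T₂ ≤ aloc k (co Q) →
          IsAlgebraic (Algebra.adjoin k (Set.range Q.1))
            ((Q.2 none ^ n * ∏ i, Q.2 (some i) ^ a i : L'ˣ) : L') := by
      intro T₂ hT₂ L' _ _ Q hQ
      rw [hT₂.unique hT'] at hQ
      have h1 := alg_of_finite T' (hF.irr _ T' hT'.1) (fun o : Option β => o.elim n a) (by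
        intro s
        have h2 := hfin s
        simpa only [Fintype.prod_option, Option.elim_none, Option.elim_some] using h2) Q hQ
      simpa only [Fintype.prod_option, Option.elim_none, Option.elim_some] using h1
    refine ⟨?_, n, a, hn, halg⟩
    obtain ⟨M, iM, iA, Q, hQ⟩ := exists_generic T' (hF.irr _ T' hT'.1)
    have hQ1 : aloc k (co (rst some Q)) = vanIdeal T₁ := by
      rw [ra2_rst some T' Q hQ, ← hv]
    rw [rho_eq hT', rho_eq hT, dm_eq T' Q hQ, dm_eq T₁ (rst some Q) hQ1]
    apply le_antisymm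
    · refine atd_le_of_algebraic _ _ fun i => ?_
      rcases i with i | (_ | i)
      · exact ra2_mem ⟨Sum.inl i, rfl⟩
      · exact ra2_last Q hn a (halg T' hT' M Q hQ.ge)
      · exact ra2_mem ⟨Sum.inr i, rfl⟩
    · refine atd_le_of_algebraic _ _ fun i => ?_
      rcases i with i | i
      · exact ra2_mem ⟨Sum.inl i, rfl⟩
      · exact ra2_mem ⟨Sum.inr (some i), rfl⟩

/-- (R2) Dependence persists under specialisation. -/
theorem rank_persist (hF : Family S 𝓕) {L L' : Type} [Field L] [Algebra k L] [Field L']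
    [Algebra k L'] (P : Pt L α β) (x : Lˣ) (Q : Pt L' α β) (y : L'ˣ)
    (hP : avan S ≤ aloc k P.1) (h : aloc k (co (ext P x)) ≤ aloc k (co (ext Q y)))
    (hr : rho 𝓕 (ext P x) = rho 𝓕 P) : rho 𝓕 (ext Q y) = rho 𝓕 Q := by
  have hQ : avan S ≤ aloc k Q.1 := hP.trans (aloc_fst_le (ext Q y) (ext P x) h)
  rcases rank_ext hF Q hQ y with ⟨-, h1⟩ | ⟨h1, -⟩
  · exfalso
    rcases rank_ext hF P hP x with ⟨h2, -⟩ | ⟨-, n, a, hn, h2⟩
    · omega
    · obtain ⟨T, hT⟩ := exists_least hF Q hQ
      obtain ⟨T', hT'⟩ := exists_least hF (ext P x) hP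
      have h3 := h1 T hT
      have h4 : pull some T ⊆ T' := h3.subset hT' h
      obtain ⟨M, iM, iA, iB, iC, t, ht⟩ := ra2_exists_transc k L'
      have h5 : vanIdeal (pull some T) ≤ aloc k (co (ext (cstP L' M Q) t)) := by
        rw [pull_le_iff some (Option.some_injective β), rst_some_ext, ra2_aloc]
        exact hT.2.1
      exact ra2_absurd Q t ht hn a (h2 T' hT' M (ext (cstP L' M Q) t)
        ((vanIdeal_anti h4).trans h5))
  · exact h1

/-- Dependence on fewer coordinates implies dependence on more coordinates. -/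
theorem rank_dep_mono (hF : Family S 𝓕) {β' : Type} [Fintype β'] (f : β → β')
    (hf : Function.Injective f) {L : Type} [Field L] [Algebra k L] (P : Pt L α β')
    (hP : avan S ≤ aloc k P.1) (x : Lˣ) (hr : rho 𝓕 (ext (rst f P) x) = rho 𝓕 (rst f P)) :
    rho 𝓕 (ext P x) = rho 𝓕 P := by
  rcases rank_ext hF P hP x with ⟨-, h1⟩ | ⟨h1, -⟩
  · exfalso
    rcases rank_ext hF (rst f P) hP x with ⟨h2, -⟩ | ⟨-, n, a, hn, h2⟩
    · omega
    · obtain ⟨T, hT⟩ := exists_least hF P hP
      obtain ⟨T₁, hT₁⟩ := exists_least hF (ext (rst f P) x) hP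
      have h3 := h1 T hT
      have hg : Function.Injective (Option.map f) := Option.map_injective hf
      have hrst : ∀ (M : Type) [Field M] (R : Pt M α β') (y : Mˣ),
          rst (Option.map f) (ext R y) = ext (rst f R) y := by
        intro M _ R y
        refine Prod.ext rfl (funext fun o => ?_)
        rcases o with _ | o
        · rfl
        · rfl
      have h4 : pull (Option.map f) T₁ ∈ 𝓕 (Option β') :=
        hF.pull (Option β) (Option β') (Option.map f) hg T₁ hT₁.1
      have h5 : vanIdeal (pull (Option.map f) T₁) ≤ aloc k (co (ext P x)) := by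
        rw [pull_le_iff _ hg, hrst]
        exact hT₁.2.1
      have h6 : pull some T ⊆ pull (Option.map f) T₁ := h3.2.2 _ h4 h5
      obtain ⟨M, iM, iA, iB, iC, t, ht⟩ := ra2_exists_transc k L
      have h7 : vanIdeal (pull some T) ≤ aloc k (co (ext (cstP L M P) t)) := by
        rw [pull_le_iff some (Option.some_injective β'), rst_some_ext, ra2_aloc]
        exact hT.2.1
      have h8 := (vanIdeal_anti h6).trans h7
      rw [pull_le_iff _ hg, hrst] at h8
      exact ra2_absurd (rst f P) t ht hn a (h2 T₁ hT₁ M (ext (cstP L M (rst f P)) t) h8)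
  · exact h1

/-- A dependent coordinate is algebraic over the others. -/
theorem rank_dep_alg (hF : Family S 𝓕) {L : Type} [Field L] [Algebra k L] (P : Pt L α β)
    (hP : avan S ≤ aloc k P.1) (x : Lˣ) (hr : rho 𝓕 (ext P x) = rho 𝓕 P) :
    IsAlgebraic (Algebra.adjoin k (Set.range (co P))) (x : L) := by
  rcases rank_ext hF P hP x with ⟨h1, -⟩ | ⟨-, n, a, hn, h2⟩
  · omega
  · obtain ⟨T', hT'⟩ := exists_least hF (ext P x) hP
    exact ra2_last (ext P x) hn a (h2 T' hT' L (ext P x) hT'.2.1)

end Pool.Agent.Lib.MP_a325a5_ag.GM
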