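import Pool.Agent.Lib.MP_a325a5_ag.GM.RankA2

/-! The rank of a point and of its projections: adding coordinates does not lower the rank and
raises it by at most the number of new coordinates; the relative rank does not grow under
specialisation. -/

set_option autoImplicit false

namespace Pool.Agent.Lib.MP_a325a5_ag.GM

open MvPolynomial UM

section
variable {k : Type} [Field k] [IsAlgClosed k] [CharZero k] {α β β' : Type} [Fintype α]
  [Fintype β] [Fintype β'] {S : Set (α → k)} {𝓕 : (β : Type) → Set (Set (Pt k α β))}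

theorem rank_le_add (hF : Family S 𝓕) (f : β → β') (hf : Function.Injective f) {L : Type}
    [Field L] [Algebra k L] (P : Pt L α β') (hP : avan S ≤ aloc k P.1) :
    rho 𝓕 (rst f P) ≤ rho 𝓕 P ∧
      rho 𝓕 P + Fintype.card β ≤ rho 𝓕 (rst f P) + Fintype.card β' := by
  obtain ⟨T', hT'⟩ := exists_least hF P hP
  obtain ⟨T, hT⟩ := exists_least hF (rst f P) hP
  have hvan := least_rst hF f hf P T' T hT' hT
  have hiT := hF.irr β T hT.1
  have hiT' := hF.irr β' T' hT'.1
  rw [rho_eq hT, rho_eq hT']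
  constructor
  · obtain ⟨L₁, _, _, γ, hγ⟩ := exists_generic T' hiT'
    have h1 : aloc k (co (rst f γ)) = vanIdeal T := by
      rw [hvan]
      ext g
      rw [mem_vanIdeal_image, ← hγ, mem_aloc, mem_aloc, aeval_rename_rst]
    rw [dm_eq T (rst f γ) h1, dm_eq T' γ hγ]
    apply atd_le_of_algebraic
    intro i
    refine isAlgebraic_algebraMap (⟨_, Algebra.subset_adjoin ?_⟩ : Algebra.adjoin k _)
    rcases i with i | b
    · exact ⟨Sum.inl i, rfl⟩
    · exact ⟨Sum.inr (f b), rfl⟩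
  · have h1 : T' ⊆ pull f T := by
      apply hT'.2.2 _ (hF.pull β β' f hf T hT.1)
      exact (pull_le_iff f hf T P).mpr hT.2.1
    have h2 := (dm_mono hiT' (hF.irr β' (pull f T) (hF.pull β β' f hf T hT.1)) h1).1
    have h3 := dm_pull f hf T hiT
    omega

/-- (R3) -/
theorem rank_sub (hF : Family S 𝓕) (f : β → β') (hf : Function.Injective f) {L L' : Type}
    [Field L] [Algebra k L] [Field L'] [Algebra k L'] (P : Pt L α β') (Q : Pt L' α β')
    (hP : avan S ≤ aloc k P.1) (h : aloc k (co P) ≤ aloc k (co Q)) :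
    rho 𝓕 Q + rho 𝓕 (rst f P) ≤ rho 𝓕 P + rho 𝓕 (rst f Q) := by
  refine inj_induction (C := fun β _ f => rho 𝓕 Q + rho 𝓕 (rst f P) ≤
    rho 𝓕 P + rho 𝓕 (rst f Q)) ?_ ?_ β f hf
  · intro β _ f hf
    rw [rho_rst_bij hF f hf P, rho_rst_bij hF f hf Q, add_comm]
  · intro β _ f j _ _ _ hC
    rw [rst_elim, rst_elim] at hC
    have hQ : avan S ≤ aloc k Q.1 := hP.trans (aloc_fst_le Q P h)
    have hsp : aloc k (co (ext (rst f P) (P.2 j))) ≤ aloc k (co (ext (rst f Q) (Q.2 j))) := by
      rw [← rst_elim, ← rst_elim]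
      exact aloc_rst_le _ Q P h
    have key : rho 𝓕 (ext (rst f Q) (Q.2 j)) + rho 𝓕 (rst f P) ≤
        rho 𝓕 (ext (rst f P) (P.2 j)) + rho 𝓕 (rst f Q) := by
      rcases rank_ext hF (rst f P) hP (P.2 j) with ⟨h1, -⟩ | ⟨h1, -⟩
      · rcases rank_ext hF (rst f Q) hQ (Q.2 j) with ⟨h2, -⟩ | ⟨h2, -⟩ <;> omega
      · have h2 := rank_persist hF (rst f P) (P.2 j) (rst f Q) (Q.2 j) hP hsp h1
        omega
    omega

end

end Pool.Agent.Lib.MP_a325a5_ag.GM
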