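import Pool.Agent.Lib.MP_a325a5_ag.GM.RankA2
import Pool.Agent.Lib.MP_a325a5_ag.UL.HullEq

/-! Dependent coordinates do not change the rank; monomials are dependent. -/

set_option autoImplicit false

namespace Pool.Agent.Lib.MP_a325a5_ag.GM

open MvPolynomial UM

section
variable {k : Type} [Field k] [IsAlgClosed k] [CharZero k] {α β β' : Type} [Fintype α]
  [Fintype β] [Fintype β'] {S : Set (α → k)} {𝓕 : (β : Type) → Set (Set (Pt k α β))}

/-- If every coordinate is dependent on the ones in the image of `f`, the rank is the same. -/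
theorem rank_dep_all (hF : Family S 𝓕) (f : β → β') (hf : Function.Injective f) {L : Type}
    [Field L] [Algebra k L] (P : Pt L α β') (hP : avan S ≤ aloc k P.1)
    (h : ∀ j, rho 𝓕 (ext (rst f P) (P.2 j)) = rho 𝓕 (rst f P)) : rho 𝓕 P = rho 𝓕 (rst f P) := by
  refine inj_induction (C := fun β _ f => (∀ j, rho 𝓕 (ext (rst f P) (P.2 j)) =
    rho 𝓕 (rst f P)) → rho 𝓕 P = rho 𝓕 (rst f P)) ?_ ?_ β f hf h
  · intro β _ f hf _
    exact (rho_rst_bij hF f hf P).symm
  · intro β _ f j _ _ _ hC hd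
    rw [rst_elim, hd j] at hC
    apply hC
    intro i
    have h1 := rank_dep_mono hF (some : β → Option β) (Option.some_injective β)
      (ext (rst f P) (P.2 j)) hP (P.2 i) (hd i)
    rw [h1]
    exact hd j

/-- A monomial is dependent. -/
private theorem rankB2_mono (hF : Family S 𝓕) {L : Type} [Field L] [Algebra k L] (R : Pt L α β)
    (hR : avan S ≤ aloc k R.1) (x : Lˣ) (N : ℕ) (hN : 0 < N) (a : β → ℤ) (ζ : Lˣ)
    (hζ : IsOfFinOrder ζ) (hx : x ^ N = ζ * ∏ i, R.2 i ^ a i) :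
    rho 𝓕 (ext R x) = rho 𝓕 R := by
  classical
  rcases rank_ext hF R hR x with ⟨-, h1⟩ | ⟨h1, -⟩
  swap
  · exact h1
  exfalso
  obtain ⟨T, hT⟩ := exists_least hF R hR
  have hl := h1 T hT
  obtain ⟨ζ', hζ', hζ'e⟩ := UL.exists_cst_of_isOfFinOrder (K := k) ζ hζ
  obtain ⟨Z, hZ, hZe⟩ := UL.exists_irrClosed (K := k) (ext R x).2
  -- the torsion coset of the torus part
  have hC := UL.isSpecial_hull Z hZ
  have hmem := UL.mem_hull_iff Z hZ (ext R x).2 hZe.symm
  have hspec := hF.coset (Option β) _ hC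
  -- the point is in `S × C`
  have hin : vanIdeal {p : Pt k α (Option β) | p.1 ∈ S ∧ p.2 ∈ UL.hull Z} ≤
      aloc k (co (ext R x)) := by
    obtain ⟨W, hW, hWe⟩ := exists_irrClosed (K := k) (ext R x)
    rw [← hWe]
    apply vanIdeal_anti
    intro w hw
    have h2 : aloc k (co (ext R x)) ≤ aloc k (co w) := by
      rw [← hWe]
      exact (mem_iff_le_aloc hW w).mp hw
    refine ⟨?_, ?_⟩
    · have h3 : aloc k (ext R x).1 ≤ aloc k w.1 := aloc_fst_le w (ext R x) h2
      have hirr : AIrr S := ((base_family hF).irr S (base_family hF).top)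
      exact (amem_iff_le_aloc hirr w.1).mpr (hR.trans h3)
    · have h3 : UL.locus k (ext R x).2 ≤ UL.locus k w.2 := locus_snd_le w (ext R x) h2
      apply UL.subset_hull Z
      rw [UL.mem_iff_le_locus hZ, hZe]
      exact h3
  have hsub := hl.2.2 _ hspec hin
  obtain ⟨t, ht⟩ := (hF.irr β T hT.1).nonempty
  -- the relation
  have hrel : ∀ y : kˣ, y ^ N = ζ' * ∏ i, t.2 i ^ a i := by
    intro y
    have h2 : ext t y ∈ pull some T := ht
    have h3 := (hmem (ext t y).2).mp (hsub h2).2 (fun o => o.elim (N : ℤ) (fun i => -a i)) ζ' hζ'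
      (by
        rw [Fintype.prod_option, hζ'e]
        change x ^ (N : ℤ) * ∏ i, R.2 i ^ (-a i) = ζ
        rw [zpow_natCast, hx, mul_assoc, ← Finset.prod_mul_distrib]
        simp)
    rw [Fintype.prod_option] at h3
    have h4 : y ^ (N : ℤ) * ∏ i, t.2 i ^ (-a i) = ζ' := h3
    rw [zpow_natCast] at h4
    rw [← h4, mul_assoc, ← Finset.prod_mul_distrib]
    simp
  have hinf : Infinite k := IsAlgClosed.instInfinite
  obtain ⟨c, hc⟩ := Infinite.exists_notMem_finset
    (insert (0 : k) (Polynomial.nthRoots N (1 : k)).toFinset)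
  rw [Finset.mem_insert, not_or, Multiset.mem_toFinset, Polynomial.mem_nthRoots hN] at hc
  have h5 := (hrel (Units.mk0 c hc.1)).trans (hrel 1).symm
  rw [one_pow] at h5
  exact hc.2 (congrArg Units.val h5)

/-- (R4) Monomials are dependent. -/
theorem rank_monomial (hF : Family S 𝓕) (f : β → β') (hf : Function.Injective f) {L : Type}
    [Field L] [Algebra k L] (P : Pt L α β') (hP : avan S ≤ aloc k P.1)
    (h : ∀ j, ∃ (N : ℕ) (a : β → ℤ) (ζ : Lˣ), 0 < N ∧ IsOfFinOrder ζ ∧
      P.2 j ^ N = ζ * ∏ i, P.2 (f i) ^ a i) : rho 𝓕 P = rho 𝓕 (rst f P) := by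
  apply rank_dep_all hF f hf P hP
  intro j
  obtain ⟨N, a, ζ, hN, hζ, hx⟩ := h j
  exact rankB2_mono hF (rst f P) hP (P.2 j) N hN a ζ hζ hx

end

end Pool.Agent.Lib.MP_a325a5_ag.GM
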