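import Pool.Agent.Lib.MP_a325a5_ag.GM.RankB1
import Pool.Agent.Lib.MP_a325a5_ag.GM.RankB2
import Pool.Agent.Lib.MP_a325a5_ag.UL.MRb

/-! (R6): the rank is at most the rank of the affine point plus the multiplicative rank. -/

set_option autoImplicit false

namespace Pool.Agent.Lib.MP_a325a5_ag.GM

open MvPolynomial UM
open UL (mr)

/-- (R6) -/
theorem rank_le_mr {k : Type} [Field k] [IsAlgClosed k] [CharZero k] {α β : Type} [Fintype α]
    [Fintype β] {S : Set (α → k)} {𝓕 : (β : Type) → Set (Set (Pt k α β))} (hF : Family S 𝓕)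
    {L : Type} [Field L] [Algebra k L] (P : Pt L α β) (hP : avan S ≤ aloc k P.1) :
    rho 𝓕 P ≤ rho 𝓕 (aff P.1) + mr P.2 := by
  classical
  obtain ⟨I, hI, -, hI3⟩ := UL.mr_spec P.2
  have h1 : rho 𝓕 P = rho 𝓕 (rst (Subtype.val : I → β) P) := by
    refine rank_monomial hF _ Subtype.val_injective P hP fun j => ?_
    obtain ⟨N, a, hN, ha, hj⟩ := hI3 j
    refine ⟨N, fun i => a i, 1, hN, IsOfFinOrder.one, ?_⟩
    rw [hj, one_mul]
    have h2 : ∏ i : I, P.2 (i : β) ^ a (i : β) = ∏ i ∈ I, P.2 i ^ a i :=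
      Finset.prod_coe_sort I fun i => P.2 i ^ a i
    rw [h2]
    refine (Finset.prod_subset (Finset.subset_univ I) fun i _ hi => ?_).symm
    rw [ha i hi, zpow_zero]
  have h3 := (rank_le_add hF (fun e : Empty => (e.elim : I)) (fun e => e.elim)
    (rst (Subtype.val : I → β) P) hP).2
  have h4 : rst (fun e : Empty => (e.elim : I)) (rst (Subtype.val : I → β) P) = aff P.1 :=
    Prod.ext rfl (funext fun e => e.elim)
  rw [h4, Fintype.card_coe, hI] at h3
  rw [h1]
  have h5 : Fintype.card Empty = 0 := rfl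
  omega

end Pool.Agent.Lib.MP_a325a5_ag.GM
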