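import Pool.Agent.Lib.MP_a325a5_ag.GM.LeastG
import Pool.Agent.Lib.MP_a325a5_ag.GM.Pull
import Pool.Agent.Lib.MP_a325a5_ag.GM.RankA2
import Pool.Agent.Lib.MP_a325a5_ag.GM.RankB1
import Pool.Agent.Lib.MP_a325a5_ag.GM.RankB4
import Pool.Agent.Lib.MP_a325a5_ag.UM.LocSet
import Pool.Agent.Lib.MP_a325a5_ag.UL.Main

/-! (R7): if `T × C` is contained in the smallest special subset containing `P = (s, z)`, `T` the
smallest special subset of `S` containing `s`, then the rank of `P` is `dim T + mr z`.

Proof.  `≤` is (R6).  Let `I` be a maximal set of coordinates with `rho (s, z_I) = dim T + card I`.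
For `j` outside `I` the coordinate `z_j` is dependent on `(s, z_I)`: at all points of the smallest
special subset `U_j` of `(s, z_I, z_j)` some monomial `χ = z_j ^ n z_I ^ a` is algebraic over the
affine coordinates.  Let `Q` be a generic point of `U_j`; its affine part is generic in `T`, and
`p(χ) = 0` for a polynomial `p` over `k[T]` of minimal degree.  As `T × {z₀} ⊆ U_j` for a torsion
point `z₀`, `p(ζ₀) = 0`, `ζ₀ = χ(z₀)`, so `p` is divisible by `Y - ζ₀` and `χ = ζ₀` on `U_j`.  So `z_j`
is multiplicatively dependent on `z_I`, and `mr z ≤ card I`. -/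

set_option autoImplicit false

namespace Pool.Agent.Lib.MP_a325a5_ag.GM

open MvPolynomial UM
open UL (mr td locus cst rcst rvar RatFun Sys genConfig)

/-- a special subset of the torus contains a torsion point -/
private theorem RankC1_torsion {k : Type} [Field k] [IsAlgClosed k] [CharZero k] {β : Type}
    [Fintype β] (C : Set (β → kˣ)) (hC : UL.IsSpecial C) :
    ∃ z ∈ C, ∀ i, IsOfFinOrder (z i) := by
  obtain ⟨L, _, _, γ, hγ⟩ := UL.exists_generic C hC.1
  have h1 : UL.hull C = C :=
    Set.Subset.antisymm (Set.sInter_subset_of_mem ⟨hC, subset_rfl⟩) (UL.subset_hull C)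
  have h2 := UL.zdim_hull C hC.1 γ hγ
  rw [h1, UL.zdim_eq C γ hγ] at h2
  have h3 : td k γ = mr γ := by exact_mod_cast h2
  have h4 : (1 : MvPolynomial β k) ∉ locus k γ := by
    rw [← Ideal.eq_top_iff_one]
    exact (UL.locus_isPrime k γ).ne_top
  obtain ⟨x, hx, -, hmr⟩ := UL.exists_torsion_point γ 1 h4
  have h5 : mr x = 0 := by omega
  refine ⟨x, (UL.mem_iff_le_locus hC.1 x).mpr (hγ.ge.trans hx), fun i => ?_⟩
  obtain ⟨I, hI1, -, hI⟩ := UL.mr_spec x
  obtain ⟨N, a, hN, ha, hrel⟩ := hI i
  rw [h5, Finset.card_eq_zero] at hI1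
  rw [isOfFinOrder_iff_pow_eq_one]
  refine ⟨N, hN, ?_⟩
  rw [hrel]
  apply Finset.prod_eq_one
  intro j _
  rw [ha j (by rw [hI1]; exact Finset.notMem_empty j), zpow_zero]

private theorem RankC1_split {M : Type} [Field M] {β : Type} [Fintype β] (z : β → Mˣ)
    (b : β → ℤ) : ((∏ i, z i ^ b i : Mˣ) : M) * ∏ i, (z i : M) ^ (-b i).toNat =
      ∏ i, (z i : M) ^ (b i).toNat := by
  have h : (∏ i, z i ^ b i) * ∏ i, z i ^ (-b i).toNat = ∏ i, z i ^ (b i).toNat := by
    rw [← Finset.prod_mul_distrib]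
    refine Finset.prod_congr rfl fun i _ => ?_
    rw [← zpow_natCast, ← zpow_natCast, ← zpow_add]
    congr 1
    omega
  have h2 := congrArg (fun u : Mˣ => (u : M)) h
  simp only [Units.val_mul, Units.coe_prod, Units.val_pow_eq_pow_val] at h2 ⊢
  exact h2

/-- homogenised value of a polynomial at a monomial -/
private noncomputable def RankC1_hom {k : Type} [Field k] {α β : Type} [Fintype β] (b : β → ℤ)
    (p : Polynomial (MvPolynomial α k)) : MvPolynomial (α ⊕ β) k :=
  ∑ m ∈ Finset.range (p.natDegree + 1), rename Sum.inl (p.coeff m) *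
    (∏ i, X (Sum.inr i) ^ (b i).toNat) ^ m *
      (∏ i, X (Sum.inr i) ^ (-b i).toNat) ^ (p.natDegree - m)

private theorem RankC1_hom_aeval {k : Type} [Field k] {α β : Type} [Fintype β] (b : β → ℤ)
    (p : Polynomial (MvPolynomial α k)) {M : Type} [Field M] [Algebra k M] (Q : Pt M α β) :
    aeval (co Q) (RankC1_hom b p) = (∏ i, (Q.2 i : M) ^ (-b i).toNat) ^ p.natDegree *
      p.eval₂ ((aeval Q.1 : MvPolynomial α k →ₐ[k] M) : MvPolynomial α k →+* M)
        ((∏ i, Q.2 i ^ b i : Mˣ) : M) := by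
  unfold RankC1_hom
  rw [Polynomial.eval₂_eq_sum_range, map_sum, Finset.mul_sum]
  refine Finset.sum_congr rfl fun m hm => ?_
  have hm' : m ≤ p.natDegree := Nat.lt_succ_iff.mp (Finset.mem_range.mp hm)
  have h1 : aeval (co Q) (∏ i, X (Sum.inr i) ^ (b i).toNat : MvPolynomial (α ⊕ β) k) =
      ∏ i, (Q.2 i : M) ^ (b i).toNat := by
    rw [map_prod]
    refine Finset.prod_congr rfl fun i _ => ?_
    rw [map_pow, aeval_X, co_inr]
  have h2 : aeval (co Q) (∏ i, X (Sum.inr i) ^ (-b i).toNat : MvPolynomial (α ⊕ β) k) =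
      ∏ i, (Q.2 i : M) ^ (-b i).toNat := by
    rw [map_prod]
    refine Finset.prod_congr rfl fun i _ => ?_
    rw [map_pow, aeval_X, co_inr]
  have h3 : aeval (co Q) (rename Sum.inl (p.coeff m) : MvPolynomial (α ⊕ β) k) =
      ((aeval Q.1 : MvPolynomial α k →ₐ[k] M) : MvPolynomial α k →+* M) (p.coeff m) := by
    rw [aeval_rename]
    rfl
  rw [map_mul, map_mul, map_pow, map_pow, h1, h2, h3, ← RankC1_split]
  have h4 : (∏ i, (Q.2 i : M) ^ (-b i).toNat) ^ p.natDegree =
      (∏ i, (Q.2 i : M) ^ (-b i).toNat) ^ m *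
        (∏ i, (Q.2 i : M) ^ (-b i).toNat) ^ (p.natDegree - m) := by
    rw [← pow_add, Nat.add_sub_cancel' hm']
  rw [h4, mul_pow]
  ring

/-- The minimal polynomial argument. -/
private theorem RankC1_const {k M : Type} [Field k] [Field M] [Algebra k M] {α β : Type}
    [Fintype β] (U : Set (Pt k α β)) (Q : Pt M α β) (hQ : aloc k (co Q) = vanIdeal U)
    (T : Set (α → k)) (hT : aloc k Q.1 = avan T) (z₀ : β → kˣ) (hz : ∀ s ∈ T, (s, z₀) ∈ U)
    (b : β → ℤ) (halg : IsAlgebraic (Algebra.adjoin k (Set.range Q.1))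
      ((∏ i, Q.2 i ^ b i : Mˣ) : M)) :
    ∏ i, Q.2 i ^ b i = cst k M (∏ i, z₀ i ^ b i) := by
  classical
  set ev : MvPolynomial α k →+* M := ((aeval Q.1 : MvPolynomial α k →ₐ[k] M) :
    MvPolynomial α k →+* M) with hev
  set χ : M := ((∏ i, Q.2 i ^ b i : Mˣ) : M) with hχ
  set ζ : kˣ := ∏ i, z₀ i ^ b i with hζ
  have hex : ∃ n : ℕ, ∃ p : Polynomial (MvPolynomial α k), p.natDegree = n ∧ p.map ev ≠ 0 ∧
      p.eval₂ ev χ = 0 := by
    obtain ⟨p, hp0, hp⟩ := halg
    have hadj : Algebra.adjoin k (Set.range Q.1) =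
        (aeval Q.1 : MvPolynomial α k →ₐ[k] M).range := Algebra.adjoin_range_eq_range_aeval k Q.1
    have hsur : ∀ c : Algebra.adjoin k (Set.range Q.1), ∃ f : MvPolynomial α k,
        ev f = (c : M) := by
      intro c
      have h1 : (c : M) ∈ (aeval Q.1 : MvPolynomial α k →ₐ[k] M).range := hadj ▸ c.2
      exact h1
    choose lift hlift using hsur
    set q : Polynomial (MvPolynomial α k) :=
      ∑ m ∈ Finset.range (p.natDegree + 1), Polynomial.monomial m (lift (p.coeff m)) with hq
    have hqm : q.map ev = p.map (algebraMap (Algebra.adjoin k (Set.range Q.1)) M) := by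
      rw [hq, Polynomial.map_sum]
      conv_rhs => rw [Polynomial.as_sum_range p]
      rw [Polynomial.map_sum]
      refine Finset.sum_congr rfl fun m _ => ?_
      rw [Polynomial.map_monomial, Polynomial.map_monomial, hlift]
      rfl
    refine ⟨_, q, rfl, ?_, ?_⟩
    · rw [hqm]
      intro h
      apply hp0
      exact (Polynomial.map_eq_zero_iff Subtype.val_injective).mp h
    · rw [← Polynomial.eval_map, hqm, Polynomial.eval_map, ← Polynomial.aeval_def]
      exact hp
  obtain ⟨p, hpd, hp0, hp⟩ := Nat.find_spec hex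
  have hmin : ∀ q : Polynomial (MvPolynomial α k), q.natDegree < Nat.find hex →
      q.map ev ≠ 0 → q.eval₂ ev χ ≠ 0 := by
    intro q hq h1 h2
    exact Nat.find_min hex hq ⟨q, rfl, h1, h2⟩
  -- `p(ζ) = 0`
  have hroot : ev (p.eval (C (ζ : k))) = 0 := by
    have h1 : RankC1_hom b p ∈ vanIdeal U := by
      rw [← hQ, mem_aloc, RankC1_hom_aeval, hp, mul_zero]
    have h2 : p.eval (C (ζ : k)) ∈ avan T := by
      intro s hs
      have h3 := h1 _ (hz s hs)
      have h4 : eval (co ((s, z₀) : Pt k α β)) (RankC1_hom b p) =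
          aeval (co ((s, z₀) : Pt k α β)) (RankC1_hom b p) := by
        rw [← MvPolynomial.coe_aeval_eq_eval]
        rfl
      rw [h4, RankC1_hom_aeval, mul_eq_zero] at h3
      rcases h3 with h3 | h3
      · exfalso
        refine pow_ne_zero _ ?_ h3
        exact Finset.prod_ne_zero_iff.mpr fun i _ => pow_ne_zero _ (z₀ i).ne_zero
      · have h5 : eval s (p.eval (C (ζ : k))) = p.eval₂
            ((aeval s : MvPolynomial α k →ₐ[k] k) : MvPolynomial α k →+* k) (ζ : k) := by
          have h6 : eval s (p.eval (C (ζ : k))) = p.eval₂ (eval s) (eval s (C (ζ : k))) :=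
            (Polynomial.eval₂_at_apply (eval s) (C (ζ : k))).symm
          rw [h6, eval_C, MvPolynomial.coe_aeval_eq_eval]
        rw [h5]
        exact h3
    have h7 : p.eval (C (ζ : k)) ∈ aloc k Q.1 := by
      rw [hT]
      exact h2
    exact mem_aloc.mp h7
  -- division by `Y - ζ`
  set p₁ := p /ₘ (Polynomial.X - Polynomial.C (C (ζ : k))) with hp₁
  have hdiv : p = (Polynomial.X - Polynomial.C (C (ζ : k))) * p₁ +
      Polynomial.C (p.eval (C (ζ : k))) := by
    have := Polynomial.modByMonic_add_div p (Polynomial.X - Polynomial.C (C (ζ : k)))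
    rw [Polynomial.modByMonic_X_sub_C_eq_C_eval, add_comm] at this
    exact this.symm
  have hmap : p.map ev = (Polynomial.X - Polynomial.C (algebraMap k M (ζ : k))) * p₁.map ev := by
    have h1 : ev (C (ζ : k)) = algebraMap k M (ζ : k) := by
      change (aeval Q.1 : MvPolynomial α k →ₐ[k] M) (C (ζ : k)) = _
      exact MvPolynomial.algHom_C _ _
    conv_lhs => rw [hdiv]
    rw [Polynomial.map_add, Polynomial.map_mul, Polynomial.map_sub, Polynomial.map_X,
      Polynomial.map_C, Polynomial.map_C, hroot, map_zero, add_zero, h1]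
  have hp₁0 : p₁.map ev ≠ 0 := by
    intro h
    apply hp0
    rw [hmap, h, mul_zero]
  have hval : (χ - algebraMap k M (ζ : k)) * p₁.eval₂ ev χ = 0 := by
    rw [← Polynomial.eval_map, hmap, Polynomial.eval_mul, Polynomial.eval_sub, Polynomial.eval_X,
      Polynomial.eval_C, Polynomial.eval_map] at hp
    exact hp
  have hdeg : p₁.natDegree < Nat.find hex := by
    rw [← hpd, hp₁, Polynomial.natDegree_divByMonic _ (Polynomial.monic_X_sub_C _),
      Polynomial.natDegree_X_sub_C]
    have : p.natDegree ≠ 0 := by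
      intro h0
      rw [Polynomial.natDegree_eq_zero] at h0
      obtain ⟨c, rfl⟩ := h0
      rw [Polynomial.eval₂_C] at hp
      apply hp0
      rw [Polynomial.map_C, hp, map_zero]
    omega
  rcases mul_eq_zero.mp hval with h | h
  · apply Units.ext
    rw [UL.cst_val]
    exact sub_eq_zero.mp h
  · exact absurd h (hmin p₁ hdeg hp₁0)

section
variable {k : Type} [Field k] [IsAlgClosed k] [CharZero k] {α β : Type} [Fintype α]
  [Fintype β] {S : Set (α → k)} {𝓕 : (β : Type) → Set (Set (Pt k α β))}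

/-- transport of the rank along a bijection of the index sets -/
private theorem RankC1_equiv (hF : Family S 𝓕) {β' : Type} [Fintype β'] (f : β → β')
    (hf : Function.Bijective f) {L : Type} [Field L] [Algebra k L] (P : Pt L α β')
    (hP : avan S ≤ aloc k P.1) : rho 𝓕 (rst f P) = rho 𝓕 P := by
  have h := rank_le_add hF f hf.injective P hP
  have hc : Fintype.card β = Fintype.card β' := Fintype.card_of_bijective hf
  omega

omit [CharZero k] in
/-- the smallest special subset of a point over `T` lies over `T` -/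
private theorem RankC1_over (hF : Family S 𝓕) {L : Type} [Field L] [Algebra k L] (P : Pt L α β)
    (T : Set (α → k)) (hT : UM.Least (base 𝓕) T P.1) {U : Set (Pt k α β)} (hU : Least 𝓕 U P)
    {M : Type} [Field M] [Algebra k M] (Q : Pt M α β) (hQ : vanIdeal U ≤ aloc k (co Q)) :
    avan T ≤ aloc k Q.1 := by
  have hTb : {p : Pt k α Empty | p.1 ∈ T} ∈ 𝓕 Empty := hT.1
  have hpull := hF.pull Empty β (fun e => e.elim) (fun e => e.elim) _ hTb
  have h1 : vanIdeal {p : Pt k α β | p.1 ∈ T} ≤ aloc k (co P) := by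
    have h2 := (pull_le_iff (k := k) (fun e : Empty => (e.elim : β)) (fun e => e.elim)
      {p : Pt k α Empty | p.1 ∈ T} P).mpr (by
        have h3 := (least_aff hF P.1 T hT).1.2.1
        have h4 : rst (fun e : Empty => (e.elim : β)) P = aff P.1 := by
          apply Prod.ext
          · rfl
          · funext e
            exact e.elim
        rw [h4]
        exact h3)
    exact h2
  have h5 : U ⊆ {p : Pt k α β | p.1 ∈ T} := hU.2.2 _ hpull h1
  intro f hf
  have h6 : rename Sum.inl f ∈ vanIdeal U := by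
    intro p hp
    have h7 := hf p.1 (h5 hp)
    rw [eval_rename]
    exact h7
  have h8 := mem_aloc.mp (hQ h6)
  rw [aeval_rename] at h8
  exact mem_aloc.mpr h8

/-- dependence is multiplicative dependence -/
private theorem RankC1_dep (hF : Family S 𝓕) {L : Type} [Field L] [Algebra k L] (P : Pt L α β)
    (T : Set (α → k)) (hT : UM.Least (base 𝓕) T P.1) (hP : avan S ≤ aloc k P.1)
    (U : Set (Pt k α β)) (hU : Least 𝓕 U P) (z₀ : β → kˣ) (hz₀ : ∀ i, IsOfFinOrder (z₀ i))
    (hsub : ∀ s ∈ T, (s, z₀) ∈ U) (I : Finset β) (j : β) (hj : j ∉ I)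
    (hr : rho 𝓕 (ext (rst (fun i : I => (i : β)) P) (P.2 j)) =
      rho 𝓕 (rst (fun i : I => (i : β)) P)) :
    ∃ (n : ℤ) (a : I → ℤ) (ζ : Lˣ), n ≠ 0 ∧ IsOfFinOrder ζ ∧
      P.2 j ^ n * ∏ i : I, P.2 i ^ a i = ζ := by
  classical
  set P₁ := rst (fun i : I => (i : β)) P with hP₁
  set f : Option I → β := fun o => o.elim j (fun i => (i : β)) with hf
  have hfinj : Function.Injective f := by
    rintro (_ | a) (_ | b) h
    · rfl
    · exact absurd b.2 (by rw [← show f (some b) = (b : β) from rfl, ← h]; exact hj)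
    · exact absurd a.2 (by rw [← show f (some a) = (a : β) from rfl, h]; exact hj)
    · exact congrArg some (Subtype.ext h)
  have hext : rst f P = ext P₁ (P.2 j) := by
    apply Prod.ext
    · rfl
    · funext o
      rcases o with _ | i
      · rfl
      · rfl
  obtain ⟨T₁, hT₁⟩ := exists_least hF (ext P₁ (P.2 j)) hP
  rcases rank_ext hF P₁ hP (P.2 j) with h | ⟨-, n, a, hn, halg⟩
  · omega
  obtain ⟨M, _, _, Q, hQ⟩ := exists_generic T₁ (hF.irr _ T₁ hT₁.1)
  have h1 := halg T₁ hT₁ M Q hQ.ge
  have hproj := least_rst hF f hfinj P U T₁ hU (by rw [hext]; exact hT₁)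
  have hTT : UM.Least (base 𝓕) T (ext P₁ (P.2 j)).1 := hT
  have hle : avan T ≤ aloc k Q.1 := RankC1_over hF (ext P₁ (P.2 j)) T hTT hT₁ Q hQ.ge
  have hmem : ∀ s ∈ T, ((s, z₀ ∘ f) : Pt k α (Option I)) ∈ T₁ := by
    intro s hs
    rw [mem_iff_le_aloc (hF.irr _ T₁ hT₁.1), hproj]
    intro g hg
    exact mem_aloc_self.mpr (hg _ ⟨(s, z₀), hsub s hs, rfl⟩)
  have hge : aloc k Q.1 ≤ avan T := by
    intro g hg s hs
    have h2 : rename Sum.inl g ∈ aloc k (co Q) := by
      rw [mem_aloc, aeval_rename]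
      exact mem_aloc.mp hg
    rw [hQ] at h2
    have h3 := h2 _ (hmem s hs)
    rw [eval_rename] at h3
    exact h3
  set b : Option I → ℤ := fun o => o.elim n a with hb
  have hsplit : ∀ {G : Type} [CommGroup G] (w : Option I → G),
      ∏ o, w o ^ b o = w none ^ n * ∏ i, w (some i) ^ a i := by
    intro G _ w
    rw [Fintype.prod_option]
    rfl
  have h2 := RankC1_const T₁ Q hQ T (le_antisymm hge hle) (z₀ ∘ f) hmem b
    (by rw [hsplit]; exact h1)
  have h3 : locus k Q.2 ≤ locus k (ext P₁ (P.2 j)).2 :=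
    locus_snd_le (ext P₁ (P.2 j)) Q (hQ.le.trans hT₁.2.1)
  have h4 := UL.monomial_spec (ext P₁ (P.2 j)).2 Q.2 h3 b _ h2
  rw [hsplit] at h4
  refine ⟨n, a, _, hn, ?_, h4⟩
  have h5 : IsOfFinOrder (∏ o, (z₀ ∘ f) o ^ b o) := by
    have h6 : ∀ s : Finset (Option I), IsOfFinOrder (∏ o ∈ s, (z₀ ∘ f) o ^ b o) := by
      intro s
      induction s using Finset.induction_on with
      | empty =>
        rw [Finset.prod_empty]
        exact IsOfFinOrder.one
      | insert x s hx ih =>
        rw [Finset.prod_insert hx]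
        exact (IsOfFinOrder.zpow (hz₀ _)).mul ih
    exact h6 Finset.univ
  exact (cst k L).isOfFinOrder h5

/-- (R7) -/
theorem rank_prod (hF : Family S 𝓕) {L : Type} [Field L] [Algebra k L] (P : Pt L α β)
    (T : Set (α → k)) (hT : UM.Least (base 𝓕) T P.1) (C : Set (β → kˣ)) (hC : UL.IsSpecial C)
    (U : Set (Pt k α β)) (hU : Least 𝓕 U P) (hsub : {p : Pt k α β | p.1 ∈ T ∧ p.2 ∈ C} ⊆ U) :
    rho 𝓕 P = UM.dm T + mr P.2 := by
  classical
  have hFb := base_family hF
  have hP : avan S ≤ aloc k P.1 := (avan_anti (hFb.sub T hT.1)).trans hT.2.1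
  obtain ⟨z₀, hz₀C, hz₀⟩ := RankC1_torsion C hC
  have hsub' : ∀ s ∈ T, ((s, z₀) : Pt k α β) ∈ U := fun s hs => hsub ⟨hs, hz₀C⟩
  have haff : rho 𝓕 (aff P.1) = UM.dm T := (least_aff hF P.1 T hT).2
  apply le_antisymm
  · have := rank_le_mr hF P hP
    rw [haff] at this
    exact this
  -- a maximal independent set of coordinates
  have hne : (Finset.univ.filter fun I : Finset β =>
      rho 𝓕 (rst (fun i : I => (i : β)) P) = UM.dm T + I.card).Nonempty := by
    refine ⟨∅, Finset.mem_filter.mpr ⟨Finset.mem_univ _, ?_⟩⟩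
    rw [Finset.card_empty, add_zero, ← haff]
    have h1 := RankC1_equiv hF (fun e : Empty => (e.elim : (∅ : Finset β)))
      ⟨fun e => e.elim, fun x => absurd x.2 (Finset.notMem_empty _)⟩
      (rst (fun i : (∅ : Finset β) => (i : β)) P) hP
    rw [← h1]
    congr 1
    apply Prod.ext
    · rfl
    · funext e
      exact e.elim
  obtain ⟨I, hI, hmax⟩ := Finset.exists_max_image _ Finset.card hne
  have hI1 := (Finset.mem_filter.mp hI).2
  have hrI := (rank_le_add hF (fun i : I => (i : β)) Subtype.val_injective P hP).1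
  have hdep : ∀ j, j ∉ I → rho 𝓕 (ext (rst (fun i : I => (i : β)) P) (P.2 j)) =
      rho 𝓕 (rst (fun i : I => (i : β)) P) := by
    intro j hj
    rcases rank_ext hF (rst (fun i : I => (i : β)) P) hP (P.2 j) with ⟨h, -⟩ | ⟨h, -⟩
    · exfalso
      let g : Option I → (insert j I : Finset β) := fun o => o.elim ⟨j, Finset.mem_insert_self j I⟩
        (fun i => ⟨(i : β), Finset.mem_insert_of_mem i.2⟩)
      have hg : Function.Bijective g := by
        constructor
        · rintro (_ | a) (_ | b) hab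
          · rfl
          · exact absurd b.2 (by
              rw [← show (g (some b) : β) = (b : β) from rfl, ← hab]; exact hj)
          · exact absurd a.2 (by
              rw [← show (g (some a) : β) = (a : β) from rfl, hab]; exact hj)
          · exact congrArg some (Subtype.ext
              (congrArg (fun x : (insert j I : Finset β) => (x : β)) hab))
        · rintro ⟨x, hx⟩
          rcases Finset.mem_insert.mp hx with rfl | hx'
          · exact ⟨none, rfl⟩
          · exact ⟨some ⟨x, hx'⟩, rfl⟩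
      have h1 := RankC1_equiv hF g hg (rst (fun i : (insert j I : Finset β) => (i : β)) P) hP
      have h2 : rst g (rst (fun i : (insert j I : Finset β) => (i : β)) P) =
          ext (rst (fun i : I => (i : β)) P) (P.2 j) := by
        apply Prod.ext
        · rfl
        · funext o
          rcases o with _ | i
          · rfl
          · rfl
      rw [h2] at h1
      have h3 : insert j I ∈ (Finset.univ.filter fun I : Finset β =>
          rho 𝓕 (rst (fun i : I => (i : β)) P) = UM.dm T + I.card) := by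
        refine Finset.mem_filter.mpr ⟨Finset.mem_univ _, ?_⟩
        rw [← h1, h, hI1, Finset.card_insert_of_notMem hj, add_assoc]
      have h4 := hmax _ h3
      rw [Finset.card_insert_of_notMem hj] at h4
      omega
    · exact h
  have hmr : mr P.2 ≤ mr (fun i : I => P.2 i) := by
    apply UL.mr_le_of_pow_mem
    intro j
    by_cases hj : j ∈ I
    · refine ⟨1, one_pos, ?_⟩
      rw [pow_one]
      exact Subgroup.subset_closure ⟨⟨j, hj⟩, rfl⟩
    · obtain ⟨n, a, ζ, hn, hζ, hrel⟩ := RankC1_dep hF P T hT hP U hU z₀ hz₀ hsub' I j hj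
        (hdep j hj)
      obtain ⟨M, hM, hMζ⟩ := isOfFinOrder_iff_pow_eq_one.mp hζ
      refine ⟨n.natAbs * M, Nat.mul_pos (Int.natAbs_pos.mpr hn) hM, ?_⟩
      set H := Subgroup.closure (Set.range fun i : I => P.2 i) with hH
      have hm : ∏ i : I, P.2 i ^ a i ∈ H :=
        Subgroup.prod_mem _ fun i _ => Subgroup.zpow_mem _
          (Subgroup.subset_closure (Set.mem_range_self (f := fun i : I => P.2 i) i)) _
      have h1 : (P.2 j ^ n) ^ M ∈ H := by
        have h2 : (P.2 j ^ n) ^ M * (∏ i : I, P.2 i ^ a i) ^ M = 1 := by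
          rw [← mul_pow, hrel, hMζ]
        rw [eq_inv_of_mul_eq_one_left h2]
        exact H.inv_mem (H.pow_mem hm M)
      rw [pow_mul]
      rcases Int.natAbs_eq n with h2 | h2
      · have h3 : P.2 j ^ n.natAbs = P.2 j ^ n := by
          conv_rhs => rw [h2]
          rw [zpow_natCast]
        rw [h3]
        exact h1
      · have h3 : P.2 j ^ n.natAbs = (P.2 j ^ n)⁻¹ := by
          conv_rhs => rw [h2]
          rw [zpow_neg, zpow_natCast, inv_inv]
        rw [h3, inv_pow]
        exact H.inv_mem h1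
  have hcard := UL.mr_le_card (fun i : I => P.2 i)
  rw [Fintype.card_coe] at hcard
  omega

end

end Pool.Agent.Lib.MP_a325a5_ag.GM
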