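import Pool.Agent.Lib.MP_a325a5_ag.GM.LeastG
import Pool.Agent.Lib.MP_a325a5_ag.UM.Prod

/-! Products of special subsets of `S` and torsion cosets are special: `T × C` is the intersection of
`T × 𝔾_m^β` and `S × C`, and it is irreducible. -/

set_option autoImplicit false

namespace Pool.Agent.Lib.MP_a325a5_ag.GM

open MvPolynomial UM

theorem prod_special {k : Type} [Field k] [IsAlgClosed k] {α β : Type} [CharZero k] [Fintype α]
    [Fintype β] {S : Set (α → k)}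
    {𝓕 : (β : Type) → Set (Set (Pt k α β))} (hF : Family S 𝓕) (T : Set (α → k))
    (hT : T ∈ base 𝓕) (C : Set (β → kˣ)) (hC : UL.IsSpecial C) :
    {p : Pt k α β | p.1 ∈ T ∧ p.2 ∈ C} ∈ 𝓕 β := by
  have hb := base_family hF
  have h1 : {p : Pt k α β | p.1 ∈ T} ∈ 𝓕 β :=
    hF.pull Empty β (fun e => e.elim) (fun e => e.elim) _ hT
  have h2 := hF.coset β C hC
  have h3 : IrrClosed {p : Pt k α β | p.1 ∈ T ∧ p.2 ∈ C} := prod_irr (hb.irr T hT) hC.1
  obtain ⟨T₃, hT₃, h4, h5⟩ := hF.inter β _ h1 _ h2 _ h3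
    (fun p hp => ⟨hp.1, hb.sub T hT hp.1, hp.2⟩)
  have h6 : T₃ = {p : Pt k α β | p.1 ∈ T ∧ p.2 ∈ C} :=
    Set.Subset.antisymm (fun p hp => ⟨(h5 hp).1, (h5 hp).2.2⟩) h4
  rw [← h6]
  exact hT₃

end Pool.Agent.Lib.MP_a325a5_ag.GM
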