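import Pool.Agent.Lib.MP_a325a5_ag.GM.LeastG
import Pool.Agent.Lib.MP_a325a5_ag.GM.ProdS
import Pool.Agent.Lib.MP_a325a5_ag.UM.Prod
import Pool.Agent.Lib.MP_a325a5_ag.UM.Least
import Pool.Agent.Lib.MP_a325a5_ag.UL.HullEq
import Pool.Agent.Lib.MP_a325a5_ag.UL.KD

/-! G7b: if the rank of `P` is `dim T + mr P.2` then the smallest special subset containing `P` is a
product.

Let `C` be the smallest torsion coset containing `P.2`: `T × C` is special, of dimension
`dim T + mr P.2`, and contains `P`, so it contains the smallest special subset `U` of `P`, which has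
the same dimension. -/

set_option autoImplicit false

namespace Pool.Agent.Lib.MP_a325a5_ag.GM

open MvPolynomial UM
open UL (mr td locus cst)

section
variable {k : Type} [Field k] [IsAlgClosed k] [CharZero k] {α β : Type} [Fintype α]
  [Fintype β] {S : Set (α → k)} {𝓕 : (β : Type) → Set (Set (Pt k α β))}

/-- If the rank is `dim T + mr` then the smallest special subset is a product. -/
theorem least_prod (hF : Family S 𝓕) {L : Type} [Field L] [Algebra k L] (P : Pt L α β)
    (T : Set (α → k)) (hT : UM.Least (base 𝓕) T P.1) (U : Set (Pt k α β)) (hU : Least 𝓕 U P)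
    (hr : rho 𝓕 P = UM.dm T + mr P.2) :
    ∃ C : Set (β → kˣ), UL.IsSpecial C ∧ {p : Pt k α β | p.1 ∈ T ∧ p.2 ∈ C} ⊆ U := by
  obtain ⟨C, hC, hCP⟩ := UL.exists_irrClosed (K := k) P.2
  have hsp : UL.IsSpecial (UL.hull C) := UL.isSpecial_hull C hC
  refine ⟨UL.hull C, hsp, ?_⟩
  have hTi : AIrr T := (base_family hF).irr T hT.1
  have hE : {p : Pt k α β | p.1 ∈ T ∧ p.2 ∈ UL.hull C} ∈ 𝓕 β :=
    prod_special hF T hT.1 (UL.hull C) hsp
  have hEi : IrrClosed {p : Pt k α β | p.1 ∈ T ∧ p.2 ∈ UL.hull C} := prod_irr hTi hsp.1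
  -- the product contains `P`
  have hPE : vanIdeal {p : Pt k α β | p.1 ∈ T ∧ p.2 ∈ UL.hull C} ≤ aloc k (co P) := by
    obtain ⟨Z, hZ, hZP⟩ := exists_irrClosed (K := k) P
    rw [← hZP]
    apply vanIdeal_anti
    intro z hz
    have h1 : aloc k (co P) ≤ aloc k (co z) := by
      rw [← hZP]
      exact (mem_iff_le_aloc hZ z).mp hz
    constructor
    · rw [amem_iff_le_aloc hTi]
      exact hT.2.1.trans (aloc_fst_le z P h1)
    · apply UL.subset_hull
      rw [UL.mem_iff_le_locus hC, hCP]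
      exact locus_snd_le z P h1
  -- the dimension of the product
  have hdm : dm {p : Pt k α β | p.1 ∈ T ∧ p.2 ∈ UL.hull C} = UM.dm T + mr P.2 := by
    obtain ⟨L₁, _, _, q, hq⟩ := exists_ageneric T hTi
    obtain ⟨L₂, _, _, c, hc⟩ := UL.exists_generic (UL.hull C) hsp.1
    have e1 := prod_zdim hTi hsp.1 q hq c hc
    have e3 := UM.dm_eq T q hq
    have e4 := UL.zdim_eq (UL.hull C) c hc
    have e5 := UL.zdim_hull C hC P.2 hCP.symm
    have e6 : UL.td k c = UL.mr P.2 := by
      rw [e4] at e5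
      exact_mod_cast e5
    rw [← e3, e6] at e1
    unfold dm
    unfold zdim at e1
    rw [e1]
    rfl
  have hUE : U ⊆ {p : Pt k α β | p.1 ∈ T ∧ p.2 ∈ UL.hull C} := hU.2.2 _ hE hPE
  have h2 := (dm_mono (hF.irr β U hU.1) hEi hUE).2 (by
    rw [hdm, ← hr, rho_eq hU])
  rw [← h2]

end

end Pool.Agent.Lib.MP_a325a5_ag.GM
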