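import Pool.Agent.Lib.MP_a325a5_ag.GM.LeastG
import Pool.Agent.Lib.MP_a325a5_ag.GM.RankA2

/-! (R5): coordinates that are multiplicatively independent modulo the elements algebraic over `F`
raise the rank by their number. -/

set_option autoImplicit false

namespace Pool.Agent.Lib.MP_a325a5_ag.GM

open MvPolynomial UM

/-- algebraic over `k[s]`, `s` in `F`: algebraic over `F` -/
private theorem rb3_alg {k F L : Type} [Field k] [Field F] [Algebra k F] [Field L] [Algebra k L]
    [Algebra F L] [IsScalarTower k F L] {α : Type} (s : α → L)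
    (hs : ∀ i, s i ∈ Set.range (algebraMap F L)) (y : L)
    (hy : IsAlgebraic (Algebra.adjoin k (Set.range s)) y) : IsAlgebraic F y := by
  have hinj : Function.Injective (IsScalarTower.toAlgHom k F L) := (algebraMap F L).injective
  have hle : Algebra.adjoin k (Set.range s) ≤ (IsScalarTower.toAlgHom k F L).range := by
    apply Algebra.adjoin_le
    rintro _ ⟨i, rfl⟩
    exact hs i
  let e := AlgEquiv.ofInjective (IsScalarTower.toAlgHom k F L) hinj
  let g : Algebra.adjoin k (Set.range s) →+* F :=
    (e.symm : (IsScalarTower.toAlgHom k F L).range →+* F).comp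
      (Subalgebra.inclusion hle : Algebra.adjoin k (Set.range s) →+* _)
  have hg : ∀ z, algebraMap F L (g z) = (z : L) := by
    intro z
    have h1 : e (e.symm (Subalgebra.inclusion hle z)) = Subalgebra.inclusion hle z :=
      e.apply_symm_apply _
    exact congrArg Subtype.val h1
  have hginj : Function.Injective g := by
    intro z w h
    apply Subtype.ext
    rw [← hg z, ← hg w, h]
  have h2 := IsAlgebraic.ringHom_of_comp_eq g (RingHom.id L) hy hginj (by
    ext z
    exact hg z)
  exact h2

private theorem rb3_prod {β : Type} [Fintype β] [DecidableEq β] {G : Type} [CommMonoid G] (j0 : β)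
    (g : β → G) : ∏ j, g j = g j0 * ∏ i : {j // j ≠ j0}, g i.1 := by
  rw [← (Equiv.optionSubtypeNe j0).prod_comp, Fintype.prod_option]
  simp

section
variable {k : Type} [Field k] [IsAlgClosed k] [CharZero k] {α : Type} [Fintype α]
  {S : Set (α → k)} {𝓕 : (β : Type) → Set (Set (Pt k α β))}

private theorem rb3_main (hF : Family S 𝓕) {β : Type} [Fintype β] {F L : Type}
    [Field F] [Algebra k F] [Field L] [Algebra k L] [Algebra F L] [IsScalarTower k F L] (n : ℕ) :
    ∀ (β' : Type) [Fintype β'] (f : β → β') (_ : Function.Injective f)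
      (P : Pt L α β') (_ : avan S ≤ aloc k P.1) (_ : ∀ i, P.1 i ∈ Set.range (algebraMap F L))
      (_ : ∀ b, (P.2 (f b) : L) ∈ Set.range (algebraMap F L))
      (_ : ∀ e : β' → ℤ, (∀ b, e (f b) = 0) → IsAlgebraic F ((∏ j, P.2 j ^ e j : Lˣ) : L) →
        e = 0) (_ : Fintype.card β' = Fintype.card β + n),
      rho 𝓕 P + Fintype.card β = rho 𝓕 (rst f P) + Fintype.card β' := by
  classical
  induction n with
  | zero =>
    intro β' _ f hf P hP hs hz hind hc
    have hb : Function.Bijective f :=
      (Fintype.bijective_iff_injective_and_card f).2 ⟨hf, by omega⟩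
    have h1 := rho_rst_bij hF f hb P
    omega
  | succ n ih =>
    intro β' _ f hf P hP hs hz hind hc
    obtain ⟨j0, hj0⟩ : ∃ j0, j0 ∉ Set.range f := by
      by_contra hcon
      push Not at hcon
      have hsurj : Function.Surjective f := fun j => hcon j
      have := Fintype.card_le_of_surjective f hsurj
      omega
    have hne : ∀ b, f b ≠ j0 := fun b h => hj0 ⟨b, h⟩
    let f' : β → {j // j ≠ j0} := fun b => ⟨f b, hne b⟩
    have hf' : Function.Injective f' := fun b c h => hf (congrArg Subtype.val h)
    let P' : Pt L α {j // j ≠ j0} := rst Subtype.val P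
    have hcard : Fintype.card {j // j ≠ j0} + 1 = Fintype.card β' := by
      rw [← Fintype.card_option, Fintype.card_congr (Equiv.optionSubtypeNe j0)]
    have h1 := ih {j // j ≠ j0} f' hf' P' hP hs hz (by
      intro e he halg
      have h2 := hind (fun j => if h : j = j0 then 0 else e ⟨j, h⟩) (by
        intro b
        rw [dif_neg (hne b)]
        exact he b) (by
        have h3 : ∏ j, P.2 j ^ (if h : j = j0 then 0 else e ⟨j, h⟩) =
            ∏ i : {j // j ≠ j0}, P'.2 i ^ e i := by
          rw [rb3_prod j0]
          rw [dif_pos rfl, zpow_zero, one_mul]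
          refine Finset.prod_congr rfl fun i _ => ?_
          rw [dif_neg i.2]
          rfl
        rw [h3]
        exact halg)
      funext i
      have h4 := congrFun h2 i.1
      rw [dif_neg i.2] at h4
      exact h4) (by omega)
    -- `P` is `P'` with one more coordinate
    have hext : rst (Equiv.optionSubtypeNe j0) P = ext P' (P.2 j0) := by
      refine Prod.ext rfl ?_
      funext o
      rcases o with _ | i
      · simp [rst]
      · simp [rst, P']
    have hr : rho 𝓕 P = rho 𝓕 (ext P' (P.2 j0)) := by
      have h2 := rho_rst_bij hF (Equiv.optionSubtypeNe j0) (Equiv.bijective _) P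
      rw [hext] at h2
      exact h2.symm
    rcases rank_ext hF P' hP (P.2 j0) with ⟨h2, -⟩ | ⟨-, m, a, hm, h3⟩
    · have h5 : rst f' P' = rst f P := rfl
      rw [h5] at h1
      omega
    · exfalso
      obtain ⟨T, hT⟩ := exists_least hF (ext P' (P.2 j0)) hP
      have h4 := h3 T hT L (ext P' (P.2 j0)) hT.2.1
      have h5 : IsAlgebraic F
          ((P.2 j0 ^ m * ∏ i : {j // j ≠ j0}, P'.2 i ^ a i : Lˣ) : L) :=
        rb3_alg P.1 hs _ h4
      -- the exponents
      let e1 : β' → ℤ := fun j => if j ∈ Set.range f then 0 else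
        if h : j = j0 then m else a ⟨j, h⟩
      let e2 : β' → ℤ := fun j => if j ∈ Set.range f then
        (if h : j = j0 then m else a ⟨j, h⟩) else 0
      have he1 : e1 j0 = m := by
        change (if j0 ∈ Set.range f then 0 else if h : j0 = j0 then m else a ⟨j0, h⟩) = m
        rw [if_neg hj0, dif_pos rfl]
      have he2 : e2 j0 = 0 := if_neg hj0
      have h6 : (∏ j, P.2 j ^ e1 j) * ∏ j, P.2 j ^ e2 j =
          P.2 j0 ^ m * ∏ i : {j // j ≠ j0}, P'.2 i ^ a i := by
        rw [← Finset.prod_mul_distrib, rb3_prod j0]
        congr 1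
        · rw [he1, he2, zpow_zero, mul_one]
        · refine Finset.prod_congr rfl fun i _ => ?_
          simp only [e1, e2]
          by_cases hi : i.1 ∈ Set.range f
          · rw [if_pos hi, if_pos hi, dif_neg i.2, zpow_zero, one_mul]
            rfl
          · rw [if_neg hi, if_neg hi, dif_neg i.2, zpow_zero, mul_one]
            rfl
      have h7 : ((∏ j, P.2 j ^ e2 j : Lˣ) : L) ∈ algebraicClosure F L := by
        rw [Units.coe_prod]
        refine prod_mem fun j _ => ?_
        rw [Units.val_zpow_eq_zpow_val]
        by_cases hj : j ∈ Set.range f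
        · obtain ⟨b, rfl⟩ := hj
          obtain ⟨c, hc⟩ := hz b
          rw [← hc]
          exact zpow_mem (IntermediateField.algebraMap_mem _ c) _
        · simp only [e2]
          rw [if_neg hj, zpow_zero]
          exact one_mem _
      have h8 : IsAlgebraic F ((∏ j, P.2 j ^ e1 j : Lˣ) : L) := by
        rw [← mem_algebraicClosure_iff] at h5 ⊢
        have h9 : ((∏ j, P.2 j ^ e1 j : Lˣ) : L) =
            ((P.2 j0 ^ m * ∏ i : {j // j ≠ j0}, P'.2 i ^ a i : Lˣ) : L) *
              ((∏ j, P.2 j ^ e2 j : Lˣ) : L)⁻¹ := by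
          rw [← h6, Units.val_mul, mul_inv_cancel_right₀ (Units.ne_zero _)]
        rw [h9]
        exact mul_mem h5 (inv_mem h7)
      have h9 := hind e1 (by
        intro b
        simp only [e1]
        rw [if_pos ⟨b, rfl⟩]) h8
      rw [h9] at he1
      exact hm he1.symm

end

section
variable {k : Type} [Field k] [IsAlgClosed k] [CharZero k] {α β β' : Type} [Fintype α]
  [Fintype β] [Fintype β'] {S : Set (α → k)} {𝓕 : (β : Type) → Set (Set (Pt k α β))}

/-- (R5) Coordinates that are multiplicatively independent modulo the elements algebraic over `F`. -/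
theorem rank_indep (hF : Family S 𝓕) (f : β → β') (hf : Function.Injective f) {F L : Type}
    [Field F] [Algebra k F] [Field L] [Algebra k L] [Algebra F L] [IsScalarTower k F L]
    (P : Pt L α β') (hP : avan S ≤ aloc k P.1) (hs : ∀ i, P.1 i ∈ Set.range (algebraMap F L))
    (hz : ∀ b, (P.2 (f b) : L) ∈ Set.range (algebraMap F L))
    (hind : ∀ e : β' → ℤ, (∀ b, e (f b) = 0) → IsAlgebraic F ((∏ j, P.2 j ^ e j : Lˣ) : L) →
      e = 0) :
    rho 𝓕 P + Fintype.card β = rho 𝓕 (rst f P) + Fintype.card β' := by
  have hc := Fintype.card_le_of_injective f hf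
  exact rb3_main hF (Fintype.card β' - Fintype.card β) β' f hf P hP hs hz hind (by omega)

end

end Pool.Agent.Lib.MP_a325a5_ag.GM
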