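import Pool.Agent.Lib.MP_a325a5_ag.UL.Lin

/-! Units of the rational function field which are algebraic over the constants. -/

set_option autoImplicit false

namespace Pool.Agent.Lib.MP_a325a5_ag.GM

open MvPolynomial
open UL (rcst rvar RatFun)

private theorem ratAlg_mem {U E : Type} [Field E] (x : RatFun U E) (hx : IsAlgebraic E x) :
    ∃ p : MvPolynomial U E, algebraMap (MvPolynomial U E) (RatFun U E) p = x := by
  have h1 : IsIntegral E x := hx.isIntegral
  have h2 : IsIntegral (MvPolynomial U E) x := h1.tower_top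
  exact (IsIntegrallyClosed.isIntegral_iff (R := MvPolynomial U E) (K := RatFun U E)).1 h2

/-- A unit of the rational function field that is algebraic over `E` is constant. -/
theorem ratFun_algebraic {U E : Type} [Field E] (x : (RatFun U E)ˣ)
    (hx : IsAlgebraic E (x : RatFun U E)) : ∃ c : Eˣ, (x : RatFun U E) = rcst U (c : E) := by
  obtain ⟨p, hp⟩ := ratAlg_mem (x : RatFun U E) hx
  obtain ⟨q, hq⟩ := ratAlg_mem ((x : RatFun U E)⁻¹) hx.inv
  have hpq : p * q = 1 := by
    apply IsFractionRing.injective (MvPolynomial U E) (RatFun U E)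
    rw [map_mul, hp, hq, map_one, mul_inv_cancel₀ x.ne_zero]
  have hu : IsUnit p := IsUnit.of_mul_eq_one q hpq
  obtain ⟨c, hc, hpc⟩ := MvPolynomial.isUnit_iff_eq_C_of_isReduced.1 hu
  refine ⟨hc.unit, ?_⟩
  rw [← hp, hpc]
  rfl

end Pool.Agent.Lib.MP_a325a5_ag.GM
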