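import Pool.Agent.Lib.MP_a325a5_ag.GM.RkCfgLe
import Pool.Agent.Lib.MP_a325a5_ag.GM.RankB3
import Pool.Agent.Lib.MP_a325a5_ag.GM.RatAlg
import Pool.Agent.Lib.MP_a325a5_ag.UL.GenA

/-! The rank of the configuration point: equality. -/

set_option autoImplicit false

namespace Pool.Agent.Lib.MP_a325a5_ag.GM

open MvPolynomial UM
open UL (mr td locus cst rcst rvar RatFun Sys genConfig)

section node
variable {J : Type} [Fintype J] (S' : Sys J)

/-- The block of a node. -/
private def rkBeta : (Fin 3 × J) ⊕ (Σ b : S'.B, Fin (S'.m b + 1)) → J ⊕ S'.B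
  | Sum.inl (_, i) => Sum.inl i
  | Sum.inr ⟨b, _⟩ => Sum.inr b

/-- The constant of a node. -/
private def rkSigma {E : Type} [Field E] (y : J → Eˣ) :
    (Fin 3 × J) ⊕ (Σ b : S'.B, Fin (S'.m b + 1)) → E
  | Sum.inl (j, i) => ![0, 1, 1 + (y i : E)] j
  | Sum.inr ⟨b, k⟩ => S'.part y b k

private theorem rk_node {E : Type} [Field E] (y : J → Eˣ) (hy : ∀ b, S'.rel y b = 0)
    (t : (Fin 3 × J) ⊕ (Σ b : S'.B, Fin (S'.m b + 1))) :
    rvar E (rkBeta S' t) + rcst (J ⊕ S'.B) (rkSigma S' y t) =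
      ((match t with
        | Sum.inl (j, i) => (genConfig S' y hy).a j i
        | Sum.inr ⟨b, k⟩ => (genConfig S' y hy).s b k : (RatFun (J ⊕ S'.B) E)ˣ) :
        RatFun (J ⊕ S'.B) E) := by
  have h0 : rcst (J ⊕ S'.B) (0 : E) = 0 := map_zero (rkcfgRho E E (J ⊕ S'.B))
  have h1 : rcst (J ⊕ S'.B) (1 : E) = 1 := map_one (rkcfgRho E E (J ⊕ S'.B))
  have h2 : ∀ a b : E, rcst (J ⊕ S'.B) (a + b) = rcst (J ⊕ S'.B) a + rcst (J ⊕ S'.B) b :=
    fun a b => map_add (rkcfgRho E E (J ⊕ S'.B)) a b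
  rcases t with ⟨j, i⟩ | ⟨b, k⟩
  · have e0 := UL.genConfig_a0 S' y hy i
    have e1 := (genConfig S' y hy).ha1 i
    have e2 := (genConfig S' y hy).ha2 i
    have e3 := UL.genConfig_y S' y hy i
    fin_cases j
    · change rvar E (Sum.inl i) + rcst (J ⊕ S'.B) (0 : E) = ((genConfig S' y hy).a 0 i :
        RatFun _ E)
      rw [h0, add_zero, e0]
    · change rvar E (Sum.inl i) + rcst (J ⊕ S'.B) (1 : E) = ((genConfig S' y hy).a 1 i :
        RatFun _ E)
      rw [h1, e1, e0]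
    · change rvar E (Sum.inl i) + rcst (J ⊕ S'.B) (1 + (y i : E)) =
        ((genConfig S' y hy).a 2 i : RatFun _ E)
      rw [e2, e1, e0, h2, h1, e3, add_assoc]
  · change rvar E (Sum.inr b) + rcst (J ⊕ S'.B) (S'.part y b k) =
      ((genConfig S' y hy).s b k : RatFun _ E)
    rw [UL.genConfig_s]

private theorem rk_inj {E : Type} [Field E] (y : J → Eˣ)
    (hind : mr y = Fintype.card J)
    (hdist : ∀ b l l', S'.part y b l = S'.part y b l' → l = l') :
    ∀ i j, rkBeta S' i = rkBeta S' j → rkSigma S' y i = rkSigma S' y j → i = j := by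
  have hyind := (UL.mr_eq_card_iff y).mp hind
  intro t t' h1 h2
  rcases t with ⟨j, i⟩ | ⟨b, k⟩ <;> rcases t' with ⟨j', i'⟩ | ⟨b', k'⟩
  · have hi : i = i' := Sum.inl.inj h1
    subst hi
    have hy0 : (y i : E) ≠ 0 := (y i).ne_zero
    have hy1 : (1 + (y i : E)) ≠ 0 := by
      intro hcon
      have h3 : (y i) ^ (2 : ℤ) = 1 := by
        apply Units.ext
        have h4 : (y i : E) = -1 := by linear_combination hcon
        rw [zpow_ofNat, Units.val_pow_eq_pow_val, h4]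
        simp
      have h5 := hyind (fun l => by classical exact if l = i then 2 else 0) (by
        classical
        rw [Finset.prod_eq_single i]
        · simpa using h3
        · intro l _ hl
          simp [hl]
        · simp)
      have h6 := congrFun h5 i
      simp at h6
    have h3 : ![0, 1, 1 + (y i : E)] j = ![0, 1, 1 + (y i : E)] j' := h2
    have : j = j' := by
      fin_cases j <;> fin_cases j' <;> simp at h3 ⊢
      · exact hy1 h3.symm
      · exact hy1 h3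
    rw [this]
  · exact absurd h1 (by simp [rkBeta])
  · exact absurd h1 (by simp [rkBeta])
  · have hb : b = b' := Sum.inr.inj h1
    subst hb
    rw [hdist b k k' h2]

/-- The nodes are multiplicatively independent modulo the constants. -/
private theorem rk_indep {E : Type} [Field E] (y : J → Eˣ) (hy : ∀ b, S'.rel y b = 0)
    (hind : mr y = Fintype.card J)
    (hdist : ∀ b l l', S'.part y b l = S'.part y b l' → l = l') (e : S'.V → ℤ)
    (he0 : ∀ i, e (Sum.inl (Sum.inl i)) = 0) (c : Eˣ)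
    (he : ((∏ j, (genConfig S' y hy).all j ^ e j : (RatFun (J ⊕ S'.B) E)ˣ) :
      RatFun (J ⊕ S'.B) E) = rcst (J ⊕ S'.B) (c : E)) : e = 0 := by
  set v := genConfig S' y hy with hv
  let e' : (Fin 3 × J) ⊕ (Σ b : S'.B, Fin (S'.m b + 1)) → ℤ := fun t =>
    match t with
    | Sum.inl t => e (Sum.inl (Sum.inr t))
    | Sum.inr t => e (Sum.inr t)
  have hc : rcst (J ⊕ S'.B) ((c⁻¹ : Eˣ) : E) * rcst (J ⊕ S'.B) (c : E) = 1 := by
    have h1 := map_mul (rkcfgRho E E (J ⊕ S'.B)) ((c⁻¹ : Eˣ) : E) (c : E)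
    rw [Units.inv_mul, map_one] at h1
    exact h1.symm
  have hprod : rcst (J ⊕ S'.B) ((c⁻¹ : Eˣ) : E) *
      ∏ t, (rvar E (rkBeta S' t) + rcst (J ⊕ S'.B) (rkSigma S' y t)) ^ e' t = 1 := by
    rw [← hc, ← he]
    congr 1
    rw [Fintype.prod_sum_type, Fintype.prod_sum_type, Fintype.prod_sum_type, Units.val_mul,
      Units.val_mul]
    have h0 : ((∏ i, v.all (Sum.inl (Sum.inl i)) ^ e (Sum.inl (Sum.inl i)) :
        (RatFun (J ⊕ S'.B) E)ˣ) : RatFun (J ⊕ S'.B) E) = 1 := by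
      rw [Finset.prod_eq_one, Units.val_one]
      intro i _
      rw [he0, zpow_zero]
    rw [h0, one_mul]
    congr 1
    · rw [Units.coe_prod]
      apply Finset.prod_congr rfl
      intro t _
      have h2 := rk_node S' y hy (Sum.inl t)
      rw [h2, Units.val_zpow_eq_zpow_val]
      rfl
    · rw [Units.coe_prod]
      apply Finset.prod_congr rfl
      intro t _
      have h2 := rk_node S' y hy (Sum.inr t)
      rw [h2, Units.val_zpow_eq_zpow_val]
      rfl
  obtain ⟨h1, -⟩ := UL.lin_independent (rkBeta S') (rkSigma S' y) (rk_inj S' y hind hdist) e'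
    c⁻¹ hprod
  funext t
  rcases t with (i | t) | t
  · exact he0 i
  · exact congrFun h1 (Sum.inl t)
  · exact congrFun h1 (Sum.inr t)

end node

section
variable {k : Type} [Field k] [IsAlgClosed k] [CharZero k] {α : Type} [Fintype α]
  {S : Set (α → k)} {𝓕 : (β : Type) → Set (Set (Pt k α β))}

/-- The configuration: equality. -/
theorem rank_cfgPt (hF : Family S 𝓕) {κ I : Type} [Fintype κ] [Fintype I] (S' : Sys (κ ⊕ I))
    {E : Type} [Field E] [Algebra k E] (s : α → E) (hs : avan S ≤ aloc k s) (y : κ ⊕ I → Eˣ)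
    (hy : ∀ b, S'.rel y b = 0) (hind : mr y = Fintype.card (κ ⊕ I))
    (hdist : ∀ b l l', S'.part y b l = S'.part y b l' → l = l') :
    rho 𝓕 (cfgPt S' s y hy) = rho 𝓕 ((s, y) : Pt E α (κ ⊕ I)) +
      3 * Fintype.card (κ ⊕ I) + ∑ b : S'.B, (S'.m b + 1) := by
  rw [rkcfg_rho_eq hF S' s hs y hy]
  have hW : avan S ≤ aloc k (fun i => rcst ((κ ⊕ I) ⊕ S'.B) (s i)) := by
    rw [rkcfg_aloc]
    exact hs
  have h1 := rank_indep hF (F := E) (fun i : κ ⊕ I => (Sum.inl (Sum.inl i) : S'.V))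
    (fun i j h => Sum.inl_injective (Sum.inl_injective h))
    ((fun i => rcst ((κ ⊕ I) ⊕ S'.B) (s i), (genConfig S' y hy).all) :
        Pt (RatFun ((κ ⊕ I) ⊕ S'.B) E) α S'.V) hW (fun i => ⟨s i, rfl⟩)
    (fun i => ⟨(y i : E), (UL.genConfig_y S' y hy i).symm⟩)
    (fun e he0 halg => by
      obtain ⟨c, hc⟩ := ratFun_algebraic _ halg
      exact rk_indep S' y hy hind hdist e he0 c hc)
  have h2 := rkcfg_rho_y (𝓕 := 𝓕) S' s y hy
  have e1 : rst (fun i : κ ⊕ I => (Sum.inl (Sum.inl i) : S'.V))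
      ((fun i => rcst ((κ ⊕ I) ⊕ S'.B) (s i), (genConfig S' y hy).all) :
        Pt (RatFun ((κ ⊕ I) ⊕ S'.B) E) α S'.V) =
      ((fun i => rcst ((κ ⊕ I) ⊕ S'.B) (s i), (genConfig S' y hy).y) :
      Pt (RatFun ((κ ⊕ I) ⊕ S'.B) E) α (κ ⊕ I)) := rfl
  rw [e1, h2, UL.Sys.card_V] at h1
  omega

end

end Pool.Agent.Lib.MP_a325a5_ag.GM
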