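import Pool.Agent.Lib.MP_a325a5_ag.GM.Base
import Pool.Agent.Lib.MP_a325a5_ag.GM.RatAlg
import Pool.Agent.Lib.MP_a325a5_ag.GM.RankB3
import Pool.Agent.Lib.MP_a325a5_ag.UM.Msk

/-! The rank of the masked point: `rank_indep` over the constants `L`; the masks are
multiplicatively independent modulo the elements algebraic over `L`. -/

set_option autoImplicit false

namespace Pool.Agent.Lib.MP_a325a5_ag.GM

open MvPolynomial UM
open UL (mr rcst rvar RatFun)

/-- the constants as a ring homomorphism -/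
private noncomputable def rkmsk_rh (U E : Type) [Field E] : E →+* RatFun U E :=
  (algebraMap (MvPolynomial U E) (RatFun U E)).comp C

private theorem rkmsk_rh_apply (U : Type) {E : Type} [Field E] (c : E) :
    rkmsk_rh U E c = rcst U c := rfl

private theorem rkmsk_aloc {k L M ι : Type} [Field k] [Field L] [Field M] [Algebra k L]
    [Algebra k M] [Algebra L M] [IsScalarTower k L M] (x : ι → L) :
    aloc k (fun i => algebraMap L M (x i)) = aloc k x := by
  ext f
  rw [mem_aloc, mem_aloc]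
  have h : aeval (fun i => algebraMap L M (x i)) f = algebraMap L M (aeval x f) :=
    aeval_algebraMap_apply M x f
  rw [h, map_eq_zero]

/-- the masks are independent modulo the elements algebraic over the constants -/
private theorem rkmsk_ind {k L : Type} [Field k] [Field L] [Algebra k L] {α I : Type} [Fintype I]
    {a : ℕ} (φ : Fin a → MvPolynomial α k) (s : α → L) (y : I → Lˣ)
    (e : (Fin 3 × Fin a) ⊕ I → ℤ) (he : ∀ b, e (Sum.inr b) = 0)
    (hx : IsAlgebraic L ((∏ j, msk φ s y j ^ e j : (MF a L)ˣ) : MF a L)) : e = 0 := by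
  have hv : ∀ i : Fin a, rvar L i ≠ 0 := by
    intro i
    have h := UL.rvar_add_rcst_ne_zero (E := L) i 0
    rwa [← rkmsk_rh_apply, map_zero, add_zero] at h
  obtain ⟨c, hc⟩ := ratFun_algebraic (U := Fin a) (E := RatFun (Fin a) L)
    (∏ j, msk φ s y j ^ e j) (hx.tower_top (RatFun (Fin a) L))
  -- the constant is algebraic
  have hc1 : IsAlgebraic L (c : RatFun (Fin a) L) := by
    rw [hc] at hx
    have h1 : rcst (Fin a) (c : RatFun (Fin a) L) =
        algebraMap (RatFun (Fin a) L) (MF a L) (c : RatFun (Fin a) L) := rfl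
    rw [h1] at hx
    exact (isAlgebraic_algebraMap_iff (algebraMap (RatFun (Fin a) L) (MF a L)).injective).1 hx
  obtain ⟨c', hc'⟩ := ratFun_algebraic c hc1
  have h1 : ((∏ j, msk φ s y j ^ e j : (MF a L)ˣ) : MF a L) =
      (∏ i, mu L i ^ e (Sum.inl (0, i))) * (∏ i, mv L i ^ e (Sum.inl (1, i))) *
        ∏ i, (mu L i + mv L i + mcst a (aeval s (φ i))) ^ e (Sum.inl (2, i)) := by
    simp only [Fintype.prod_sum_type, Fintype.prod_prod_type, Fin.prod_univ_three, Units.val_mul,
      Units.coe_prod, Units.val_zpow_eq_zpow_val, msk_u, msk_v, msk_w, he, zpow_zero,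
      Finset.prod_const_one, mul_one]
  rw [h1] at hc
  set c₀ : (RatFun (Fin a) L)ˣ :=
    (∏ i, Units.mk0 (rvar L i) (hv i) ^ e (Sum.inl (1, i))) * c⁻¹ with hc₀
  have hc₀v : (c₀ : RatFun (Fin a) L) = (∏ i, rvar L i ^ e (Sum.inl (1, i))) *
      (c : RatFun (Fin a) L)⁻¹ := by
    rw [hc₀, Units.val_mul, Units.coe_prod, Units.val_inv_eq_inv_val]
    simp only [Units.val_zpow_eq_zpow_val, Units.val_mk0]
  have hne : rkmsk_rh (Fin a) (RatFun (Fin a) L) (c : RatFun (Fin a) L) ≠ 0 := by
    intro h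
    exact c.ne_zero ((map_eq_zero _).1 h)
  obtain ⟨h3, h4⟩ := UL.lin_independent (U := Fin a) (T := Fin a ⊕ Fin a)
    (E := RatFun (Fin a) L)
    (Sum.elim id id) (Sum.elim (fun _ => 0) (fun i => rvar L i + rcst (Fin a) (aeval s (φ i))))
    (by
      intro i j hij hs
      rcases i with i | i <;> rcases j with j | j
      · have : i = j := hij
        rw [this]
      · exact absurd hs.symm (UL.rvar_add_rcst_ne_zero _ _)
      · exact absurd hs (UL.rvar_add_rcst_ne_zero _ _)
      · have : i = j := hij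
        rw [this])
    (Sum.elim (fun i => e (Sum.inl (0, i))) (fun i => e (Sum.inl (2, i)))) c₀
    (by
      rw [hc₀v, ← rkmsk_rh_apply, map_mul, map_prod, map_inv₀, Fintype.prod_sum_type]
      simp only [map_zpow₀, Sum.elim_inl, Sum.elim_inr, id_eq, ← rkmsk_rh_apply, map_zero,
        add_zero, map_add]
      have e1 : ∀ i : Fin a, mu L i = rvar (RatFun (Fin a) L) i := fun _ => rfl
      have e2 : ∀ i : Fin a, mv L i = rkmsk_rh (Fin a) (RatFun (Fin a) L) (rvar L i) :=
        fun _ => rfl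
      have e3 : ∀ x : L, mcst a x = rkmsk_rh (Fin a) (RatFun (Fin a) L) (rkmsk_rh (Fin a) L x) :=
        fun _ => rfl
      simp only [e1, e2, e3, add_assoc, ← rkmsk_rh_apply] at hc
      rw [← mul_inv_cancel₀ hne]
      nth_rewrite 2 [← hc]
      ring)
  have h5 := congrArg (fun w : (RatFun (Fin a) L)ˣ => (w : RatFun (Fin a) L)) h4
  simp only [Units.val_one] at h5
  rw [hc₀v, hc'] at h5
  have hne' : rkmsk_rh (Fin a) L (c' : L) ≠ 0 := by
    intro h
    exact c'.ne_zero ((map_eq_zero _).1 h)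
  obtain ⟨h6, -⟩ := UL.lin_independent (U := Fin a) (T := Fin a) (E := L) id (fun _ => 0)
    (fun i j hij _ => hij) (fun i => e (Sum.inl (1, i))) c'⁻¹
    (by
      rw [← h5, ← rkmsk_rh_apply, Units.val_inv_eq_inv_val, map_inv₀]
      simp only [← rkmsk_rh_apply, map_zero, add_zero, id_eq]
      ring)
  funext t
  rcases t with ⟨t, i⟩ | j
  · fin_cases t
    · exact congrFun h3 (Sum.inl i)
    · exact congrFun h6 i
    · exact congrFun h3 (Sum.inr i)
  · exact he j

section G8
variable {k : Type} [Field k] [IsAlgClosed k] [CharZero k] {α : Type} [Fintype α]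
  {S : Set (α → k)} {𝓕 : (β : Type) → Set (Set (Pt k α β))}

/-- The masked point. -/
theorem rank_msk (hF : Family S 𝓕) {I : Type} [Fintype I] {a : ℕ} {L : Type} [Field L]
    [Algebra k L] (φ : Fin a → MvPolynomial α k) (s : α → L) (hs : avan S ≤ aloc k s)
    (y : I → Lˣ) :
    rho 𝓕 ((fun i => mcst a (s i), msk φ s y) : Pt (MF a L) α ((Fin 3 × Fin a) ⊕ I)) =
      rho 𝓕 ((s, y) : Pt L α I) + 3 * a := by
  have h := rank_indep (F := L) hF (Sum.inr : I → (Fin 3 × Fin a) ⊕ I) Sum.inr_injective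
    ((fun i => mcst a (s i), msk φ s y) : Pt (MF a L) α ((Fin 3 × Fin a) ⊕ I))
    (by
      change avan S ≤ aloc k (fun i => algebraMap L (MF a L) (s i))
      rw [rkmsk_aloc]
      exact hs)
    (fun i => ⟨s i, rfl⟩) (fun b => ⟨(y b : L), (msk_y φ s y b).symm⟩)
    (fun e he hx => rkmsk_ind φ s y e he hx)
  have h2 : rho 𝓕 (rst (Sum.inr : I → (Fin 3 × Fin a) ⊕ I)
      ((fun i => mcst a (s i), msk φ s y) : Pt (MF a L) α ((Fin 3 × Fin a) ⊕ I))) =
      rho 𝓕 ((s, y) : Pt L α I) := by
    apply rho_congr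
    have h3 : co (rst (Sum.inr : I → (Fin 3 × Fin a) ⊕ I)
        ((fun i => mcst a (s i), msk φ s y) : Pt (MF a L) α ((Fin 3 × Fin a) ⊕ I))) =
        fun i => algebraMap L (MF a L) (co ((s, y) : Pt L α I) i) := by
      funext i
      rcases i with i | j
      · rfl
      · exact msk_y φ s y j
    rw [h3, rkmsk_aloc]
  rw [h2, Fintype.card_sum, Fintype.card_prod, Fintype.card_fin, Fintype.card_fin] at h
  omega

end G8

end Pool.Agent.Lib.MP_a325a5_ag.GM
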