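import Pool.Agent.Lib.MP_a325a5_ag.GM.LeastG
import Pool.Agent.Lib.MP_a325a5_ag.GM.RatAlg
import Pool.Agent.Lib.MP_a325a5_ag.GM.RankB3
import Pool.Agent.Lib.MP_a325a5_ag.GM.RkMsk
import Pool.Agent.Lib.MP_a325a5_ag.UM.VGen

/-! The rank of the generic point of `V_T × ℓ^D`. -/

set_option autoImplicit false

namespace Pool.Agent.Lib.MP_a325a5_ag.GM

open MvPolynomial UM
open UL (mr td locus cst rcst rvar RatFun)

/-- The generic point of `ℓ^D` is multiplicatively independent modulo constants. -/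
private theorem rkVT_line (M : Type) [Field M] (D : Type) [Fintype D] :
    ∃ ℓ : D ⊕ D → (RatFun D M)ˣ, (∀ e, (ℓ (Sum.inl e) : RatFun D M) = rvar M e) ∧
      (∀ e, (ℓ (Sum.inr e) : RatFun D M) = 1 - rvar M e) ∧
      ∀ e : D ⊕ D → ℤ, IsAlgebraic M ((∏ j, ℓ j ^ e j : (RatFun D M)ˣ) : RatFun D M) →
        e = 0 := by
  have h1 : ∀ e : D, rvar M e ≠ 0 := by
    intro e
    have h := UL.rvar_add_rcst_ne_zero (E := M) e 0
    rwa [rcst, map_zero, map_zero, add_zero] at h
  have hone : ∀ e : D, 1 - rvar M e = - (rvar M e + rcst D (-1 : M)) := by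
    intro e
    rw [rcst, map_neg, map_neg, map_one, map_one]
    ring
  have h2 : ∀ e : D, 1 - rvar M e ≠ 0 := by
    intro e
    rw [hone]
    exact neg_ne_zero.mpr (UL.rvar_add_rcst_ne_zero e _)
  let ℓ : D ⊕ D → (RatFun D M)ˣ :=
    Sum.elim (fun e => Units.mk0 (rvar M e) (h1 e)) (fun e => Units.mk0 (1 - rvar M e) (h2 e))
  refine ⟨ℓ, fun e => rfl, fun e => rfl, fun a ha => ?_⟩
  obtain ⟨c, hc⟩ := ratFun_algebraic _ ha
  simp only [Units.coe_prod, Units.val_zpow_eq_zpow_val] at hc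
  have hcst : ∀ w : M, rcst D w = algebraMap M (RatFun D M) w := fun w => rfl
  have h3 := UL.lin_independent (U := D) (T := D ⊕ D) (E := M) (Sum.elim id id)
    (Sum.elim (fun _ => 0) (fun _ => -1)) (by
      rintro (i | i) (j | j) hb hs
      · exact congrArg Sum.inl hb
      · simp at hs
      · simp at hs
      · exact congrArg Sum.inr hb) a (c⁻¹ * ∏ i : D, (-1 : Mˣ) ^ a (Sum.inr i)) (by
      have e1 : ∀ i : D, (rvar M (Sum.elim id id (Sum.inl i : D ⊕ D)) +
          rcst D (Sum.elim (fun _ => (0 : M)) (fun _ => -1) (Sum.inl i : D ⊕ D))) =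
          (ℓ (Sum.inl i) : RatFun D M) := by
        intro i
        rw [Sum.elim_inl, Sum.elim_inl, rcst, map_zero, map_zero, add_zero]
        rfl
      have e2 : ∀ i : D, (ℓ (Sum.inr i) : RatFun D M) ^ a (Sum.inr i) =
          (-1) ^ a (Sum.inr i) * (rvar M (Sum.elim id id (Sum.inr i : D ⊕ D)) +
          rcst D (Sum.elim (fun _ => (0 : M)) (fun _ => -1) (Sum.inr i : D ⊕ D))) ^
            a (Sum.inr i) := by
        intro i
        rw [← mul_zpow]
        congr 1
        rw [Sum.elim_inr, Sum.elim_inr, neg_one_mul]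
        exact hone i
      rw [Fintype.prod_sum_type] at hc
      rw [Finset.prod_congr rfl (fun i _ => e2 i), Finset.prod_mul_distrib] at hc
      rw [Fintype.prod_sum_type,
        Finset.prod_congr rfl (fun i _ => congrArg (fun w => w ^ a (Sum.inl i)) (e1 i))]
      have e3 : rcst D ((c⁻¹ * ∏ i : D, (-1 : Mˣ) ^ a (Sum.inr i) : Mˣ) : M) =
          (rcst D (c : M))⁻¹ * ∏ i : D, (-1 : RatFun D M) ^ a (Sum.inr i) := by
        rw [hcst, hcst, Units.val_mul, map_mul, Units.val_inv_eq_inv_val, map_inv₀,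
          Units.coe_prod, map_prod]
        congr 1
        refine Finset.prod_congr rfl (fun i _ => ?_)
        rw [Units.val_zpow_eq_zpow_val, map_zpow₀]
        simp
      have hc0 : rcst D (c : M) ≠ 0 := by
        rw [hcst]
        exact (map_ne_zero_iff _ (algebraMap M (RatFun D M)).injective).mpr c.ne_zero
      rw [e3]
      rw [mul_assoc, inv_mul_eq_one₀ hc0, ← hc]
      ring)
  exact h3.1

/-- The generic point of `V_T × ℓ^D`. -/
theorem rank_VT {k : Type} [Field k] [IsAlgClosed k] [CharZero k] {α : Type} [Fintype α]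
    {S : Set (α → k)} {𝓕 : (β : Type) → Set (Set (Pt k α β))}
    (hF : Family S 𝓕) (T : Set (α → k)) (hT : T ∈ base 𝓕) {a : ℕ}
    (φ : Fin a → MvPolynomial α k) (hφ : NoetherNorm T φ) (D : Type) [Fintype D] {L : Type}
    [Field L] [Algebra k L] (γ : Pt L α ((Fin 3 × Fin a) ⊕ (D ⊕ D)))
    (hγ : aloc k (co γ) = vanIdeal (VT T φ D)) :
    rho 𝓕 γ = a + (3 * a + 2 * Fintype.card D) := by
  have hUF := base_family hF
  have hTi := hUF.irr T hT
  obtain ⟨M, i1, i2, q, hq⟩ := exists_ageneric T hTi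
  let := i1
  let := i2
  obtain ⟨ℓ, hℓ1, hℓ2, hℓ3⟩ := rkVT_line M D
  let s : α → RatFun D M := fun j => rcst D (q j)
  have hs : aloc k s = avan T := by
    rw [← hq]
    ext f
    rw [mem_aloc, mem_aloc]
    have h1 : aeval s f = algebraMap M (RatFun D M) (aeval q f) := by
      have h2 := MvPolynomial.comp_aeval_apply q (IsScalarTower.toAlgHom k M (RatFun D M)) f
      exact h2.symm
    rw [h1, map_eq_zero_iff _ (algebraMap M (RatFun D M)).injective]
  have hS : avan S ≤ aloc k s := by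
    rw [hs]
    exact avan_anti (hUF.sub T hT)
  have h1 : rho 𝓕 γ = rho 𝓕 ((fun j => mcst a (s j), msk φ s ℓ) :
      Pt (MF a (RatFun D M)) α ((Fin 3 × Fin a) ⊕ (D ⊕ D))) :=
    rho_congr (hγ.trans (VT_point hTi φ hφ D q hq ℓ hℓ1 hℓ2).symm)
  rw [h1, rank_msk hF φ s hS ℓ]
  have h2 := rank_indep hF (β := Empty) (fun e => e.elim) (fun e => e.elim) (F := M)
    ((s, ℓ) : Pt (RatFun D M) α (D ⊕ D)) hS (fun i => ⟨q i, rfl⟩) (fun e => e.elim)
    (fun e _ he => hℓ3 e he)
  have h3 : rst (fun e : Empty => (e.elim : D ⊕ D)) ((s, ℓ) : Pt (RatFun D M) α (D ⊕ D)) =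
      aff s := by
    apply Prod.ext
    · rfl
    · funext e
      exact e.elim
  have h4 : UM.Least (base 𝓕) T s := by
    refine ⟨hT, hs.ge, fun T' hT' h => ?_⟩
    rw [asubset_iff (hUF.irr T' hT'), ← hs]
    exact h
  rw [h3, (least_aff hF s T h4).2, dm_of_noetherNorm hTi hφ, Fintype.card_empty, add_zero,
    Fintype.card_sum] at h2
  rw [h2]
  ring

end Pool.Agent.Lib.MP_a325a5_ag.GM
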