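import Pool.Agent.Lib.MP_a325a5_ag.GM.LeastG
import Pool.Agent.Lib.MP_a325a5_ag.GM.CompG
import Pool.Agent.Lib.MP_a325a5_ag.GM.RankC1
import Pool.Agent.Lib.MP_a325a5_ag.GM.RankC2
import Pool.Agent.Lib.MP_a325a5_ag.GM.RkCfg
import Pool.Agent.Lib.MP_a325a5_ag.GM.RkVT
import Pool.Agent.Lib.MP_a325a5_ag.UM.Typ
import Pool.Agent.Lib.MP_a325a5_ag.UM.LocSet
import Pool.Agent.Lib.MP_a325a5_ag.UM.VGen
import Pool.Agent.Lib.MP_a325a5_ag.UM.Noe
import Pool.Agent.Lib.MP_a325a5_ag.UM.CfgLem
import Pool.Agent.Lib.MP_a325a5_ag.UL.SysInv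
import Pool.Agent.Lib.MP_a325a5_ag.UL.Gen

/-! The generic configuration over a good base point lies on no atypical subvariety of
`V_T × ℓ^D` (Claim A). The proof is the one of `UM.generic_not_mem`; the smallest special subset
containing the configuration is a product, so the rank of every generalisation of the configuration
on `V_T × ℓ^D` is the dimension of `T` plus the multiplicative rank. -/

set_option autoImplicit false

namespace Pool.Agent.Lib.MP_a325a5_ag.GM

open MvPolynomial UM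
open UL (mr td locus cst rcst rvar RatFun Sys genConfig)

/-- The constants of the rational function field, as an algebra homomorphism. -/
private noncomputable def ig_rho (k E U : Type) [Field k] [Field E] [Algebra k E] :
    E →ₐ[k] RatFun U E :=
  { toRingHom := (algebraMap (MvPolynomial U E) (RatFun U E)).comp C
    commutes' := by
      intro r
      rw [IsScalarTower.algebraMap_apply k (MvPolynomial U E) (RatFun U E)]
      rfl }

private theorem ig_aloc_rcst {k E U : Type} [Field k] [Field E] [Algebra k E] {α : Type}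
    (s : α → E) : aloc k (fun i => rcst U (s i)) = aloc k s := by
  ext f
  rw [mem_aloc, mem_aloc]
  have h1 : aeval (fun i => rcst U (s i)) f = ig_rho k E U (aeval s f) :=
    (MvPolynomial.comp_aeval_apply s (ig_rho k E U) f).symm
  rw [h1]
  exact map_eq_zero_iff _ (ig_rho k E U).toRingHom.injective

private theorem ig_locus_comp {K L L' : Type} [Field K] [Field L] [Algebra K L] [Field L']
    [Algebra K L'] {β J : Type} (g : J → β) (p : β → Lˣ) (p' : β → L'ˣ)
    (h : locus K p' ≤ locus K p) :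
    locus K (fun j => p' (g j)) ≤ locus K (fun j => p (g j)) := by
  intro f hf
  have h1 : rename g f ∈ locus K p' := by
    rw [UL.mem_locus, aeval_rename]
    exact UL.mem_locus.mp hf
  have h2 := UL.mem_locus.mp (h h1)
  rw [aeval_rename] at h2
  exact UL.mem_locus.mpr h2

/-- The affine coordinates and the masks do not raise the transcendence degree. -/
private theorem ig_atd_le {J α : Type} [Fintype J] [Fintype α] {a : ℕ} {k L : Type} [Field k]
    [Field L] [Algebra k L] {T : Set (α → k)} {φ : Fin a → MvPolynomial α k}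
    (hφ : NoetherNorm T φ) (p : Pt L α ((Fin 3 × Fin a) ⊕ J)) (hT : avan T ≤ aloc k p.1)
    (hw : ∀ i, (p.2 (Sum.inl (2, i)) : L) =
      p.2 (Sum.inl (0, i)) + p.2 (Sum.inl (1, i)) + aeval p.1 (φ i))
    (A : (Fin 3 × Fin a) → J → ℤ) (hA : ∀ i, p.2 (Sum.inl i) = ∏ j, p.2 (Sum.inr j) ^ A i j) :
    atd k (co p) ≤ td k (fun j => p.2 (Sum.inr j)) := by
  rw [ul_td]
  have hpt : ∀ j, IsAlgebraic (Algebra.adjoin k (Set.range fun j => (p.2 (Sum.inr j) : L)))
      (p.2 (Sum.inr j) : L) := fun j =>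
    isAlgebraic_algebraMap (⟨_, Algebra.subset_adjoin ⟨j, rfl⟩⟩ :
      Algebra.adjoin k (Set.range fun j => (p.2 (Sum.inr j) : L)))
  have hmask : ∀ i, IsAlgebraic (Algebra.adjoin k (Set.range fun j => (p.2 (Sum.inr j) : L)))
      (p.2 (Sum.inl i) : L) := by
    intro i
    rw [hA i, Units.coe_prod]
    refine prod_mem (S := Subalgebra.algebraicClosure
      (Algebra.adjoin k (Set.range fun j => (p.2 (Sum.inr j) : L))) L) fun j _ => ?_
    rw [Units.val_zpow_eq_zpow_val]
    change IsAlgebraic _ _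
    rcases A i j with n | n
    · rw [Int.ofNat_eq_natCast, zpow_natCast]
      exact (hpt j).pow n
    · rw [zpow_negSucc]
      exact ((hpt j).pow (n + 1)).inv
  have hphi : ∀ i, IsAlgebraic (Algebra.adjoin k (Set.range fun j => (p.2 (Sum.inr j) : L)))
      (aeval p.1 (φ i)) := by
    intro i
    have e : aeval p.1 (φ i) = (p.2 (Sum.inl (2, i)) : L) - p.2 (Sum.inl (0, i)) -
        p.2 (Sum.inl (1, i)) := by
      rw [hw i]; ring
    rw [e]
    exact ((hmask _).sub (hmask _)).sub (hmask _)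
  apply atd_le_of_algebraic
  rintro (i | i | j)
  · refine isAlgebraic_adjoin_trans ?_ (hφ.isAlgebraic p.1 hT i)
    rintro _ ⟨l, rfl⟩
    exact hphi l
  · exact hmask i
  · exact hpt j

theorem generic_not_mem {I α : Type} [Fintype I] [Fintype α] {a : ℕ}
    (S : Sys ((Fin 3 × Fin a) ⊕ I)) {k E : Type} [Field k] [IsAlgClosed k] [CharZero k] [Field E]
    [Algebra k E] {S₀ : Set (α → k)} {𝓕 : (β : Type) → Set (Set (Pt k α β))}
    (hF : Family S₀ 𝓕) {T : Set (α → k)} {φ : Fin a → MvPolynomial α k} (hφ : NoetherNorm T φ)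
    (s : α → E) (hT : UM.Least (base 𝓕) T s) (y : (Fin 3 × Fin a) ⊕ I → Eˣ)
    (hy : ∀ b, S.rel y b = 0)
    (hw : ∀ i, (y (Sum.inl (2, i)) : E) =
      y (Sum.inl (0, i)) + y (Sum.inl (1, i)) + aeval s (φ i))
    (hind : mr y = Fintype.card ((Fin 3 × Fin a) ⊕ I))
    (hrho : rho 𝓕 ((s, y) : Pt E α ((Fin 3 × Fin a) ⊕ I)) =
      a + Fintype.card ((Fin 3 × Fin a) ⊕ I))
    (hdist : ∀ b l l', S.part y b l = S.part y b l' → l = l')
    (hcard : Fintype.card S.B + td k y = Fintype.card ((Fin 3 × Fin a) ⊕ I))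
    (hiso : ∀ (L' : Type) [Field L'] [Algebra k L'] (y' : (Fin 3 × Fin a) ⊕ I → L'ˣ),
      locus k y' ≤ locus k y → (∀ b, S.rel y' b = 0) → td k y' ≤ td k y)
    (Z : Set (Pt k α ((Fin 3 × Fin a) ⊕ (S.D ⊕ S.D)))) (hZ : Atypical 𝓕 (VT T φ S.D) Z) :
    ¬ vanIdeal Z ≤ aloc k (co (cfgPt S s y hy)) := by
  intro hle
  have hbase := base_family hF
  have hTirr : AIrr T := hbase.irr T hT.1
  have hTS : T ⊆ S₀ := hbase.sub T hT.1
  have hVirr := VT_irrClosed hTirr φ hφ S.D
  have hVS : ∀ p ∈ VT T φ S.D, p.1 ∈ bc k S₀ := fun p hp => by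
    rw [bc_self (hbase.irr S₀ hbase.top)]
    exact hTS hp.1
  obtain ⟨⟨hZirr, hZsub, -, -⟩, -⟩ := id hZ
  obtain ⟨L₁, _, _, γ, hγ⟩ := exists_generic Z hZirr
  obtain ⟨L₀, _, _, γV, hγV, -, htdV, -⟩ := VT_generic hTirr φ hφ S.D
  have hspec : aloc k (co γ) ≤ aloc k (co (cfgPt S s y hy)) := hγ.le.trans hle
  have hVZ : vanIdeal (VT T φ S.D) ≤ aloc k (co γ) := (vanIdeal_anti hZsub).trans hγ.ge
  have hTγ := ((VT_le_aloc hTirr φ hφ S.D γ).mp hVZ).1
  have haff : aloc k (cfgPt S s y hy).1 = aloc k s := ig_aloc_rcst s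
  have hfst : aloc k γ.1 ≤ aloc k s := (aloc_fst_le (cfgPt S s y hy) γ hspec).trans haff.le
  have hleastγ : UM.Least (base 𝓕) T γ.1 :=
    ⟨hT.1, hTγ, fun T' hT' h => hT.2.2 T' hT' (h.trans hfst)⟩
  have hleastτ : UM.Least (base 𝓕) T (cfgPt S s y hy).1 :=
    ⟨hT.1, hT.2.1.trans haff.ge, fun T' hT' h => hT.2.2 T' hT' (h.trans haff.le)⟩
  have hS0T : avan S₀ ≤ avan T := avan_anti hTS
  have hdT : UM.dm T = a := dm_of_noetherNorm hTirr hφ
  have hA := atypical_lt hF (VT T φ S.D) Z hVirr hVS hZ γV γ hγV hγ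
  rw [rank_VT hF T hT.1 φ hφ S.D γV hγV, htdV] at hA
  have hmr : mr (genConfig S y hy).pt = 4 * Fintype.card ((Fin 3 × Fin a) ⊕ I) +
      ∑ b : S.B, (S.m b + 1) := by
    rw [UL.Config.mr_pt, UL.mr_genConfig S y hy hind hdist]
  have hmrτ := mr_cfgPt S s y hy
  have hrτ := rank_cfgPt hF S s (hS0T.trans hT.2.1) y hy hind hdist
  obtain ⟨U, hU⟩ := exists_least hF (cfgPt S s y hy) (hS0T.trans hleastτ.2.1)
  obtain ⟨Uγ, hUγ⟩ := exists_least hF γ (hS0T.trans hTγ)
  obtain ⟨C, hC, hCU⟩ := least_prod hF (cfgPt S s y hy) T hleastτ U hU (by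
    rw [hrτ, hrho, hdT, hmrτ, hmr]; ring)
  have hrγ := rank_prod hF γ T hleastγ C hC Uγ hUγ (hCU.trans (hU.subset hUγ hspec))
  rw [hrγ, hdT] at hA
  obtain ⟨A, hAexp⟩ := UL.exists_base_exponents S
  have htdv := UL.td_genConfig S (k := k) y hy
  have htdτ := atd_cfgPt S hφ s hT.2.1 y hy hw
  have hcD := S.card_D
  have key := typical γ (cfgPt S s y hy) hspec (by
    intro L' _ _ τ' h1 h2 h3
    obtain ⟨g1, g2, g3⟩ := (VT_le_aloc hTirr φ hφ S.D τ').mp (hVZ.trans h1)
    obtain ⟨v', hv'⟩ := UL.exists_config S (K := k) (genConfig S y hy)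
      (fun j => τ'.2 (Sum.inr j)) g3 (by
        intro e ζ hζ he
        have h4 := h3 (Sum.elim (fun _ => 0) e) ζ hζ (by
          rw [Fintype.prod_sum_type]
          simp only [Sum.elim_inl, Sum.elim_inr, zpow_zero, Finset.prod_const_one, one_mul]
          exact he)
        rw [Fintype.prod_sum_type] at h4
        simp only [Sum.elim_inl, Sum.elim_inr, zpow_zero, Finset.prod_const_one, one_mul] at h4
        exact h4)
    have hmono : ∀ i, τ'.2 (Sum.inl i) = ∏ j, τ'.2 (Sum.inr j) ^ A (Sum.inl i) j := by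
      classical
      intro i
      have hone : IsOfFinOrder (1 : kˣ) := IsOfFinOrder.one
      have h4 := h3 (Sum.elim (Pi.single i 1) (fun j => - A (Sum.inl i) j)) 1 hone (by
        rw [Fintype.prod_sum_type]
        simp only [Sum.elim_inl, Sum.elim_inr, map_one]
        rw [Finset.prod_eq_single i (fun b _ hb => by rw [Pi.single_eq_of_ne hb, zpow_zero])
          (fun h => absurd (Finset.mem_univ i) h), Pi.single_eq_same, zpow_one]
        have h5 := hAexp _ (genConfig S y hy) (Sum.inl i)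
        change (genConfig S y hy).y (Sum.inl i) *
          ∏ j, (genConfig S y hy).pt j ^ (- A (Sum.inl i) j) = 1
        rw [h5]
        simp only [zpow_neg, Finset.prod_inv_distrib]
        exact mul_inv_cancel _)
      rw [Fintype.prod_sum_type] at h4
      simp only [Sum.elim_inl, Sum.elim_inr, map_one] at h4
      rw [Finset.prod_eq_single i (fun b _ hb => by rw [Pi.single_eq_of_ne hb, zpow_zero])
        (fun h => absurd (Finset.mem_univ i) h), Pi.single_eq_same, zpow_one] at h4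
      simp only [zpow_neg, Finset.prod_inv_distrib] at h4
      exact mul_inv_eq_one.mp h4
    have hloc : locus k v'.y ≤ locus k (genConfig S y hy).y := by
      have h4 : locus k (fun j => τ'.2 (Sum.inr j)) ≤ locus k (genConfig S y hy).pt :=
        ig_locus_comp Sum.inr (cfgPt S s y hy).2 τ'.2 (locus_snd_le _ _ h2)
      have h5 := UL.locus_monomial_le (K := k) (genConfig S y hy).pt _ h4 A (fun _ => 1)
      have e1 : (fun j => cst k L' ((fun _ => 1 : (Fin 3 × Fin a) ⊕ I → kˣ) j) *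
          ∏ i, τ'.2 (Sum.inr i) ^ A j i) = v'.y := by
        funext j
        rw [map_one, one_mul, hAexp L' v' j, hv']
      have e2 : (fun j => cst k (RatFun (((Fin 3 × Fin a) ⊕ I) ⊕ S.B) E)
          ((fun _ => 1 : (Fin 3 × Fin a) ⊕ I → kˣ) j) *
          ∏ i, (genConfig S y hy).pt i ^ A j i) = (genConfig S y hy).y := by
        funext j
        rw [map_one, one_mul, hAexp _ (genConfig S y hy) j]
      rw [e1, e2] at h5
      exact h5
    have h5 := hiso L' v'.y (hloc.trans (UL.locus_genConfig_y S y hy).le)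
      (fun b => v'.rel_eq_zero b)
    have h6 := v'.td_pt_le (K := k)
    rw [hv'] at h6
    have h7 := ig_atd_le hφ τ' g1 g2 (fun i => A (Sum.inl i)) hmono
    omega)
  omega

end Pool.Agent.Lib.MP_a325a5_ag.GM
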