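import Pool.Agent.Lib.MP_a325a5_ag.GM.RankB1
import Pool.Agent.Lib.MP_a325a5_ag.GM.RankB2
import Pool.Agent.Lib.MP_a325a5_ag.UL.ConfMr
import Pool.Agent.Lib.MP_a325a5_ag.UM.CfgPt

/-! The rank of the configuration point: upper bound. -/

set_option autoImplicit false

namespace Pool.Agent.Lib.MP_a325a5_ag.GM

open MvPolynomial UM
open UL (mr td locus cst rcst rvar RatFun Sys genConfig)

/-! ### The constants of the rational function field -/

/-- The constants as an algebra homomorphism. -/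
noncomputable def rkcfgRho (k E U : Type) [Field k] [Field E] [Algebra k E] :
    E →ₐ[k] RatFun U E :=
  { toRingHom := (algebraMap (MvPolynomial U E) (RatFun U E)).comp C
    commutes' := by
      intro r
      rw [IsScalarTower.algebraMap_apply k (MvPolynomial U E) (RatFun U E)]
      rfl }

theorem rkcfgRho_apply (k E U : Type) [Field k] [Field E] [Algebra k E] (c : E) :
    rkcfgRho k E U c = rcst U c := rfl

theorem rkcfg_aeval {k E U α : Type} [Field k] [Field E] [Algebra k E] (s : α → E)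
    (f : MvPolynomial α k) : aeval (fun i => rcst U (s i)) f = rcst U (aeval s f) := by
  rw [← rkcfgRho_apply k E U (aeval s f), ← AlgHom.comp_apply]
  congr 1
  ext i
  rw [aeval_X, AlgHom.comp_apply, aeval_X, rkcfgRho_apply]

theorem rkcfg_aloc {k E U α : Type} [Field k] [Field E] [Algebra k E] (s : α → E) :
    aloc k (fun i => rcst U (s i)) = aloc k s := by
  ext f
  rw [mem_aloc, mem_aloc, rkcfg_aeval]
  exact map_eq_zero_iff _ (rkcfgRho k E U).toRingHom.injective

/-! ### Monomials -/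

/-- The elements of the subgroup generated by finitely many elements are monomials. -/
theorem rkcfg_monomial {ι G : Type} [Fintype ι] [CommGroup G] (p : ι → G) {x : G}
    (hx : x ∈ Subgroup.closure (Set.range p)) : ∃ a : ι → ℤ, x = ∏ i, p i ^ a i := by
  classical
  induction hx using Subgroup.closure_induction with
  | mem x hx =>
    obtain ⟨i, rfl⟩ := hx
    refine ⟨Pi.single i 1, ?_⟩
    rw [Finset.prod_eq_single i]
    · rw [Pi.single_eq_same, zpow_one]
    · intro j _ hj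
      rw [Pi.single_eq_of_ne hj, zpow_zero]
    · intro h
      exact absurd (Finset.mem_univ i) h
  | one => exact ⟨0, by simp⟩
  | mul x y _ _ hx hy =>
    obtain ⟨a, ha⟩ := hx
    obtain ⟨b, hb⟩ := hy
    refine ⟨a + b, ?_⟩
    rw [ha, hb, ← Finset.prod_mul_distrib]
    apply Finset.prod_congr rfl
    intro i _
    rw [Pi.add_apply, zpow_add]
  | inv x _ hx =>
    obtain ⟨a, ha⟩ := hx
    refine ⟨-a, ?_⟩
    rw [ha, ← Finset.prod_inv_distrib]
    apply Finset.prod_congr rfl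
    intro i _
    rw [Pi.neg_apply, zpow_neg]

section
variable {I : Type} [Fintype I] {S' : Sys I} {L : Type} [Field L]

private theorem rkcfg_sgn_sq (ε : ℤˣ) : UL.sgnUnit L ε ^ 2 = 1 := by
  unfold UL.sgnUnit
  rw [← map_pow]
  rcases Int.units_eq_one_or ε with h | h <;> rw [h] <;> simp

private theorem rkcfg_term_sq (v : UL.Config S' L) (b : S'.B) (k : Fin (S'.m b + 1))
    (H : Subgroup Lˣ) (hy : ∀ i, v.y i ∈ H) : S'.term v.y b k ^ 2 ∈ H := by
  unfold UL.Sys.term
  rw [mul_pow, rkcfg_sgn_sq, one_mul]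
  exact pow_mem (Subgroup.prod_mem _ fun i _ => pow_mem (hy i) _) 2

/-- The squares of the numerators are monomials in the nodes. -/
theorem rkcfg_pt_sq (v : UL.Config S' L) (j : S'.D ⊕ S'.D) :
    v.pt j ^ 2 ∈ Subgroup.closure (Set.range v.all) := by
  have hy : ∀ i, v.y i ∈ Subgroup.closure (Set.range v.all) := fun i =>
    Subgroup.subset_closure ⟨Sum.inl (Sum.inl i), rfl⟩
  have ha : ∀ j i, v.a j i ∈ Subgroup.closure (Set.range v.all) := fun j i =>
    Subgroup.subset_closure ⟨Sum.inl (Sum.inr (j, i)), rfl⟩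
  have hs : ∀ b k, v.s b k ∈ Subgroup.closure (Set.range v.all) := fun b k =>
    Subgroup.subset_closure ⟨Sum.inr ⟨b, k⟩, rfl⟩
  rcases j with (((i | i) | ⟨b, k⟩) | ((i | i) | ⟨b, k⟩))
  · exact pow_mem (div_mem (ha 0 i) (ha 1 i)) 2
  · exact pow_mem (div_mem (ha 1 i) (ha 2 i)) 2
  · exact pow_mem (div_mem (hs b k) (hs b (k + 1))) 2
  · exact pow_mem (div_mem (one_mem _) (ha 1 i)) 2
  · exact pow_mem (div_mem (hy i) (ha 2 i)) 2
  · change (S'.term v.y b k / v.s b (k + 1)) ^ 2 ∈ _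
    rw [div_pow]
    exact div_mem (rkcfg_term_sq v b k _ hy) (pow_mem (hs b (k + 1)) 2)

/-- The squares of the nodes are monomials in the numerators. -/
theorem rkcfg_all_sq (v : UL.Config S' L) (j : S'.V) :
    v.all j ^ 2 ∈ Subgroup.closure (Set.range v.pt) := by
  have h1 : ∀ i, v.a 1 i ∈ Subgroup.closure (Set.range v.pt) := by
    intro i
    have h : v.pt (Sum.inr (Sum.inl (Sum.inl i))) ∈ Subgroup.closure (Set.range v.pt) :=
      Subgroup.subset_closure ⟨_, rfl⟩
    have e : v.a 1 i = (v.pt (Sum.inr (Sum.inl (Sum.inl i))))⁻¹ := by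
      change v.a 1 i = (1 / v.a 1 i)⁻¹
      rw [one_div, inv_inv]
    rw [e]
    exact inv_mem h
  have h0 : ∀ i, v.a 0 i ∈ Subgroup.closure (Set.range v.pt) := by
    intro i
    have h : v.pt (Sum.inl (Sum.inl (Sum.inl i))) ∈ Subgroup.closure (Set.range v.pt) :=
      Subgroup.subset_closure ⟨_, rfl⟩
    have e : v.a 0 i = v.pt (Sum.inl (Sum.inl (Sum.inl i))) * v.a 1 i := by
      change v.a 0 i = (v.a 0 i / v.a 1 i) * v.a 1 i
      rw [div_mul_cancel]
    rw [e]
    exact mul_mem h (h1 i)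
  have h2 : ∀ i, v.a 2 i ∈ Subgroup.closure (Set.range v.pt) := by
    intro i
    have h : v.pt (Sum.inl (Sum.inl (Sum.inr i))) ∈ Subgroup.closure (Set.range v.pt) :=
      Subgroup.subset_closure ⟨_, rfl⟩
    have e : v.a 2 i = v.a 1 i / v.pt (Sum.inl (Sum.inl (Sum.inr i))) := by
      change v.a 2 i = v.a 1 i / (v.a 1 i / v.a 2 i)
      rw [div_div_cancel]
    rw [e]
    exact div_mem (h1 i) h
  have hy : ∀ i, v.y i ∈ Subgroup.closure (Set.range v.pt) := by
    intro i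
    have h : v.pt (Sum.inr (Sum.inl (Sum.inr i))) ∈ Subgroup.closure (Set.range v.pt) :=
      Subgroup.subset_closure ⟨_, rfl⟩
    have e : v.y i = v.pt (Sum.inr (Sum.inl (Sum.inr i))) * v.a 2 i := by
      change v.y i = (v.y i / v.a 2 i) * v.a 2 i
      rw [div_mul_cancel]
    rw [e]
    exact mul_mem h (h2 i)
  rcases j with ((i | ⟨j, i⟩) | ⟨b, k⟩)
  · exact pow_mem (hy i) 2
  · change v.a j i ^ 2 ∈ _
    fin_cases j
    · exact pow_mem (h0 i) 2
    · exact pow_mem (h1 i) 2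
    · exact pow_mem (h2 i) 2
  · change v.s b k ^ 2 ∈ _
    have h : v.pt (Sum.inr (Sum.inr ⟨b, k - 1⟩)) ∈ Subgroup.closure (Set.range v.pt) :=
      Subgroup.subset_closure ⟨_, rfl⟩
    have e : v.s b k = S'.term v.y b (k - 1) / v.pt (Sum.inr (Sum.inr ⟨b, k - 1⟩)) := by
      change v.s b k = S'.term v.y b (k - 1) / (S'.term v.y b (k - 1) / v.s b (k - 1 + 1))
      rw [div_div_cancel, sub_add_cancel]
    rw [e, div_pow]
    exact div_mem (rkcfg_term_sq v b (k - 1) _ hy) (pow_mem h 2)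

end

section
variable {k : Type} [Field k] [IsAlgClosed k] [CharZero k] {α : Type} [Fintype α]
  {S : Set (α → k)} {𝓕 : (β : Type) → Set (Set (Pt k α β))}

/-- The rank of the configuration point is the rank of the point of all nodes. -/
theorem rkcfg_rho_eq (hF : Family S 𝓕) {κ I : Type} [Fintype κ] [Fintype I] (S' : Sys (κ ⊕ I))
    {E : Type} [Field E] [Algebra k E] (s : α → E) (hs : avan S ≤ aloc k s) (y : κ ⊕ I → Eˣ)
    (hy : ∀ b, S'.rel y b = 0) :
    rho 𝓕 (cfgPt S' s y hy) =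
      rho 𝓕 ((fun i => rcst ((κ ⊕ I) ⊕ S'.B) (s i), (genConfig S' y hy).all) :
        Pt (RatFun ((κ ⊕ I) ⊕ S'.B) E) α S'.V) := by
  let W : Pt (RatFun ((κ ⊕ I) ⊕ S'.B) E) α ((κ ⊕ (S'.D ⊕ S'.D)) ⊕ S'.V) :=
    (fun i => rcst ((κ ⊕ I) ⊕ S'.B) (s i),
      Sum.elim (cfgPt S' s y hy).2 (genConfig S' y hy).all)
  have hW : avan S ≤ aloc k W.1 := by
    change avan S ≤ aloc k (fun i => rcst ((κ ⊕ I) ⊕ S'.B) (s i))
    rw [rkcfg_aloc]
    exact hs
  have h1 : rho 𝓕 W = rho 𝓕 (rst Sum.inr W) := by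
    apply rank_monomial hF Sum.inr Sum.inr_injective W hW
    rintro ((i | j) | j)
    · obtain ⟨a, ha⟩ := rkcfg_monomial (genConfig S' y hy).all
        (Subgroup.subset_closure ⟨Sum.inl (Sum.inl (Sum.inl i)), rfl⟩ :
          (genConfig S' y hy).y (Sum.inl i) ∈
            Subgroup.closure (Set.range (genConfig S' y hy).all))
      refine ⟨1, a, 1, one_pos, IsOfFinOrder.one, ?_⟩
      rw [pow_one, one_mul]
      exact ha
    · obtain ⟨a, ha⟩ := rkcfg_monomial _ (rkcfg_pt_sq (genConfig S' y hy) j)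
      refine ⟨2, a, 1, two_pos, IsOfFinOrder.one, ?_⟩
      rw [one_mul]
      exact ha
    · obtain ⟨a, ha⟩ := rkcfg_monomial (genConfig S' y hy).all
        (Subgroup.subset_closure ⟨j, rfl⟩ : (genConfig S' y hy).all j ∈
            Subgroup.closure (Set.range (genConfig S' y hy).all))
      refine ⟨1, a, 1, one_pos, IsOfFinOrder.one, ?_⟩
      rw [pow_one, one_mul]
      exact ha
  have h2 : rho 𝓕 W = rho 𝓕 (rst Sum.inl W) := by
    have hsub : Set.range (genConfig S' y hy).pt ⊆ Set.range (cfgPt S' s y hy).2 := by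
      rintro _ ⟨j, rfl⟩
      exact ⟨Sum.inr j, rfl⟩
    apply rank_monomial hF Sum.inl Sum.inl_injective W hW
    rintro (j | j)
    · obtain ⟨a, ha⟩ := rkcfg_monomial (cfgPt S' s y hy).2
        (Subgroup.subset_closure ⟨j, rfl⟩ : (cfgPt S' s y hy).2 j ∈
            Subgroup.closure (Set.range (cfgPt S' s y hy).2))
      refine ⟨1, a, 1, one_pos, IsOfFinOrder.one, ?_⟩
      rw [pow_one, one_mul]
      exact ha
    · obtain ⟨a, ha⟩ := rkcfg_monomial (cfgPt S' s y hy).2
        (Subgroup.closure_mono hsub (rkcfg_all_sq (genConfig S' y hy) j))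
      refine ⟨2, a, 1, two_pos, IsOfFinOrder.one, ?_⟩
      rw [one_mul]
      exact ha
  have e1 : rst Sum.inl W = cfgPt S' s y hy := rfl
  have e2 : rst Sum.inr W =
      ((fun i => rcst ((κ ⊕ I) ⊕ S'.B) (s i), (genConfig S' y hy).all) :
        Pt (RatFun ((κ ⊕ I) ⊕ S'.B) E) α S'.V) := rfl
  rw [← e1, ← e2, ← h1, ← h2]

/-- The rank of the base point of the generic configuration. -/
theorem rkcfg_rho_y {I : Type} [Fintype I] (S' : Sys I) {E : Type} [Field E] [Algebra k E]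
    (s : α → E) (y : I → Eˣ) (hy : ∀ b, S'.rel y b = 0) :
    rho 𝓕 ((fun i => rcst (I ⊕ S'.B) (s i), (genConfig S' y hy).y) :
      Pt (RatFun (I ⊕ S'.B) E) α I) = rho 𝓕 ((s, y) : Pt E α I) := by
  apply rho_congr
  have e : co ((fun i => rcst (I ⊕ S'.B) (s i), (genConfig S' y hy).y) :
      Pt (RatFun (I ⊕ S'.B) E) α I) = fun j => rcst (I ⊕ S'.B) (co ((s, y) : Pt E α I) j) := by
    funext j
    rcases j with j | j
    · rfl
    · exact UL.genConfig_y S' y hy j
  rw [e, rkcfg_aloc]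

/-- The configuration: upper bound. -/
theorem rank_cfgPt_le (hF : Family S 𝓕) {κ I : Type} [Fintype κ] [Fintype I] (S' : Sys (κ ⊕ I))
    {E : Type} [Field E] [Algebra k E] (s : α → E) (hs : avan S ≤ aloc k s) (y : κ ⊕ I → Eˣ)
    (hy : ∀ b, S'.rel y b = 0) :
    rho 𝓕 (cfgPt S' s y hy) ≤ rho 𝓕 ((s, y) : Pt E α (κ ⊕ I)) +
      3 * Fintype.card (κ ⊕ I) + ∑ b : S'.B, (S'.m b + 1) := by
  rw [rkcfg_rho_eq hF S' s hs y hy]
  have hW : avan S ≤ aloc k (fun i => rcst ((κ ⊕ I) ⊕ S'.B) (s i)) := by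
    rw [rkcfg_aloc]
    exact hs
  have h1 := (rank_le_add hF (fun i : κ ⊕ I => (Sum.inl (Sum.inl i) : S'.V))
    (fun i j h => Sum.inl_injective (Sum.inl_injective h))
    ((fun i => rcst ((κ ⊕ I) ⊕ S'.B) (s i), (genConfig S' y hy).all) :
        Pt (RatFun ((κ ⊕ I) ⊕ S'.B) E) α S'.V) hW).2
  have h2 := rkcfg_rho_y (𝓕 := 𝓕) S' s y hy
  have e1 : rst (fun i : κ ⊕ I => (Sum.inl (Sum.inl i) : S'.V))
      ((fun i => rcst ((κ ⊕ I) ⊕ S'.B) (s i), (genConfig S' y hy).all) :
        Pt (RatFun ((κ ⊕ I) ⊕ S'.B) E) α S'.V) =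
      ((fun i => rcst ((κ ⊕ I) ⊕ S'.B) (s i), (genConfig S' y hy).y) :
      Pt (RatFun ((κ ⊕ I) ⊕ S'.B) E) α (κ ⊕ I)) := rfl
  rw [e1, h2, UL.Sys.card_V] at h1
  omega

end

end Pool.Agent.Lib.MP_a325a5_ag.GM
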