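import Pool.Agent.Lib.MP_a325a5_ag.GM.RankA2
import Pool.Agent.Lib.MP_a325a5_ag.GM.RankB1
import Pool.Agent.Lib.MP_a325a5_ag.GM.RankB2
import Pool.Agent.Lib.MP_a325a5_ag.GM.RankB4
import Pool.Agent.Lib.MP_a325a5_ag.UM.TD
import Pool.Agent.Lib.MP_a325a5_ag.UL.MRloc

/-! GM, G9: adding constants, for all special families. The part on constants is the one of
UM/SeedM.lean (helper8, after UL/Seed.lean by helper51).

`Γ = (γ, c)`, `W = (x, c)`. `I` = a maximal set of torus coordinates of `Γ` which is independent of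
`γ.1` (`rho = rho (aff γ.1) + I.card`). All other coordinates are dependent on `Γ_I`, so the same
holds for `W` (`rank_persist`), and they are algebraic over `W_I` (`rank_dep_alg`). -/

set_option autoImplicit false

namespace Pool.Agent.Lib.MP_a325a5_ag.GM

open MvPolynomial UM
open UL (mr td locus cst)

section
variable {k K F : Type} [Field k] [Field K] [Field F] [Algebra k K] [Algebra K F] [Algebra k F]
  [IsScalarTower k K F]

/-- finitely many constants suffice for one algebraic equation -/
private theorem seedG_one {J : Type} (g : J → F) (hg : AlgebraicIndependent K g) (x : F)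
    (hx : IsAlgebraic (Algebra.adjoin K (Set.range g)) x) :
    ∃ T : Finset Kˣ, IsAlgebraic (Algebra.adjoin k
      (((fun u : Kˣ => algebraMap K F (u : K)) '' (T : Set Kˣ)) ∪ Set.range g)) x := by
  classical
  have hnot : ¬ AlgebraicIndependent K (fun o : Option J => o.elim x g) := by
    intro h
    exact (AlgebraicIndependent.option_iff.mp h).2 hx
  rw [algebraicIndependent_iff] at hnot
  push Not at hnot
  obtain ⟨P, hP1, hP2⟩ := hnot
  set T : Finset Kˣ := P.support.attach.image
    (fun m => Units.mk0 (P.coeff m.1) (MvPolynomial.mem_support_iff.mp m.2)) with hT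
  refine ⟨T, ?_⟩
  set TK : Set K := (fun u : Kˣ => (u : K)) '' (T : Set Kˣ) with hTK
  set k1 : Subalgebra k K := Algebra.adjoin k TK with hk1
  have hcoef : ∀ m, P.coeff m ∈ k1 := by
    intro m
    by_cases hm : m ∈ P.support
    · refine Algebra.subset_adjoin ⟨Units.mk0 (P.coeff m) (MvPolynomial.mem_support_iff.mp hm), ?_, rfl⟩
      rw [Finset.mem_coe, hT, Finset.mem_image]
      exact ⟨⟨m, hm⟩, Finset.mem_attach _ _, rfl⟩
    · rw [MvPolynomial.notMem_support_iff.mp hm]
      exact k1.zero_mem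
  -- the polynomial over `k1`
  obtain ⟨P1, hP1'⟩ : ∃ P1 : MvPolynomial (Option J) k1, MvPolynomial.map (algebraMap k1 K) P1 = P := by
    refine MvPolynomial.mem_range_map_iff_coeffs_subset.mpr ?_
    intro a ha
    obtain ⟨m, _, rfl⟩ := MvPolynomial.mem_coeffs_iff.mp ha
    exact ⟨⟨P.coeff m, hcoef m⟩, rfl⟩
  have hinj : Function.Injective (algebraMap k1 K) := Subtype.val_injective
  have hg1 : AlgebraicIndependent k1 g := hg.restrictScalars hinj
  have halg1 : IsAlgebraic (Algebra.adjoin k1 (Set.range g)) x := by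
    by_contra hcon
    have h1 : AlgebraicIndependent k1 (fun o : Option J => o.elim x g) :=
      AlgebraicIndependent.option_iff.mpr ⟨hg1, hcon⟩
    rw [algebraicIndependent_iff] at h1
    apply hP2
    rw [← hP1']
    rw [h1 P1, map_zero]
    rw [← hP1, ← hP1', MvPolynomial.aeval_map_algebraMap]
  -- compare the two algebras
  set S2 : Subalgebra k F := Algebra.adjoin k
      (((fun u : Kˣ => algebraMap K F (u : K)) '' (T : Set Kˣ)) ∪ Set.range g) with hS2
  have hle : (Algebra.adjoin k1 (Set.range g)).restrictScalars k ≤ S2 := by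
    intro z hz
    rw [Subalgebra.mem_restrictScalars] at hz
    induction hz using Algebra.adjoin_induction with
    | mem y hy => exact Algebra.subset_adjoin (Or.inr hy)
    | algebraMap r =>
      have h2 : algebraMap k1 F r = (IsScalarTower.toAlgHom k K F) r.1 := rfl
      rw [h2]
      have h3 : (IsScalarTower.toAlgHom k K F) r.1 ∈ k1.map (IsScalarTower.toAlgHom k K F) :=
        ⟨r.1, r.2, rfl⟩
      have h4 : k1.map (IsScalarTower.toAlgHom k K F) ≤ S2 := by
        rw [hk1, AlgHom.map_adjoin]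
        refine Algebra.adjoin_mono ?_
        rintro _ ⟨_, ⟨u, hu, rfl⟩, rfl⟩
        exact Or.inl ⟨u, hu, rfl⟩
      exact h4 h3
    | add _ _ _ _ ha hb => exact S2.add_mem ha hb
    | mul _ _ _ _ ha hb => exact S2.mul_mem ha hb
  have halg2 : IsAlgebraic ((Algebra.adjoin k1 (Set.range g)).restrictScalars k) x := halg1
  obtain ⟨p, hp1, hp2⟩ := halg2
  refine ⟨p.map (Subalgebra.inclusion hle).toRingHom, ?_, ?_⟩
  · intro h
    apply hp1
    exact (Polynomial.map_eq_zero_iff (Subalgebra.inclusion_injective hle)).mp h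
  · rw [← hp2, Polynomial.aeval_def, Polynomial.aeval_def, Polynomial.eval₂_map]
    rfl


/-- Finitely many constants: the transcendence degree over `k` of `(q, c)` is at most that of `q`
over `K` plus that of `c` over `k`. -/
private theorem seedG_constants {ι : Type} [Fintype ι] (q : ι → F) :
    ∃ (e : ℕ) (c : Fin e → Kˣ),
      atd k (Sum.elim q (fun j => algebraMap K F ((c j : Kˣ) : K))) ≤
        atd K q + atd k (fun j => ((c j : Kˣ) : K)) := by
  classical
  obtain ⟨J, hJ1, hJ2, hJ3⟩ := atd_spec (K := K) q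
  have h1 : ∀ i, ∃ T : Finset Kˣ, IsAlgebraic (Algebra.adjoin k
      (((fun u : Kˣ => algebraMap K F (u : K)) '' (T : Set Kˣ)) ∪
        Set.range (fun j : J => (q j : F)))) (q i) := by
    intro i
    refine seedG_one (k := k) (fun j : J => (q j : F)) hJ1 _ ?_
    have h2 := hJ3 i
    rw [Set.image_eq_range] at h2
    exact h2
  choose T hT using h1
  set TU : Finset Kˣ := Finset.univ.biUnion T with hTU
  refine ⟨TU.card, fun j => (TU.equivFin.symm j : Kˣ), ?_⟩
  set c : Fin TU.card → Kˣ := fun j => (TU.equivFin.symm j : Kˣ) with hc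
  have hcr : ∀ u ∈ TU, ∃ j, c j = u := by
    intro u hu
    refine ⟨TU.equivFin ⟨u, hu⟩, ?_⟩
    rw [hc]
    simp
  obtain ⟨J', hJ'1, hJ'2, hJ'3⟩ := atd_spec (K := k) (fun j => ((c j : Kˣ) : K))
  rw [← hJ2, ← hJ'2]
  set r : J ⊕ J' → F := Sum.elim (fun j => q j)
    (fun j => algebraMap K F ((c j : Kˣ) : K)) with hr
  have hcalg : ∀ j, IsAlgebraic (Algebra.adjoin k (Set.range r)) (algebraMap K F ((c j : Kˣ) : K)) := by
    intro j
    obtain ⟨p, hp1, hp2⟩ := hJ'3 j
    have hle : (Algebra.adjoin k ((fun j => ((c j : Kˣ) : K)) '' (J' : Set (Fin TU.card)))).map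
        (IsScalarTower.toAlgHom k K F) ≤ Algebra.adjoin k (Set.range r) := by
      rw [AlgHom.map_adjoin]
      refine Algebra.adjoin_mono ?_
      rintro _ ⟨_, ⟨l, hl, rfl⟩, rfl⟩
      exact ⟨Sum.inr ⟨l, hl⟩, rfl⟩
    let φ : Algebra.adjoin k ((fun j => ((c j : Kˣ) : K)) '' (J' : Set (Fin TU.card))) →+*
        Algebra.adjoin k (Set.range r) :=
      { toFun := fun a => ⟨algebraMap K F a.1, hle ⟨a.1, a.2, rfl⟩⟩
        map_one' := Subtype.ext (map_one _)
        map_mul' := fun a b => Subtype.ext (map_mul _ _ _)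
        map_zero' := Subtype.ext (map_zero _)
        map_add' := fun a b => Subtype.ext (map_add _ _ _) }
    have hφ : Function.Injective φ := by
      intro a b hab
      apply Subtype.ext
      apply (algebraMap K F).injective
      exact congrArg (fun z => z.1) hab
    refine ⟨p.map φ, ?_, ?_⟩
    · intro h
      apply hp1
      exact (Polynomial.map_eq_zero_iff hφ).mp h
    · rw [Polynomial.aeval_def, Polynomial.eval₂_map]
      have h2 : (algebraMap (Algebra.adjoin k (Set.range r)) F).comp φ =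
          (algebraMap K F).comp (algebraMap (Algebra.adjoin k
            ((fun j => ((c j : Kˣ) : K)) '' (J' : Set (Fin TU.card)))) K) := rfl
      rw [h2, ← Polynomial.hom_eval₂, ← Polynomial.aeval_def, hp2, map_zero]
  have hle := atd_le_card_of_algebraic (K := k)
    (Sum.elim q (fun j => algebraMap K F ((c j : Kˣ) : K))) r ?_
  · rwa [Fintype.card_sum, Fintype.card_coe, Fintype.card_coe] at hle
  · rintro (i | j)
    · refine IsAlgebraic.adjoin_of_forall_isAlgebraic (s := (((fun u : Kˣ => algebraMap K F (u : K)) ''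
        (T i : Set Kˣ)) ∪ Set.range (fun j : J => (q j : F)))) ?_ (hT i)
      rintro z ⟨hz | hz, hz2⟩
      · obtain ⟨u, hu, rfl⟩ := hz
        obtain ⟨j, hj⟩ := hcr u (Finset.mem_biUnion.mpr ⟨i, Finset.mem_univ i, hu⟩)
        rw [← hj]
        exact hcalg j
      · obtain ⟨j, rfl⟩ := hz
        exact absurd ⟨Sum.inl j, rfl⟩ hz2
    · exact hcalg j

/-- Additivity (lower bound). -/
private theorem seedG_add {ι κ : Type} [Fintype ι] [Fintype κ] (q : ι → F) (c : κ → K) :
    atd K q + atd k c ≤ atd k (Sum.elim q (fun j => algebraMap K F (c j))) := by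
  obtain ⟨J, hJ1, hJ2, -⟩ := atd_spec (K := K) q
  obtain ⟨J', hJ'1, hJ'2, -⟩ := atd_spec (K := k) c
  have h1 : AlgebraicIndependent k (Sum.elim (fun j : J => q j)
      (algebraMap K F ∘ fun j : J' => c j)) := hJ'1.sumElim_comp hJ1
  have h2 := le_atd (K := k) (Sum.elim q (fun j => algebraMap K F (c j)))
    (Sum.elim (fun j : J => q j) (algebraMap K F ∘ fun j : J' => c j)) h1 (fun j => by
      rcases j with j | j
      · exact isAlgebraic_algebraMap (⟨q j, Algebra.subset_adjoin ⟨Sum.inl j.1, rfl⟩⟩ :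
          Algebra.adjoin k (Set.range (Sum.elim q (fun j => algebraMap K F (c j)))))
      · exact isAlgebraic_algebraMap (⟨algebraMap K F (c j),
          Algebra.subset_adjoin ⟨Sum.inr j.1, rfl⟩⟩ :
          Algebra.adjoin k (Set.range (Sum.elim q (fun j => algebraMap K F (c j))))))
  rw [Fintype.card_sum, Fintype.card_coe, Fintype.card_coe, hJ2, hJ'2] at h2
  exact h2

end


section
variable {k K F : Type} [Field k] [Field K] [Field F] [Algebra k K] [Algebra K F] [Algebra k F]
  [IsScalarTower k K F]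

/-- adding constants is compatible with specialisation -/
private theorem seedG_spec {α β : Type} {e : ℕ} (c : Fin e → Kˣ) (γ : Pt F α β) {L : Type}
    [Field L] [Algebra K L] [Algebra k L] [IsScalarTower k K L] (x : Pt L α β)
    (h : aloc K (co γ) ≤ aloc K (co x)) :
    aloc k (co ((γ.1, Sum.elim γ.2 (fun j => cst K F (c j))) : Pt F α (β ⊕ Fin e))) ≤
      aloc k (co ((x.1, Sum.elim x.2 (fun j => cst K L (c j))) : Pt L α (β ⊕ Fin e))) := by
  let s : α ⊕ (β ⊕ Fin e) → MvPolynomial (α ⊕ β) K :=
    Sum.elim (fun i => X (Sum.inl i)) (Sum.elim (fun b => X (Sum.inr b)) fun j => C ((c j : Kˣ) : K))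
  have key : ∀ (M : Type) [Field M] [Algebra K M] [Algebra k M] [IsScalarTower k K M]
      (p : Pt M α β) (g : MvPolynomial (α ⊕ (β ⊕ Fin e)) k),
      aeval (co ((p.1, Sum.elim p.2 (fun j => cst K M (c j))) : Pt M α (β ⊕ Fin e))) g =
        aeval (co p) (aeval s g : MvPolynomial (α ⊕ β) K) := by
    intro M _ _ _ _ p g
    have h1 : ((aeval (co p) : MvPolynomial (α ⊕ β) K →ₐ[K] M).restrictScalars k).comp
        (aeval s : MvPolynomial (α ⊕ (β ⊕ Fin e)) k →ₐ[k] MvPolynomial (α ⊕ β) K) =
        aeval (co ((p.1, Sum.elim p.2 (fun j => cst K M (c j))) : Pt M α (β ⊕ Fin e))) := by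
      apply MvPolynomial.algHom_ext
      intro i
      rw [AlgHom.comp_apply, aeval_X, aeval_X, AlgHom.restrictScalars_apply]
      rcases i with i | i | i
      · exact aeval_X _ _
      · exact aeval_X _ _
      · exact MvPolynomial.algHom_C _ _
    rw [← h1]
    rfl
  intro g hg
  rw [mem_aloc, key L x]
  apply mem_aloc.mp
  apply h
  rw [mem_aloc, ← key F γ]
  exact mem_aloc.mp hg

end

section
variable {k : Type} [Field k] [IsAlgClosed k] [CharZero k] {α : Type} [Fintype α]
  {S : Set (α → k)} {𝓕 : (β : Type) → Set (Set (Pt k α β))}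

/-- relabelling -/
private theorem seedG_equiv (hF : Family S 𝓕) {β β' : Type} [Fintype β] [Fintype β']
    (f : β → β') (hf : Function.Bijective f) {L : Type} [Field L] [Algebra k L] (P : Pt L α β')
    (hP : avan S ≤ aloc k P.1) : rho 𝓕 (rst f P) = rho 𝓕 P := by
  have h1 := rank_le_add hF f hf.1 P hP
  have h2 : Fintype.card β = Fintype.card β' := Fintype.card_of_bijective hf
  omega

/-- a repeated coordinate is dependent -/
private theorem seedG_rep (hF : Family S 𝓕) {β : Type} [Fintype β] {L : Type} [Field L]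
    [Algebra k L] (P : Pt L α β) (hP : avan S ≤ aloc k P.1) (b : β) :
    rho 𝓕 (ext P (P.2 b)) = rho 𝓕 P := by
  classical
  have h1 := rank_monomial hF (some : β → Option β) (Option.some_injective β) (ext P (P.2 b)) hP
    (fun j => by
      have key : ∀ b' : β, ∃ (N : ℕ) (a : β → ℤ) (ζ : Lˣ), 0 < N ∧ IsOfFinOrder ζ ∧
          P.2 b' ^ N = ζ * ∏ i, P.2 i ^ a i := by
        intro b'
        refine ⟨1, fun i => if i = b' then 1 else 0, 1, one_pos, IsOfFinOrder.one, ?_⟩
        rw [pow_one, one_mul, Finset.prod_eq_single b']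
        · simp
        · intro j _ hj
          simp [hj]
        · intro h
          exact absurd (Finset.mem_univ b') h
      rcases j with _ | j
      · exact key b
      · exact key j)
  exact h1

/-- the maximal independent set of coordinates -/
private theorem seedG_max (hF : Family S 𝓕) {ι : Type} [Fintype ι] {L : Type} [Field L]
    [Algebra k L] (P : Pt L α ι) (hP : avan S ≤ aloc k P.1) :
    ∃ I : Finset ι, rho 𝓕 (rst (fun i : I => (i : ι)) P) = rho 𝓕 (aff P.1) + I.card ∧
      ∀ j, rho 𝓕 (ext (rst (fun i : I => (i : ι)) P) (P.2 j)) =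
        rho 𝓕 (rst (fun i : I => (i : ι)) P) := by
  classical
  have h0 : ∃ I : Finset ι, rho 𝓕 (rst (fun i : I => (i : ι)) P) = rho 𝓕 (aff P.1) + I.card := by
    refine ⟨∅, ?_⟩
    have h1 := seedG_equiv hF (fun e : Empty => (e.elim : (∅ : Finset ι)))
      ⟨fun e => e.elim, fun i => absurd i.2 (Finset.notMem_empty _)⟩
      (rst (fun i : (∅ : Finset ι) => (i : ι)) P) hP
    rw [← h1, Finset.card_empty, add_zero]
    congr 1
    refine Prod.ext rfl (funext fun e => e.elim)
  obtain ⟨I, hI, hmax⟩ := Finset.exists_max_image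
    ((Finset.univ : Finset (Finset ι)).filter fun I : Finset ι =>
      rho 𝓕 (rst (fun i : I => (i : ι)) P) = rho 𝓕 (aff P.1) + I.card) Finset.card
    (by
      obtain ⟨I, hI⟩ := h0
      exact ⟨I, Finset.mem_filter.mpr ⟨Finset.mem_univ _, hI⟩⟩)
  rw [Finset.mem_filter] at hI
  refine ⟨I, hI.2, fun j => ?_⟩
  by_cases hj : j ∈ I
  · exact seedG_rep hF (rst (fun i : I => (i : ι)) P) hP ⟨j, hj⟩
  · rcases rank_ext hF (rst (fun i : I => (i : ι)) P) hP (P.2 j) with h | h
    · exfalso
      -- the set `insert j I`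
      let f : Option I → (insert j I : Finset ι) := fun o =>
        o.elim ⟨j, Finset.mem_insert_self j I⟩ fun i : I => ⟨(i : ι), Finset.mem_insert_of_mem i.2⟩
      have hf : Function.Bijective f := by
        constructor
        · intro a b hab
          have hab' := congrArg Subtype.val hab
          rcases a with _ | a
          · rcases b with _ | b
            · rfl
            · exact absurd b.2 (fun h => hj (by
                have h' : j = b.1 := hab'
                rw [h']
                exact h))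
          · rcases b with _ | b
            · exact absurd a.2 (fun h => hj (by
                have h' : a.1 = j := hab'
                rw [← h']
                exact h))
            · exact congrArg some (Subtype.ext hab')
        · intro i
          obtain ⟨i, hi⟩ := i
          rcases Finset.mem_insert.mp hi with h1 | h1
          · exact ⟨none, Subtype.ext h1.symm⟩
          · exact ⟨some ⟨i, h1⟩, rfl⟩
      have h2 := seedG_equiv hF f hf (rst (fun i : (insert j I : Finset ι) => (i : ι)) P) hP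
      have h3 : rst f (rst (fun i : (insert j I : Finset ι) => (i : ι)) P) =
          ext (rst (fun i : I => (i : ι)) P) (P.2 j) := by
        refine Prod.ext rfl (funext fun o => ?_)
        rcases o with _ | o
        · rfl
        · rfl
      rw [h3] at h2
      have h4 : (insert j I).card = I.card + 1 := Finset.card_insert_of_notMem hj
      have h5 := hmax (insert j I) (Finset.mem_filter.mpr ⟨Finset.mem_univ _, by
        rw [← h2, h.1, hI.2, h4]
        ring⟩)
      omega
    · exact h.1

end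

theorem exists_seed {k K F : Type} [Field k] [IsAlgClosed k] [CharZero k] [Field K] [Field F]
    [Algebra k K] [Algebra K F] [Algebra k F] [IsScalarTower k K F] {α β : Type} [Fintype α]
    [Fintype β] {S : Set (α → k)} {𝓕 : (β : Type) → Set (Set (Pt k α β))} (hF : Family S 𝓕)
    (γ : Pt F α β) (hγ : avan S ≤ aloc k γ.1) :
    ∃ (e : ℕ) (c : Fin e → Kˣ) (I : Finset (β ⊕ Fin e)),
      mr (fun i : I => Sum.elim γ.2 (fun j => cst K F (c j)) (i : β ⊕ Fin e)) = I.card ∧
      rho 𝓕 ((γ.1, fun i : I => Sum.elim γ.2 (fun j => cst K F (c j)) (i : β ⊕ Fin e)) :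
        Pt F α I) = rho 𝓕 (aff γ.1) + I.card ∧
      ∀ (L : Type) [Field L] [Algebra K L] [Algebra k L] [IsScalarTower k K L] (x : Pt L α β),
        aloc K (co γ) ≤ aloc K (co x) →
        rho 𝓕 ((x.1, fun i : I => Sum.elim x.2 (fun j => cst K L (c j)) (i : β ⊕ Fin e)) :
            Pt L α I) +
            atd k (Sum.elim γ.1 (fun i : I =>
              ((Sum.elim γ.2 (fun j => cst K F (c j)) (i : β ⊕ Fin e) : Fˣ) : F))) +
            rho 𝓕 γ + atd K (co x) ≤
          rho 𝓕 (aff γ.1) + I.card + atd k (Sum.elim x.1 (fun i : I =>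
              ((Sum.elim x.2 (fun j => cst K L (c j)) (i : β ⊕ Fin e) : Lˣ) : L))) +
            rho 𝓕 x + atd K (co γ) := by
  classical
  obtain ⟨e, c, hc⟩ := seedG_constants (k := k) (K := K) (co γ)
  let Γ : Pt F α (β ⊕ Fin e) := (γ.1, Sum.elim γ.2 (fun j => cst K F (c j)))
  obtain ⟨I, hI1, hI2⟩ := seedG_max hF Γ hγ
  have hΓI : rho 𝓕 Γ = rho 𝓕 (rst (fun i : I => (i : β ⊕ Fin e)) Γ) :=
    rank_dep_all hF (fun i : I => (i : β ⊕ Fin e)) Subtype.val_injective Γ hγ hI2
  refine ⟨e, c, I, ?_, hI1, fun L _ _ _ _ x hx => ?_⟩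
  · -- multiplicative independence
    have h1 := rank_le_mr hF (rst (fun i : I => (i : β ⊕ Fin e)) Γ) hγ
    have h2 := UL.mr_le_card (rst (fun i : I => (i : β ⊕ Fin e)) Γ).2
    rw [hI1] at h1
    rw [Fintype.card_coe] at h2
    have h3 : rho 𝓕 (aff (rst (fun i : I => (i : β ⊕ Fin e)) Γ).1) = rho 𝓕 (aff γ.1) := rfl
    rw [h3] at h1
    have h4 : rho 𝓕 (aff Γ.1) = rho 𝓕 (aff γ.1) := rfl
    rw [h4] at h1
    change mr (rst (fun i : I => (i : β ⊕ Fin e)) Γ).2 = I.card
    omega
  · let W : Pt L α (β ⊕ Fin e) := (x.1, Sum.elim x.2 (fun j => cst K L (c j)))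
    have hspec : aloc k (co Γ) ≤ aloc k (co W) := seedG_spec c γ x hx
    have hxS : avan S ≤ aloc k x.1 := hγ.trans (aloc_fst_le W Γ hspec)
    -- dependence persists
    have hext : ∀ j, aloc k (co (ext (rst (fun i : I => (i : β ⊕ Fin e)) Γ) (Γ.2 j))) ≤
        aloc k (co (ext (rst (fun i : I => (i : β ⊕ Fin e)) W) (W.2 j))) := by
      intro j
      have h1 := aloc_rst_le (fun o : Option I => o.elim j fun i : I => (i : β ⊕ Fin e)) W Γ hspec
      have h2 : ∀ (M : Type) [Field M] (Q : Pt M α (β ⊕ Fin e)),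
          rst (fun o : Option I => o.elim j fun i : I => (i : β ⊕ Fin e)) Q =
            ext (rst (fun i : I => (i : β ⊕ Fin e)) Q) (Q.2 j) := by
        intro M _ Q
        refine Prod.ext rfl (funext fun o => ?_)
        rcases o with _ | o
        · rfl
        · rfl
      rw [h2 F Γ, h2 L W] at h1
      exact h1
    have hdep : ∀ j, rho 𝓕 (ext (rst (fun i : I => (i : β ⊕ Fin e)) W) (W.2 j)) =
        rho 𝓕 (rst (fun i : I => (i : β ⊕ Fin e)) W) := by
      intro j
      exact rank_persist hF (rst (fun i : I => (i : β ⊕ Fin e)) Γ) (Γ.2 j)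
        (rst (fun i : I => (i : β ⊕ Fin e)) W) (W.2 j) hγ (hext j) (hI2 j)
    have hWI : rho 𝓕 W = rho 𝓕 (rst (fun i : I => (i : β ⊕ Fin e)) W) :=
      rank_dep_all hF (fun i : I => (i : β ⊕ Fin e)) Subtype.val_injective W hxS hdep
    -- (R3)
    have hsub : rho 𝓕 W + rho 𝓕 (rst Sum.inl Γ) ≤ rho 𝓕 Γ + rho 𝓕 (rst Sum.inl W) :=
      rank_sub hF (Sum.inl : β → β ⊕ Fin e) Sum.inl_injective Γ W hγ hspec
    have hg : rst Sum.inl Γ = γ := rfl
    have hw : rst Sum.inl W = x := rfl
    rw [hg, hw] at hsub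
    have e3 : atd k (Sum.elim γ.1 (fun i : I => ((Γ.2 i : Fˣ) : F))) ≤
        atd k (Sum.elim (co γ) (fun j => algebraMap K F ((c j : Kˣ) : K))) := by
      refine atd_le_of_algebraic (K := k) _ _ fun i => ?_
      set R := Algebra.adjoin k (Set.range fun j =>
        (Sum.elim (co γ) (fun j => algebraMap K F ((c j : Kˣ) : K)) j : F)) with hR
      rcases i with i | i
      · exact isAlgebraic_algebraMap (⟨γ.1 i, Algebra.subset_adjoin ⟨Sum.inl (Sum.inl i), rfl⟩⟩ : R)
      · obtain ⟨i, hi⟩ := i
        rcases i with i | i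
        · exact isAlgebraic_algebraMap (⟨(γ.2 i : F),
            Algebra.subset_adjoin ⟨Sum.inl (Sum.inr i), rfl⟩⟩ : R)
        · exact isAlgebraic_algebraMap (⟨algebraMap K F ((c i : Kˣ) : K),
            Algebra.subset_adjoin ⟨Sum.inr i, rfl⟩⟩ : R)
    have e4 := seedG_add (k := k) (K := K) (co x) (fun j => ((c j : Kˣ) : K))
    have e5 : atd k (Sum.elim (co x) (fun j => algebraMap K L ((c j : Kˣ) : K))) ≤
        atd k (Sum.elim x.1 (fun i : I => ((W.2 i : Lˣ) : L))) := by
      refine atd_le_of_algebraic (K := k) _ _ fun i => ?_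
      have hco : co (rst (fun i : I => (i : β ⊕ Fin e)) W) =
          Sum.elim x.1 (fun i : I => ((W.2 i : Lˣ) : L)) := rfl
      have hWalg : ∀ j, IsAlgebraic (Algebra.adjoin k (Set.range
          (Sum.elim x.1 (fun i : I => ((W.2 i : Lˣ) : L))))) ((W.2 j : Lˣ) : L) := by
        intro j
        have h1 := rank_dep_alg hF (rst (fun i : I => (i : β ⊕ Fin e)) W) hxS (W.2 j) (hdep j)
        rw [hco] at h1
        exact h1
      rcases i with (i | i) | i
      · exact isAlgebraic_algebraMap (⟨x.1 i, Algebra.subset_adjoin ⟨Sum.inl i, rfl⟩⟩ :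
          Algebra.adjoin k (Set.range (Sum.elim x.1 (fun i : I => ((W.2 i : Lˣ) : L)))))
      · exact hWalg (Sum.inl i)
      · exact hWalg (Sum.inr i)
    change rho 𝓕 (rst (fun i : I => (i : β ⊕ Fin e)) W) +
        atd k (Sum.elim γ.1 (fun i : I => ((Γ.2 i : Fˣ) : F))) + rho 𝓕 γ + atd K (co x) ≤
      rho 𝓕 (aff γ.1) + I.card + atd k (Sum.elim x.1 (fun i : I => ((W.2 i : Lˣ) : L))) +
        rho 𝓕 x + atd K (co γ)
    have hI1' : rho 𝓕 (rst (fun i : I => (i : β ⊕ Fin e)) Γ) = rho 𝓕 (aff γ.1) + I.card := hI1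
    omega

end Pool.Agent.Lib.MP_a325a5_ag.GM
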