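import Pool.Agent.Lib.MP_a325a5_ag.UM.Defs

/-! Zilber-Pink for `S × 𝔾_m^β`, `S` any variety with a family of special subvarieties of all the
products `S × 𝔾_m^β`: the definitions used in the statement of the universality theorem. -/

set_option autoImplicit false

namespace Pool.Agent.Lib.MP_a325a5_ag.GM

open MvPolynomial UM

section family

variable {k : Type} [Field k] {α : Type}

/-- `S` is a closed subset of the affine space `𝔸^α`; for every finite `β`, `𝓕 β` is a set of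
irreducible closed subsets of `S × 𝔾_m^β`, called special, such that

* `coset`: `S × C` is special for every torsion coset `C` of `𝔾_m^β`;
* `pull`: the inverse image of a special `T` under the map `S × 𝔾_m^β' → S × 𝔾_m^β` that forgets
  coordinates is special;
* `inter`: the irreducible components of the intersection of two special subsets are special;
* `fib`: if `T` in `𝓕 (Option β)` is special, the closure `T'` of its projection to `S × 𝔾_m^β` is
  special, and either `T = T' × 𝔾_m` or there is a monomial `x ^ n z ^ a`, `n ≠ 0`, in the last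
  coordinate `x` and the other torus coordinates `z` which takes only finitely many values on the
  points of `T` over each point of `S`. -/
structure Family (S : Set (α → k)) (𝓕 : (β : Type) → Set (Set (Pt k α β))) : Prop where
  irr : ∀ (β : Type) [Fintype β], ∀ T ∈ 𝓕 β, IrrClosed T
  sub : ∀ (β : Type) [Fintype β], ∀ T ∈ 𝓕 β, ∀ p ∈ T, p.1 ∈ S
  coset : ∀ (β : Type) [Fintype β] (C : Set (β → kˣ)), UL.IsSpecial C →
    {p : Pt k α β | p.1 ∈ S ∧ p.2 ∈ C} ∈ 𝓕 β
  pull : ∀ (β β' : Type) [Fintype β] [Fintype β'] (f : β → β'), Function.Injective f →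
    ∀ T ∈ 𝓕 β, {p : Pt k α β' | (p.1, p.2 ∘ f) ∈ T} ∈ 𝓕 β'
  inter : ∀ (β : Type) [Fintype β], ∀ T₁ ∈ 𝓕 β, ∀ T₂ ∈ 𝓕 β, ∀ Z, IrrClosed Z → Z ⊆ T₁ ∩ T₂ →
    ∃ T₃ ∈ 𝓕 β, Z ⊆ T₃ ∧ T₃ ⊆ T₁ ∩ T₂
  fib : ∀ (β : Type) [Fintype β], ∀ T ∈ 𝓕 (Option β), ∃ T' ∈ 𝓕 β,
    vanIdeal T' = vanIdeal ((fun p : Pt k α (Option β) => (p.1, p.2 ∘ some)) '' T) ∧
    (T = {p : Pt k α (Option β) | (p.1, p.2 ∘ some) ∈ T'} ∨
      ∃ (n : ℤ) (a : β → ℤ), n ≠ 0 ∧ ∀ s : α → k,
        {c : kˣ | ∃ p ∈ T, p.1 = s ∧ c = p.2 none ^ n * ∏ i, p.2 (some i) ^ a i}.Finite)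

/-- The special subvarieties of `S` itself. -/
def base (𝓕 : (β : Type) → Set (Set (Pt k α β))) : Set (Set (α → k)) :=
  {T | {p : Pt k α Empty | p.1 ∈ T} ∈ 𝓕 Empty}

end family

/-! ### Special subvarieties over `K` -/

section special

variable {K : Type} [Field K] {α β : Type} {k : Type} [Field k] [Algebra k K]

/-- The set of the points of `T` with coordinates in the extension field `K`. -/
def bcP (K : Type) [Field K] [Algebra k K] (T : Set (Pt k α β)) : Set (Pt K α β) :=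
  {p | ∀ f ∈ vanIdeal T, aeval (co p) f = 0}

variable (𝓕 : (β : Type) → Set (Set (Pt k α β)))

/-- The special subvarieties of `S × 𝔾_m^β` over `K`. -/
def IsSpecial (H : Set (Pt K α β)) : Prop := ∃ T ∈ 𝓕 β, H = bcP K T

/-- The smallest special subvariety containing `Z`. -/
def hull (Z : Set (Pt K α β)) : Set (Pt K α β) := ⋂₀ {H | IsSpecial 𝓕 H ∧ Z ⊆ H}

/-- `Z` is a special subvariety of `X`: it is an irreducible component of `X ∩ ⟨Z⟩`, and
`⟨Z⟩ ≠ ⟨X⟩`. -/
def SpecialIn (X Z : Set (Pt K α β)) : Prop :=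
  IrrClosed Z ∧ Z ⊆ X ∧ (∀ W, IrrClosed W → Z ⊆ W → W ⊆ X ∩ hull 𝓕 Z → W = Z) ∧
    hull 𝓕 Z ≠ hull 𝓕 X

/-- `Z` is an atypical special subvariety of `X`: the codimension of `Z` in `X` is smaller than the
codimension of `⟨Z⟩` in `⟨X⟩`. -/
def Atypical (X Z : Set (Pt K α β)) : Prop :=
  SpecialIn 𝓕 X Z ∧ zdim X + zdim (hull 𝓕 Z) < zdim (hull 𝓕 X) + zdim Z

/-- The atypical Hodge locus of `X`. -/
def HLatyp (X : Set (Pt K α β)) : Set (Pt K α β) := ⋃₀ {Z | Atypical 𝓕 X Z}

/-- The maximal atypical special subvarieties of `X`. -/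
def MaxAtypical (X : Set (Pt K α β)) : Set (Set (Pt K α β)) :=
  {Z | Atypical 𝓕 X Z ∧ ∀ W, Atypical 𝓕 X W → Z ⊆ W → W = Z}

end special

end Pool.Agent.Lib.MP_a325a5_ag.GM
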