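import Pool.Agent.Lib.MP_a325a5_ag.GM.Base

/-! Finitely many values over each point of `S` imply algebraicity at all points. -/

set_option autoImplicit false

namespace Pool.Agent.Lib.MP_a325a5_ag.GM

open MvPolynomial UM

private theorem fa_pt {k R : Type} [Field k] [IsAlgClosed k] [CommRing R] [Algebra k R]
    [Algebra.FiniteType k R] (M : Ideal R) [hM : M.IsMaximal] :
    ∃ Ψ : R →ₐ[k] k, ∀ r, r ∈ M ↔ Ψ r = 0 := by
  let _ : Field (R ⧸ M) := Ideal.Quotient.field M
  have _ : Algebra.FiniteType k (R ⧸ M) :=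
    Algebra.FiniteType.of_surjective (Ideal.Quotient.mkₐ k M) (Ideal.Quotient.mkₐ_surjective k M)
  have _ : Module.Finite k (R ⧸ M) := finite_of_finite_type_of_isJacobsonRing k (R ⧸ M)
  have hb : Function.Bijective (algebraMap k (R ⧸ M)) :=
    IsAlgClosed.algebraMap_bijective_of_isIntegral
  let e : k ≃ₐ[k] (R ⧸ M) := AlgEquiv.ofBijective (Algebra.ofId k (R ⧸ M)) hb
  refine ⟨(e.symm : (R ⧸ M) →ₐ[k] k).comp (Ideal.Quotient.mkₐ k M), fun r => ?_⟩
  change r ∈ M ↔ e.symm (Ideal.Quotient.mk M r) = 0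
  rw [map_eq_zero_iff _ e.symm.injective]
  exact Ideal.Quotient.eq_zero_iff_mem.symm

private theorem fa_nonzero {k R : Type} [Field k] [IsAlgClosed k] [CommRing R] [IsDomain R]
    [Algebra k R] [Algebra.FiniteType k R] (g : R) (hg : g ≠ 0) :
    ∃ Ψ : R →ₐ[k] k, Ψ g ≠ 0 := by
  have hle : Submonoid.powers g ≤ nonZeroDivisors R := powers_le_nonZeroDivisors_of_noZeroDivisors hg
  have _ : IsDomain (Localization.Away g) := IsLocalization.isDomain_localization hle
  have _ : Algebra.FiniteType k (Localization.Away g) := by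
    change Algebra.FiniteType k (Localization (Submonoid.powers g))
    infer_instance
  obtain ⟨M, hM⟩ := Ideal.exists_maximal (Localization.Away g)
  obtain ⟨Ψ, hΨ⟩ := fa_pt (k := k) M
  have hu : IsUnit (algebraMap R (Localization.Away g) g) :=
    IsLocalization.Away.algebraMap_isUnit g
  refine ⟨Ψ.comp (IsScalarTower.toAlgHom k R (Localization.Away g)), ?_⟩
  have h2 := hu.map Ψ
  exact h2.ne_zero

private theorem fa_lift {k A R : Type} [Field k] [IsAlgClosed k] [CommRing A] [IsDomain A]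
    [Algebra k A] [Algebra.FiniteType k A] [CommRing R] [IsDomain R] [Algebra k R]
    [Algebra.FiniteType k R] (φ : A →ₐ[k] R) (hφ : Function.Injective φ) :
    ∃ g : A, g ≠ 0 ∧ ∀ ψ : A →ₐ[k] k, ψ g ≠ 0 → ∃ Ψ : R →ₐ[k] k, ∀ a, Ψ (φ a) = ψ a := by
  have _ : IsNoetherianRing A := Algebra.FiniteType.isNoetherianRing k A
  have hft : (φ : A →+* R).FiniteType := by
    apply RingHom.FiniteType.of_comp_finiteType (f := algebraMap k A)
    have h1 : (φ : A →+* R).comp (algebraMap k A) = algebraMap k R := φ.comp_algebraMap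
    rw [h1]
    exact RingHom.finiteType_algebraMap.mpr inferInstance
  have hfp : (φ : A →+* R).FinitePresentation := RingHom.FinitePresentation.of_finiteType.mp hft
  have hc := PrimeSpectrum.isConstructible_range_comap hfp
  obtain ⟨C, hC⟩ := PrimeSpectrum.exists_constructibleSetData_iff.mpr hc
  have hbot : (⟨⊥, Ideal.isPrime_bot⟩ : PrimeSpectrum A) ∈
      Set.range (PrimeSpectrum.comap (φ : A →+* R)) := by
    refine ⟨⟨⊥, Ideal.isPrime_bot⟩, ?_⟩
    apply PrimeSpectrum.ext
    change Ideal.comap (φ : A →+* R) ⊥ = ⊥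
    rw [Ideal.comap_bot_of_injective]
    exact hφ
  rw [← hC] at hbot
  obtain ⟨D, hD, hbD⟩ := Set.mem_iUnion₂.mp hbot
  obtain ⟨hb1, hb2⟩ := hbD
  rw [PrimeSpectrum.mem_zeroLocus] at hb1 hb2
  refine ⟨D.f, fun h => hb2 ?_, fun ψ hψ => ?_⟩
  · rintro x rfl
    rw [h]
    exact Ideal.zero_mem _
  · have hmax : (RingHom.ker (ψ : A →+* k)).IsMaximal := RingHom.ker_isMaximal_of_surjective _
      (fun c => ⟨algebraMap k A c, ψ.commutes c⟩)
    have hmem : (⟨RingHom.ker (ψ : A →+* k), hmax.isPrime⟩ : PrimeSpectrum A) ∈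
        Set.range (PrimeSpectrum.comap (φ : A →+* R)) := by
      rw [← hC]
      refine Set.mem_iUnion₂.mpr ⟨D, hD, ?_, ?_⟩
      · rw [PrimeSpectrum.mem_zeroLocus]
        intro x hx
        have h0 : x = 0 := hb1 hx
        rw [h0]
        exact Ideal.zero_mem _
      · rw [PrimeSpectrum.mem_zeroLocus]
        intro h
        exact hψ (h rfl)
    obtain ⟨q, hq⟩ := hmem
    obtain ⟨M, hM, hqM⟩ := Ideal.exists_le_maximal q.asIdeal q.isPrime.ne_top
    obtain ⟨Ψ, hΨ⟩ := fa_pt (k := k) M
    have hker : ∀ a, ψ a = 0 → φ a ∈ M := by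
      intro a ha
      apply hqM
      have h1 : a ∈ (PrimeSpectrum.comap (φ : A →+* R) q).asIdeal := by
        rw [hq]
        exact ha
      exact h1
    refine ⟨Ψ, fun a => ?_⟩
    have h2 : ψ (a - algebraMap k A (ψ a)) = 0 := by
      rw [map_sub, AlgHom.commutes]
      exact sub_self _
    have h3 := (hΨ _).mp (hker _ h2)
    rw [map_sub, map_sub, AlgHom.commutes, AlgHom.commutes, sub_eq_zero] at h3
    exact h3

theorem alg_of_finite {k : Type} [Field k] [IsAlgClosed k] {α β : Type} [Fintype α] [Fintype β]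
    (T : Set (Pt k α β)) (hT : IrrClosed T) (b : β → ℤ)
    (hfin : ∀ s : α → k, {c : kˣ | ∃ p ∈ T, p.1 = s ∧ c = ∏ i, p.2 i ^ b i}.Finite)
    {L : Type} [Field L] [Algebra k L] (Q : Pt L α β) (hQ : vanIdeal T ≤ aloc k (co Q)) :
    IsAlgebraic (Algebra.adjoin k (Set.range Q.1)) ((∏ i, Q.2 i ^ b i : Lˣ) : L) := by
  classical
  by_contra hna
  set R' := Algebra.adjoin k (Set.range Q.1) with hR'
  have htr : Transcendental R' ((∏ i, Q.2 i ^ b i : Lˣ) : L) := hna
  set G : Set L := Set.range Q.1 ∪ Set.range (fun j => (Q.2 j : L)) ∪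
    Set.range (fun j => (((Q.2 j)⁻¹ : Lˣ) : L)) with hG
  set R := Algebra.adjoin k G with hR
  have hle : R' ≤ R := Algebra.adjoin_mono
    (Set.subset_union_left.trans Set.subset_union_left)
  have hGf : G.Finite := ((Set.finite_range _).union (Set.finite_range _)).union
    (Set.finite_range _)
  have _ : Algebra.FiniteType k R' := by
    apply (Subalgebra.fg_iff_finiteType _).mp
    refine ⟨(Set.finite_range Q.1).toFinset, ?_⟩
    rw [Set.Finite.coe_toFinset]
  have _ : Algebra.FiniteType k R := by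
    apply (Subalgebra.fg_iff_finiteType _).mp
    refine ⟨hGf.toFinset, ?_⟩
    rw [Set.Finite.coe_toFinset]
  -- the coordinates as elements of `R`
  have h1 : ∀ i, Q.1 i ∈ R' := fun i => Algebra.subset_adjoin ⟨i, rfl⟩
  have h2 : ∀ j, (Q.2 j : L) ∈ R := fun j =>
    Algebra.subset_adjoin (Or.inl (Or.inr ⟨j, rfl⟩))
  have h3 : ∀ j, (((Q.2 j)⁻¹ : Lˣ) : L) ∈ R := fun j =>
    Algebra.subset_adjoin (Or.inr ⟨j, rfl⟩)
  let u : β → Rˣ := fun j => ⟨⟨_, h2 j⟩, ⟨_, h3 j⟩, Subtype.ext (Units.mul_inv _),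
    Subtype.ext (Units.inv_mul _)⟩
  let χ : Rˣ := ∏ i, u i ^ b i
  have hχ : ((χ : R) : L) = ((∏ i, Q.2 i ^ b i : Lˣ) : L) := by
    have h4 : Units.map (R.val : R →* L) χ = ∏ i, Q.2 i ^ b i := by
      rw [map_prod]
      refine Finset.prod_congr rfl fun i _ => ?_
      rw [map_zpow]
      congr 1
    rw [← h4]
    rfl
  -- the polynomial ring in `χ`
  let φ₀ : Polynomial R' →ₐ[k] L :=
    (Polynomial.aeval ((∏ i, Q.2 i ^ b i : Lˣ) : L) : Polynomial R' →ₐ[R'] L).restrictScalars k
  have hφ₀ : ∀ p, φ₀ p ∈ R := by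
    intro p
    induction p using Polynomial.induction_on' with
    | add p q hp hq =>
      rw [map_add]
      exact add_mem hp hq
    | monomial n a =>
      have h5 : φ₀ (Polynomial.monomial n a) = (a : L) * ((χ : R) : L) ^ n := by
        rw [hχ]
        exact Polynomial.aeval_monomial _
      rw [h5]
      exact mul_mem (hle a.2) (pow_mem (χ : R).2 n)
  let φ : Polynomial R' →ₐ[k] R := φ₀.codRestrict R hφ₀
  have hφ : Function.Injective φ := by
    intro p q hpq
    have h6 : φ₀ p = φ₀ q := congrArg Subtype.val hpq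
    exact transcendental_iff_injective.mp htr h6
  have _ : Algebra.FiniteType k (Polynomial R') :=
    Algebra.FiniteType.trans ‹Algebra.FiniteType k R'› inferInstance
  obtain ⟨g, hg, hlift⟩ := fa_lift φ hφ
  obtain ⟨n, hn⟩ : ∃ n, g.coeff n ≠ 0 := by
    by_contra h
    push Not at h
    exact hg (Polynomial.ext fun n => by rw [h n, Polynomial.coeff_zero])
  obtain ⟨ψ₀, hψ₀⟩ := fa_nonzero (k := k) (g.coeff n) hn
  let h : Polynomial k := g.map (ψ₀ : R' →+* k)
  have hh : h ≠ 0 := by
    intro h0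
    apply hψ₀
    have h7 : h.coeff n = ψ₀ (g.coeff n) := Polynomial.coeff_map _ _
    rw [← h7, h0, Polynomial.coeff_zero]
  let s : α → k := fun i => ψ₀ ⟨_, h1 i⟩
  have hsub : {c : kˣ | h.eval (c : k) ≠ 0} ⊆
      {c : kˣ | ∃ p ∈ T, p.1 = s ∧ c = ∏ i, p.2 i ^ b i} := by
    intro c hc
    let ψ : Polynomial R' →ₐ[k] k := Polynomial.eval₂AlgHom ψ₀ (c : k) (fun a => Commute.all _ _)
    have hψ : ∀ p : Polynomial R', ψ p = p.eval₂ (ψ₀ : R' →+* k) (c : k) := fun p => rfl
    have h8 : ψ g ≠ 0 := by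
      rw [hψ, ← Polynomial.eval_map]
      exact hc
    obtain ⟨Ψ, hΨ⟩ := hlift ψ h8
    let co' : α ⊕ β → R := Sum.elim (fun i => ⟨Q.1 i, hle (h1 i)⟩) (fun j => (u j : R))
    have hco' : ∀ x, ((co' x : R) : L) = co Q x := by
      rintro (i | j)
      · rfl
      · rfl
    let p : Pt k α β := (fun i => Ψ (co' (Sum.inl i)), fun j => Units.map (Ψ : R →* k) (u j))
    have hcop : ∀ x, co p x = Ψ (co' x) := by
      rintro (i | j)
      · rfl
      · rfl
    have hpT : p ∈ T := by
      apply hT.2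
      intro f hf
      have h9 : aeval (co Q) f = 0 := mem_aloc.mp (hQ hf)
      have h10 : ((aeval co' f : R) : L) = aeval (co Q) f := by
        have h11 := MvPolynomial.comp_aeval_apply (R := k) co' R.val f
        have h12 : (fun x => R.val (co' x)) = co Q := funext hco'
        rw [h12] at h11
        exact h11
      have h13 : (aeval co' f : R) = 0 := Subtype.ext (h10.trans h9)
      have h14 := MvPolynomial.comp_aeval_apply (R := k) co' Ψ f
      have h15 : (fun x => Ψ (co' x)) = co p := funext fun x => (hcop x).symm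
      rw [h13, map_zero, h15] at h14
      rw [← MvPolynomial.coe_aeval_eq_eval]
      exact h14.symm
    refine ⟨p, hpT, ?_, ?_⟩
    · funext i
      change Ψ (co' (Sum.inl i)) = ψ₀ ⟨_, h1 i⟩
      have h16 : co' (Sum.inl i) = φ (Polynomial.C ⟨_, h1 i⟩) := by
        apply Subtype.ext
        change Q.1 i = Polynomial.aeval _ (Polynomial.C (⟨_, h1 i⟩ : R'))
        rw [Polynomial.aeval_C]
        rfl
      rw [h16, hΨ, hψ, Polynomial.eval₂_C]
      rfl
    · have h17 : (∏ i, p.2 i ^ b i) = Units.map (Ψ : R →* k) χ := by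
        rw [map_prod]
        refine Finset.prod_congr rfl fun i _ => ?_
        rw [map_zpow]
      rw [h17]
      apply Units.ext
      change (c : k) = Ψ (χ : R)
      have h18 : (χ : R) = φ Polynomial.X := by
        apply Subtype.ext
        rw [hχ]
        exact (Polynomial.aeval_X _).symm
      rw [h18, hΨ, hψ, Polynomial.eval₂_X]
  have hfin' := (hfin s).subset hsub
  have hcof : {c : kˣ | h.eval (c : k) = 0}.Finite := by
    have h19 : {c : k | h.eval c = 0}.Finite := by
      refine (h.roots.toFinset.finite_toSet).subset fun c hc => ?_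
      rw [Finset.mem_coe, Multiset.mem_toFinset, Polynomial.mem_roots hh]
      exact hc
    exact h19.preimage (Units.val_injective.injOn)
  have huniv : (Set.univ : Set kˣ).Finite := by
    refine (hfin'.union hcof).subset fun c _ => ?_
    by_cases hc : h.eval (c : k) = 0
    · exact Or.inr hc
    · exact Or.inl hc
  have _ : Infinite k := IsAlgClosed.instInfinite
  apply Set.infinite_univ (α := k)
  refine ((huniv.image (fun c : kˣ => (c : k))).union (Set.finite_singleton 0)).subset
    fun c _ => ?_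
  by_cases hc : c = 0
  · exact Or.inr hc
  · exact Or.inl ⟨Units.mk0 c hc, Set.mem_univ _, rfl⟩

end Pool.Agent.Lib.MP_a325a5_ag.GM
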