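import Pool.Agent.Lib.MP_a325a5_ag.GM.LeastG
import Pool.Agent.Lib.MP_a325a5_ag.UM.BC
import Pool.Agent.Lib.MP_a325a5_ag.UM.LocSet
import Pool.Agent.Lib.MP_a325a5_ag.UM.KD

/-! Base change of a special subset and the smallest special subvariety containing an irreducible
closed set. -/

set_option autoImplicit false

namespace Pool.Agent.Lib.MP_a325a5_ag.GM

open MvPolynomial UM

section cl
variable {k : Type} [Field k] {K : Type} [Field K] [Algebra k K] {α β : Type}

/-- The closure in affine space. -/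
private def HullG_cl (T : Set (Pt k α β)) : Set (α ⊕ β → k) :=
  {x | ∀ f ∈ vanIdeal T, eval x f = 0}

private theorem HullG_avan (T : Set (Pt k α β)) : avan (HullG_cl T) = vanIdeal T := by
  apply le_antisymm
  · intro f hf z hz
    exact hf (co z) fun g hg => hg z hz
  · intro f hf x hx
    exact hx f hf

private theorem HullG_airr (T : Set (Pt k α β)) (hT : IrrClosed T) : AIrr (HullG_cl T) := by
  constructor
  · rw [HullG_avan]
    exact hT.1
  · intro x hx f hf
    apply hx
    rw [HullG_avan]
    exact hf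

private theorem HullG_mem (T : Set (Pt k α β)) (p : Pt K α β) :
    p ∈ bcP K T ↔ co p ∈ bc K (HullG_cl T) := by
  constructor
  · intro h f hf
    rw [HullG_avan] at hf
    exact h f hf
  · intro h f hf
    apply h
    rw [HullG_avan]
    exact hf

private theorem HullG_img (T : Set (Pt k α β)) (hT : IrrClosed T) :
    avan (bc K (HullG_cl T)) =
      avan ((fun x : α ⊕ β → k => fun i => algebraMap k K (x i)) '' (co '' T)) := by
  rw [avan_bc _ (HullG_airr T hT)]
  apply le_antisymm
  · apply avan_anti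
    apply Set.image_mono
    rintro _ ⟨z, hz, rfl⟩ f hf
    exact hf z hz
  · apply base_dense
    rw [HullG_avan, vanIdeal_eq_avan]

private theorem HullG_van (T : Set (Pt k α β)) (hT : IrrClosed T) :
    vanIdeal (bcP K T) = avan (bc K (HullG_cl T)) := by
  apply le_antisymm
  · rw [HullG_img T hT]
    rintro F hF _ ⟨_, ⟨z, hz, rfl⟩, rfl⟩
    have h1 : cstP k K z ∈ bcP K T := by
      intro f hf
      have h2 : vanIdeal T ≤ aloc k (co (cstP k K z)) := by
        rw [co_cstP, aloc_algebraMap]
        exact fun g hg => mem_aloc_self.mpr (hg z hz)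
      exact mem_aloc.mp (h2 hf)
    have h3 := hF _ h1
    rw [co_cstP] at h3
    exact h3
  · intro F hF p hp
    exact hF _ ((HullG_mem T p).mp hp)

/-- Equations over `k` that hold on `Z` hold at a generic point. -/
theorem gen_le {L : Type} [Field L] [Algebra K L] [Algebra k L] [IsScalarTower k K L]
    (Z : Set (Pt K α β)) (γ : Pt L α β) (h : aloc K (co γ) = vanIdeal Z) (T : Set (Pt k α β))
    (hZ : Z ⊆ bcP K T) : vanIdeal T ≤ aloc k (co γ) := by
  intro f hf
  have h1 : map (algebraMap k K) f ∈ vanIdeal Z := by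
    intro z hz
    rw [eval_map]
    have h2 := hZ hz f hf
    rw [aeval_def] at h2
    exact h2
  rw [← h, mem_aloc, aeval_map_algebraMap] at h1
  exact mem_aloc.mpr h1

/-- Affine equations over `k` that hold on `Z` hold at a generic point. -/
theorem gen_fst_le {L : Type} [Field L] [Algebra K L] [Algebra k L] [IsScalarTower k K L]
    (Z : Set (Pt K α β)) (γ : Pt L α β) (h : aloc K (co γ) = vanIdeal Z) (S : Set (α → k))
    (hZ : ∀ z ∈ Z, z.1 ∈ bc K S) : avan S ≤ aloc k γ.1 := by
  intro f hf
  have h1 : rename Sum.inl (map (algebraMap k K) f) ∈ vanIdeal Z := by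
    intro z hz
    rw [eval_rename, eval_map]
    have h2 := hZ z hz f hf
    rw [aeval_def] at h2
    exact h2
  rw [← h, mem_aloc, aeval_rename, aeval_map_algebraMap] at h1
  exact mem_aloc.mpr h1

end cl

variable {k : Type} [Field k] [IsAlgClosed k] {K : Type} [Field K] [IsAlgClosed K] [CharZero K]
  [Algebra k K] {α β : Type} [Fintype α] [Fintype β] {S : Set (α → k)}
  {𝓕 : (β : Type) → Set (Set (Pt k α β))}

omit [IsAlgClosed K] [CharZero K] in
theorem bcP_irr (T : Set (Pt k α β)) (hT : IrrClosed T) : IrrClosed (bcP K T) := by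
  have h := bc_airr (K := K) (HullG_cl T) (HullG_airr T hT)
  constructor
  · rw [HullG_van T hT]
    exact h.1
  · intro x hx
    rw [HullG_mem]
    apply h.2
    rw [← HullG_van T hT]
    exact hx

omit [IsAlgClosed K] [CharZero K] in
theorem bcP_le_iff (T : Set (Pt k α β)) (hT : IrrClosed T) {L : Type} [Field L] [Algebra K L]
    [Algebra k L] [IsScalarTower k K L] (P : Pt L α β) :
    vanIdeal (bcP K T) ≤ aloc K (co P) ↔ vanIdeal T ≤ aloc k (co P) := by
  rw [HullG_van T hT, avan_bc_le_iff _ (HullG_airr T hT), HullG_avan]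

omit [IsAlgClosed K] [CharZero K] in
theorem zdim_bcP (T : Set (Pt k α β)) (hT : IrrClosed T) :
    zdim (bcP K T) = (dm T : WithBot ℕ∞) := by
  obtain ⟨L, _, _, γ, h⟩ := exists_generic (bcP K T) (bcP_irr T hT)
  letI : Algebra k L := ((algebraMap K L).comp (algebraMap k K)).toAlgebra
  haveI : IsScalarTower k K L := IsScalarTower.of_algebraMap_eq' rfl
  rw [zdim_eq (bcP K T) γ h]
  rw [HullG_van T hT, HullG_img T hT] at h
  obtain ⟨h1, h2⟩ := base_generic (co '' T) (co γ) h
  rw [← vanIdeal_eq_avan] at h1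
  rw [h2, dm_eq T γ h1]

theorem hull_eq (hF : Family S 𝓕) (Z : Set (Pt K α β)) (hZ : IrrClosed Z) {L : Type}
    [Field L] [Algebra K L] [Algebra k L] [IsScalarTower k K L] (γ : Pt L α β)
    (h : aloc K (co γ) = vanIdeal Z) (T : Set (Pt k α β)) (hT : Least 𝓕 T γ) :
    hull 𝓕 Z = bcP K T := by
  apply Set.Subset.antisymm
  · apply Set.sInter_subset_of_mem
    refine ⟨⟨T, hT.1, rfl⟩, ?_⟩
    intro z hz f hf
    have h1 : aloc K (co γ) ≤ aloc K (co z) := by
      rw [h]
      exact (mem_iff_le_aloc hZ z).mp hz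
    exact mem_aloc.mp (aloc_restrict_le k (co z) (co γ) h1 (hT.2.1 hf))
  · apply Set.subset_sInter
    rintro H ⟨⟨T', hT', rfl⟩, hZH⟩ x hx f hf
    have h1 : T ⊆ T' := hT.2.2 T' hT' (gen_le Z γ h T' hZH)
    exact hx f (vanIdeal_anti h1 hf)

end Pool.Agent.Lib.MP_a325a5_ag.GM
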