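import Pool.Agent.Lib.MP_a325a5_ag.GM.BwdG
import Pool.Agent.Lib.MP_a325a5_ag.GM.FwdG
import Pool.Agent.Lib.MP_a325a5_ag.UM.NoeEx
import Pool.Agent.Lib.MP_a325a5_ag.UL.Main

/-! Universality of the varieties `V_T × ℓ^D` for all special families: assembly. -/

set_option autoImplicit false

namespace Pool.Agent.Lib.MP_a325a5_ag.GM

open MvPolynomial UM

/-- `(1)` Zilber-Pink for all `X ⊆ S × 𝔾_m^β` over `K`; `(2)` finiteness for all `V_T × ℓ^D` over the
algebraic closure of `ℚ`, `T` a special subvariety of `S`, for every Noether normalisation of `T`;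
`(3)` the same for one Noether normalisation of every `T`. -/
theorem universality (K : Type) [Field K] [IsAlgClosed K] [CharZero K]
    [Algebra (AlgebraicClosure ℚ) K] (α : Type) [Fintype α] (S : Set (α → AlgebraicClosure ℚ))
    (𝓕 : (β : Type) → Set (Set (Pt (AlgebraicClosure ℚ) α β))) (hF : Family S 𝓕) :
    List.TFAE [
      ∀ (β : Type) [Fintype β] (X : Set (Pt K α β)), IrrClosed X → (∀ x ∈ X, x.1 ∈ bc K S) →
        ¬ DenseIn (HLatyp 𝓕 X) X,
      ∀ T ∈ base 𝓕, ∀ (a : ℕ) (φ : Fin a → MvPolynomial α (AlgebraicClosure ℚ)),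
        NoetherNorm T φ → ∀ (D : Type) [Fintype D], (MaxAtypical 𝓕 (VT T φ D)).Finite,
      ∀ T ∈ base 𝓕, ∃ (a : ℕ) (φ : Fin a → MvPolynomial α (AlgebraicClosure ℚ)),
        NoetherNorm T φ ∧ ∀ (D : Type) [Fintype D], (MaxAtypical 𝓕 (VT T φ D)).Finite] := by
  classical
  have := UL.isAlgebraic_rat
  tfae_have 1 → 2
  | h => fun T hT a φ hφ D _ => forward hF h T hT φ hφ D
  tfae_have 2 → 3
  | h => fun T hT => by
    obtain ⟨a, φ, hφ⟩ := exists_noetherNorm ((base_family hF).irr T hT)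
    exact ⟨a, φ, hφ, fun D _ => h T hT a φ hφ D⟩
  tfae_have 3 → 1
  | h => by
    intro β _ X hX hXS
    choose! a φ hφ hfin using h
    exact backward hF a φ hφ hfin β X hX hXS
  tfae_finish

end Pool.Agent.Lib.MP_a325a5_ag.GM
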