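import Pool.Agent.Lib.MP_a325a5_ag.GM.Base
import Pool.Agent.Lib.MP_a325a5_ag.UM.Prod
import Pool.Agent.Lib.MP_a325a5_ag.UL.HullEq
import Pool.Agent.Lib.MP_a325a5_ag.UL.LocSet

/-! The products `T × C` of the members of a family and torsion cosets form a family in the sense of
`GM.Family`.

Normal form of a torsion coset: `C = {x | x ^ a = w ^ a for all a ∈ Λ}` with a saturated lattice `Λ` and
a point `w` such that all `w ^ a`, `a ∈ Λ`, are roots of unity. -/

set_option autoImplicit false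

namespace Pool.Agent.Lib.MP_a325a5_ag.GM

open MvPolynomial UM

section cosets

variable {k : Type} [Field k] {ι : Type} [Fintype ι]

/-- the coset of a lattice and a point -/
private def pfCos (Λ : Submodule ℤ (ι → ℤ)) (w : ι → kˣ) : Set (ι → kˣ) :=
  {x | ∀ a ∈ Λ, ∏ i, x i ^ a i = ∏ i, w i ^ a i}

/-- the lattice of the exponents of finite order -/
private def pfLat (w : ι → kˣ) : Submodule ℤ (ι → ℤ) where
  carrier := {a | IsOfFinOrder (∏ i, w i ^ a i)}
  add_mem' := by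
    intro a b ha hb
    have e : ∏ i, w i ^ (a + b) i = (∏ i, w i ^ a i) * ∏ i, w i ^ b i := by
      rw [← Finset.prod_mul_distrib]
      refine Finset.prod_congr rfl fun i _ => ?_
      rw [Pi.add_apply, zpow_add]
    rw [Set.mem_setOf_eq] at ha hb ⊢
    rw [e]
    exact ha.mul hb
  zero_mem' := by
    have e : ∏ i, w i ^ (0 : ι → ℤ) i = 1 := by simp
    rw [Set.mem_setOf_eq, e]
    exact IsOfFinOrder.one
  smul_mem' := by
    intro n a ha
    have e : ∏ i, w i ^ (n • a) i = (∏ i, w i ^ a i) ^ n := by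
      rw [← Finset.prod_zpow]
      refine Finset.prod_congr rfl fun i _ => ?_
      rw [Pi.smul_apply, smul_eq_mul, mul_comm, zpow_mul]
    rw [Set.mem_setOf_eq] at ha ⊢
    rw [e]
    exact ha.zpow

private theorem pf_mem_lat (w : ι → kˣ) (a : ι → ℤ) :
    a ∈ pfLat w ↔ IsOfFinOrder (∏ i, w i ^ a i) := Iff.rfl

private theorem pf_sat (w : ι → kˣ) (n : ℤ) (a : ι → ℤ) (hn : n ≠ 0) (h : n • a ∈ pfLat w) :
    a ∈ pfLat w := by
  rw [pf_mem_lat] at h ⊢
  have e : ∏ i, w i ^ (n • a) i = (∏ i, w i ^ a i) ^ n := by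
    rw [← Finset.prod_zpow]
    refine Finset.prod_congr rfl fun i _ => ?_
    rw [Pi.smul_apply, smul_eq_mul, mul_comm, zpow_mul]
  rw [e] at h
  obtain ⟨m, hm0, hm⟩ := isOfFinOrder_iff_zpow_eq_one.mp h
  refine isOfFinOrder_iff_zpow_eq_one.mpr ⟨n * m, mul_ne_zero hn hm0, ?_⟩
  rw [zpow_mul]
  exact hm

variable [IsAlgClosed k] [CharZero k]

private theorem pf_special (Λ : Submodule ℤ (ι → ℤ)) (w : ι → kˣ)
    (hΛ : ∀ (n : ℤ) (a : ι → ℤ), n ≠ 0 → n • a ∈ Λ → a ∈ Λ)
    (hw : ∀ a ∈ Λ, IsOfFinOrder (∏ i, w i ^ a i)) : UL.IsSpecial (pfCos Λ w) := by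
  refine ⟨(UL.coset_irrClosed Λ hΛ w).1, {e | e.1 ∈ Λ ∧ e.2 = ∏ i, w i ^ e.1 i}, ?_, ?_⟩
  · rintro e ⟨ha, he⟩
    rw [he]
    exact hw _ ha
  · ext x
    constructor
    · rintro hx e ⟨ha, he⟩
      rw [he]
      exact hx e.1 ha
    · intro hx a ha
      exact hx (a, ∏ i, w i ^ a i) ⟨ha, rfl⟩

private theorem pf_nf (C : Set (ι → kˣ)) (hC : UL.IsSpecial C) :
    ∃ (Λ : Submodule ℤ (ι → ℤ)) (w : ι → kˣ), (∀ (n : ℤ) (a : ι → ℤ), n ≠ 0 → n • a ∈ Λ → a ∈ Λ) ∧
      (∀ a ∈ Λ, IsOfFinOrder (∏ i, w i ^ a i)) ∧ C = pfCos Λ w := by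
  obtain ⟨L, _, _, γ, hγ⟩ := UL.exists_generic C hC.1
  obtain ⟨w, hw⟩ := hC.1.nonempty
  have hh : UL.hull C = C :=
    Set.Subset.antisymm (Set.sInter_subset_of_mem ⟨hC, le_rfl⟩) (UL.subset_hull C)
  have key : ∀ x, x ∈ C ↔ ∀ (a : ι → ℤ) (ζ : kˣ), IsOfFinOrder ζ → ∏ i, γ i ^ a i = UL.cst k L ζ →
      ∏ i, x i ^ a i = ζ := by
    intro x
    rw [← UL.mem_hull_iff C hC.1 γ hγ x, hh]
  have hval : ∀ x ∈ C, ∀ a ∈ pfLat γ, ∃ ζ : kˣ, IsOfFinOrder ζ ∧ ∏ i, γ i ^ a i = UL.cst k L ζ ∧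
      ∏ i, x i ^ a i = ζ := by
    intro x hx a ha
    obtain ⟨ζ, hζ, hζ'⟩ := UL.exists_cst_of_isOfFinOrder (K := k) _ ((pf_mem_lat γ a).mp ha)
    exact ⟨ζ, hζ, hζ'.symm, (key x).mp hx a ζ hζ hζ'.symm⟩
  refine ⟨pfLat γ, w, pf_sat γ, ?_, ?_⟩
  · intro a ha
    obtain ⟨ζ, hζ, -, h⟩ := hval w hw a ha
    rw [h]
    exact hζ
  · ext x
    constructor
    · intro hx a ha
      obtain ⟨ζ, hζ, h1, h2⟩ := hval w hw a ha
      rw [h2]
      exact (key x).mp hx a ζ hζ h1
    · intro hx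
      rw [key]
      intro a ζ hζ h1
      have ha : a ∈ pfLat γ := by
        rw [pf_mem_lat, h1]
        exact MonoidHom.isOfFinOrder (UL.cst k L) hζ
      obtain ⟨ζ', hζ', h2, h3⟩ := hval w hw a ha
      have h4 : UL.cst k L ζ = UL.cst k L ζ' := by rw [← h1, h2]
      have h5 : ζ = ζ' := by
        apply Units.ext
        apply (algebraMap k L).injective
        have := congrArg (fun u : Lˣ => (u : L)) h4
        simpa using this
      rw [hx a ha, h3, h5]

private theorem pf_root (n : ℤ) (hn : n ≠ 0) (y : kˣ) : ∃ x : kˣ, x ^ n = y := by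
  have h1 : ∀ (m : ℕ), 0 < m → ∀ y : kˣ, ∃ x : kˣ, x ^ m = y := by
    intro m hm y
    obtain ⟨z, hz⟩ := IsAlgClosed.exists_pow_nat_eq (y : k) hm
    have hz0 : z ≠ 0 := by
      rintro rfl
      rw [zero_pow hm.ne'] at hz
      exact y.ne_zero hz.symm
    refine ⟨Units.mk0 z hz0, ?_⟩
    apply Units.ext
    rw [Units.val_pow_eq_pow_val, Units.val_mk0, hz]
  rcases Int.lt_or_gt_of_ne hn with h | h
  · obtain ⟨x, hx⟩ := h1 n.natAbs (Int.natAbs_pos.mpr hn) y⁻¹
    refine ⟨x, ?_⟩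
    have e : n = -(n.natAbs : ℤ) := by omega
    rw [e, zpow_neg, zpow_natCast, hx, inv_inv]
  · obtain ⟨x, hx⟩ := h1 n.natAbs (Int.natAbs_pos.mpr hn) y
    refine ⟨x, ?_⟩
    have e : n = (n.natAbs : ℤ) := by omega
    rw [e, zpow_natCast, hx]

/-- inverse images of torsion cosets -/
private theorem pf_pull {κ : Type} [Fintype κ] (f : ι → κ) (hf : Function.Injective f)
    (C : Set (ι → kˣ)) (hC : UL.IsSpecial C) : UL.IsSpecial {x : κ → kˣ | x ∘ f ∈ C} := by
  obtain ⟨Λ, w, h1, h2, rfl⟩ := pf_nf C hC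
  have hprod : ∀ (x : κ → kˣ) (a : κ → ℤ), (∀ j, j ∉ Set.range f → a j = 0) →
      ∏ j, x j ^ a j = ∏ i, x (f i) ^ a (f i) := by
    intro x a ha
    refine (Fintype.prod_of_injective f hf _ _ ?_ ?_).symm
    · intro j hj
      rw [ha j hj, zpow_zero]
    · intro i
      rfl
  let Λ' : Submodule ℤ (κ → ℤ) :=
    { carrier := {a | (∀ j, j ∉ Set.range f → a j = 0) ∧ a ∘ f ∈ Λ}
      add_mem' := by
        rintro a b ⟨ha, ha'⟩ ⟨hb, hb'⟩
        refine ⟨fun j hj => ?_, ?_⟩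
        · rw [Pi.add_apply, ha j hj, hb j hj, add_zero]
        · exact Λ.add_mem ha' hb'
      zero_mem' := ⟨fun _ _ => rfl, Λ.zero_mem⟩
      smul_mem' := by
        rintro n a ⟨ha, ha'⟩
        refine ⟨fun j hj => ?_, ?_⟩
        · rw [Pi.smul_apply, ha j hj, smul_zero]
        · exact Λ.smul_mem n ha' }
  have hext : ∀ x : κ → kˣ, x ∘ f = w →
      UL.IsSpecial (pfCos Λ' x) ∧ {x : κ → kˣ | x ∘ f ∈ pfCos Λ w} = pfCos Λ' x := by
    intro x hx
    constructor
    · apply pf_special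
      · rintro n a hn ⟨ha, ha'⟩
        refine ⟨fun j hj => ?_, ?_⟩
        · have := ha j hj
          rw [Pi.smul_apply, smul_eq_mul] at this
          exact (mul_eq_zero.mp this).resolve_left hn
        · exact h1 n (a ∘ f) hn ha'
      · rintro a ⟨ha, ha'⟩
        rw [hprod x a ha]
        have := h2 _ ha'
        rw [← hx] at this
        exact this
    · ext y
      constructor
      · rintro hy a ⟨ha, ha'⟩
        rw [hprod y a ha, hprod x a ha]
        have := hy _ ha'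
        rw [← hx] at this
        exact this
      · intro hy a ha
        have ha' : Function.extend f a 0 ∈ Λ' := by
          refine ⟨fun j hj => ?_, ?_⟩
          · exact Function.extend_apply' _ _ _ hj
          · have e : Function.extend f a 0 ∘ f = a := by
              funext i
              exact hf.extend_apply _ _ _
            rw [e]
            exact ha
        have h3 := hy _ ha'
        rw [hprod y _ ha'.1, hprod x _ ha'.1] at h3
        simp only [hf.extend_apply] at h3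
        rw [← hx]
        exact h3
  obtain ⟨h3, h4⟩ := hext (Function.extend f w 1) (by
    funext i
    exact hf.extend_apply _ _ _)
  rw [h4]
  exact h3

/-- projections of torsion cosets -/
private theorem pf_proj (C : Set (Option ι → kˣ)) (hC : UL.IsSpecial C) :
    ∃ C' : Set (ι → kˣ), UL.IsSpecial C' ∧ (∀ x ∈ C, x ∘ some ∈ C') ∧
      (∀ z ∈ C', ∃ x ∈ C, x ∘ some = z) ∧
      (C = {x | x ∘ some ∈ C'} ∨ ∃ (n : ℤ) (a : ι → ℤ) (c : kˣ), n ≠ 0 ∧
        ∀ x ∈ C, x none ^ n * ∏ i, x (some i) ^ a i = c) := by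
  obtain ⟨Λ, w, h1, h2, rfl⟩ := pf_nf C hC
  have hopt : ∀ (x : Option ι → kˣ) (a : Option ι → ℤ),
      ∏ o, x o ^ a o = x none ^ a none * ∏ i, x (some i) ^ a (some i) := by
    intro x a
    rw [Fintype.prod_option]
  let E : (ι → ℤ) →ₗ[ℤ] (Option ι → ℤ) :=
    { toFun := fun a o => o.elim 0 a
      map_add' := by
        intro a b
        funext o
        rcases o with _ | i
        · rfl
        · rfl
      map_smul' := by
        intro n a
        funext o
        rcases o with _ | i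
        · simp
        · rfl }
  have hE : ∀ (x : Option ι → kˣ) (a : ι → ℤ), ∏ o, x o ^ E a o = ∏ i, x (some i) ^ a i := by
    intro x a
    rw [hopt]
    change x none ^ (0 : ℤ) * ∏ i, x (some i) ^ a i = _
    rw [zpow_zero, one_mul]
  have hEsome : ∀ a : Option ι → ℤ, a none = 0 → E (a ∘ some) = a := by
    intro a ha
    funext o
    rcases o with _ | i
    · exact ha.symm
    · rfl
  have hsp : UL.IsSpecial (pfCos (Λ.comap E) (w ∘ some)) := by
    apply pf_special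
    · intro n a hn ha
      rw [Submodule.mem_comap] at ha ⊢
      rw [map_smul] at ha
      exact h1 n _ hn ha
    · intro a ha
      have := h2 _ ha
      rw [hE] at this
      exact this
  refine ⟨pfCos (Λ.comap E) (w ∘ some), hsp, ?_, ?_, ?_⟩
  · intro x hx a ha
    have := hx _ ha
    rw [hE, hE] at this
    exact this
  · intro z hz
    by_cases hN : ∀ a ∈ Λ, a none = 0
    · refine ⟨fun o => o.elim 1 z, ?_, rfl⟩
      intro a ha
      have h3 : a ∘ some ∈ Λ.comap E := by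
        rw [Submodule.mem_comap, hEsome a (hN a ha)]
        exact ha
      rw [hopt, hopt, hN a ha, zpow_zero, one_mul, zpow_zero, one_mul]
      exact hz _ h3
    · push Not at hN
      obtain ⟨a₁, ha₁, hn₁⟩ := hN
      let N : Submodule ℤ ℤ := Λ.map (LinearMap.proj (R := ℤ) (φ := fun _ : Option ι => ℤ) none)
      obtain ⟨g, hg⟩ := IsPrincipalIdealRing.principal N
      have hgN : g ∈ N := by
        rw [hg]
        exact Submodule.mem_span_singleton_self g
      obtain ⟨a₀, ha₀, hg₀⟩ := hgN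
      have hg₀' : a₀ none = g := hg₀
      have hdiv : ∀ a ∈ Λ, ∃ m : ℤ, m * a₀ none = a none := by
        intro a ha
        have h3 : a none ∈ N := ⟨a, ha, rfl⟩
        rw [hg, Submodule.mem_span_singleton] at h3
        obtain ⟨m, hm⟩ := h3
        refine ⟨m, ?_⟩
        rw [hg₀', ← hm, smul_eq_mul]
      have hn₀ : a₀ none ≠ 0 := by
        intro h0
        obtain ⟨m, hm⟩ := hdiv a₁ ha₁
        rw [h0, mul_zero] at hm
        exact hn₁ hm.symm
      obtain ⟨x, hx⟩ := pf_root (a₀ none) hn₀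
        ((∏ o, w o ^ a₀ o) * (∏ i, z i ^ a₀ (some i))⁻¹)
      refine ⟨fun o => o.elim x z, ?_, rfl⟩
      have hbase : ∏ o : Option ι, (o.elim x z : kˣ) ^ a₀ o = ∏ o, w o ^ a₀ o := by
        rw [hopt (fun o => o.elim x z)]
        change x ^ a₀ none * ∏ i, z i ^ a₀ (some i) = _
        rw [hx, inv_mul_cancel_right]
      intro a ha
      obtain ⟨m, hm⟩ := hdiv a ha
      have h3 : a - m • a₀ ∈ Λ := Λ.sub_mem ha (Λ.smul_mem m ha₀)
      have h4 : (a - m • a₀) none = 0 := by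
        rw [Pi.sub_apply, Pi.smul_apply, smul_eq_mul, hm, sub_self]
      have h5 : (a - m • a₀) ∘ some ∈ Λ.comap E := by
        rw [Submodule.mem_comap, hEsome _ h4]
        exact h3
      have h6 := hz _ h5
      have hsplit : ∀ y : Option ι → kˣ, ∏ o, y o ^ a o =
          (∏ o, y o ^ a₀ o) ^ m * ∏ i, y (some i) ^ ((a - m • a₀) ∘ some) i := by
        intro y
        rw [← hE y ((a - m • a₀) ∘ some), hEsome _ h4, ← Finset.prod_zpow,
          ← Finset.prod_mul_distrib]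
        refine Finset.prod_congr rfl fun o _ => ?_
        rw [← zpow_mul, ← zpow_add, Pi.sub_apply, Pi.smul_apply, smul_eq_mul]
        congr 1
        ring
      rw [hsplit, hsplit, hbase]
      congr 1
  · by_cases hN : ∀ a ∈ Λ, a none = 0
    · left
      ext x
      constructor
      · intro hx a ha
        have := hx _ ha
        rw [hE, hE] at this
        exact this
      · intro hx a ha
        have h3 : a ∘ some ∈ Λ.comap E := by
          rw [Submodule.mem_comap, hEsome a (hN a ha)]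
          exact ha
        rw [hopt, hopt, hN a ha, zpow_zero, one_mul, zpow_zero, one_mul]
        exact hx _ h3
    · right
      push Not at hN
      obtain ⟨a₁, ha₁, hn₁⟩ := hN
      refine ⟨a₁ none, a₁ ∘ some, ∏ o, w o ^ a₁ o, hn₁, ?_⟩
      intro x hx
      have := hx a₁ ha₁
      rw [hopt] at this
      exact this

end cosets

/-- The products `T × C`, `T ∈ 𝒮`, `C` a torsion coset, form a family. -/
theorem family_of_prod {k : Type} [Field k] [IsAlgClosed k] [CharZero k] {α : Type} [Fintype α]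
    {S : Set (α → k)} {𝒮 : Set (Set (α → k))} (h𝒮 : UM.Family S 𝒮) :
    Family S (fun β => {H : Set (Pt k α β) | ∃ (_ : Fintype β), ∃ T ∈ 𝒮, ∃ C : Set (β → kˣ),
      UL.IsSpecial C ∧ H = {p | p.1 ∈ T ∧ p.2 ∈ C}}) := by
  refine ⟨?_, ?_, ?_, ?_, ?_, ?_⟩
  · rintro β _ _ ⟨i1, T, hT, C, hC, rfl⟩
    exact prod_irr (h𝒮.irr T hT) hC.1
  · rintro β _ _ ⟨i1, T, hT, C, hC, rfl⟩ p hp
    exact h𝒮.sub T hT hp.1
  · intro β _ C hC
    exact ⟨inferInstance, S, h𝒮.top, C, hC, rfl⟩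
  · rintro β β' _ _ f hf _ ⟨i1, T, hT, C, hC, rfl⟩
    exact ⟨inferInstance, T, hT, {x | x ∘ f ∈ C}, pf_pull f hf C hC, rfl⟩
  · rintro β iβ _ ⟨i1, T₁, hT₁, C₁, hC₁, rfl⟩ _ ⟨i2, T₂, hT₂, C₂, hC₂, rfl⟩ Z hZ hsub
    obtain rfl : i1 = iβ := Subsingleton.elim _ _
    obtain rfl : i2 = i1 := Subsingleton.elim _ _
    obtain ⟨L, _, _, γ, hγ⟩ := UM.exists_generic Z hZ
    obtain ⟨TZ, hTZ, hTZ'⟩ := exists_airr (K := k) γ.1
    obtain ⟨CZ, hCZ, hCZ'⟩ := UL.exists_irrClosed (K := k) γ.2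
    have hfst : ∀ T : Set (α → k), AIrr T → (∀ p ∈ Z, p.1 ∈ T) → TZ ⊆ T := by
      intro T hT h
      rw [asubset_iff hT, hTZ']
      intro f hf
      have h1 : rename Sum.inl f ∈ vanIdeal Z := by
        intro z hz
        rw [eval_rename]
        exact hf z.1 (h z hz)
      rw [← hγ, mem_aloc, aeval_rename] at h1
      exact mem_aloc.mpr h1
    have hsnd : ∀ C : Set (β → kˣ), UL.IrrClosed C → (∀ p ∈ Z, p.2 ∈ C) → CZ ⊆ C := by
      intro C hC h
      rw [UL.subset_iff hC, hCZ']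
      intro f hf
      have h1 : rename Sum.inr f ∈ vanIdeal Z := by
        intro z hz
        rw [eval_rename]
        exact hf z.2 (h z hz)
      rw [← hγ, mem_aloc, aeval_rename] at h1
      exact h1
    have hfst' : ∀ p ∈ Z, p.1 ∈ TZ := by
      intro p hp
      apply hTZ.2
      intro f hf
      rw [hTZ', mem_aloc] at hf
      have h1 : rename Sum.inl f ∈ vanIdeal Z := by
        rw [← hγ, mem_aloc, aeval_rename]
        exact hf
      have h2 := h1 p hp
      rw [eval_rename] at h2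
      exact h2
    have hsnd' : ∀ p ∈ Z, p.2 ∈ CZ := by
      intro p hp
      apply hCZ.2
      intro f hf
      rw [hCZ', UL.mem_locus] at hf
      have h1 : rename Sum.inr f ∈ vanIdeal Z := by
        rw [← hγ, mem_aloc, aeval_rename]
        exact hf
      have h2 := h1 p hp
      rw [eval_rename] at h2
      exact h2
    obtain ⟨T₃, hT₃, h3, h4⟩ := h𝒮.inter T₁ hT₁ T₂ hT₂ TZ hTZ (Set.subset_inter
      (hfst T₁ (h𝒮.irr _ hT₁) fun p hp => (hsub hp).1.1)
      (hfst T₂ (h𝒮.irr _ hT₂) fun p hp => (hsub hp).2.1))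
    refine ⟨{p | p.1 ∈ T₃ ∧ p.2 ∈ UL.hull CZ}, ⟨inferInstance, T₃, hT₃, UL.hull CZ,
      UL.isSpecial_hull CZ hCZ, rfl⟩, ?_, ?_⟩
    · intro p hp
      exact ⟨h3 (hfst' p hp), UL.subset_hull CZ (hsnd' p hp)⟩
    · intro p hp
      have h5 : UL.hull CZ ⊆ C₁ := Set.sInter_subset_of_mem
        ⟨hC₁, hsnd C₁ hC₁.1 fun p hp => (hsub hp).1.2⟩
      have h6 : UL.hull CZ ⊆ C₂ := Set.sInter_subset_of_mem
        ⟨hC₂, hsnd C₂ hC₂.1 fun p hp => (hsub hp).2.2⟩
      exact ⟨⟨(h4 hp.1).1, h5 hp.2⟩, ⟨(h4 hp.1).2, h6 hp.2⟩⟩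
  · rintro β _ _ ⟨i1, T, hT, C, hC, rfl⟩
    obtain rfl : i1 = instFintypeOption := Subsingleton.elim _ _
    obtain ⟨C', h1, h2, h3, h4⟩ := pf_proj C hC
    have himg : ((fun p : Pt k α (Option β) => ((p.1, p.2 ∘ some) : Pt k α β)) ''
        {p : Pt k α (Option β) | p.1 ∈ T ∧ p.2 ∈ C}) = {p : Pt k α β | p.1 ∈ T ∧ p.2 ∈ C'} := by
      ext p
      constructor
      · rintro ⟨q, hq, rfl⟩
        exact ⟨hq.1, h2 _ hq.2⟩
      · rintro ⟨hp1, hp2⟩
        obtain ⟨x, hx, hx'⟩ := h3 _ hp2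
        exact ⟨(p.1, x), ⟨hp1, hx⟩, by
          change (p.1, x ∘ some) = p
          rw [hx']⟩
    refine ⟨{p | p.1 ∈ T ∧ p.2 ∈ C'}, ⟨inferInstance, T, hT, C', h1, rfl⟩, ?_, ?_⟩
    · rw [himg]
    · rcases h4 with h4 | ⟨n, a, c, hn, hc⟩
      · left
        ext p
        constructor
        · intro hp
          exact ⟨hp.1, h2 _ hp.2⟩
        · rintro ⟨hp1, hp2⟩
          refine ⟨hp1, ?_⟩
          rw [h4]
          exact hp2
      · right
        refine ⟨n, a, hn, fun s => ?_⟩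
        refine (Set.finite_singleton c).subset ?_
        rintro _ ⟨p, hp, -, rfl⟩
        exact hc p.2 hp.2

end Pool.Agent.Lib.MP_a325a5_ag.GM
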